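import Pool.Agent.Mg.F954c34a.Ga4b523

set_option linter.all false

open MeasureTheory Set Filter Topology Metric
open scoped ContDiff ComplexConjugate InnerProductSpace BoundedContinuousFunction Matrix

set_option linter.unusedSectionVars false
set_option maxSynthPendingDepth 3

noncomputable section

namespace Pool.Agent.MP_954c34_an.Sob

open Sharp

lemma exists_extend {X : Type} [TopologicalSpace X] {A : ℝ → X} (hA : Continuous A) {a₀ : X}
    (h : Tendsto A atTop (𝓝 a₀)) (T : ℝ) : ∃ a : ℝ → X, Continuous a ∧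
      (∀ t < T, a t = A (-Real.log (T - t))) ∧ ∀ t, T ≤ t → a t = a₀ := by
  classical
  obtain ⟨a, h1, h2⟩ : ∃ a : ℝ → X, (∀ t < T, a t = A (-Real.log (T - t))) ∧
      ∀ t, T ≤ t → a t = a₀ :=
    ⟨fun t => if t < T then A (-Real.log (T - t)) else a₀, fun t ht => if_pos ht,
      fun t ht => if_neg (not_lt.2 ht)⟩
  refine ⟨a, continuous_iff_continuousAt.2 fun t => ?_, h1, h2⟩
  rcases lt_trichotomy t T with ht | rfl | ht
  · exact (hA.continuousAt.comp (hasDerivAt_logTime ht).continuousAt).congr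
      ((gt_mem_nhds ht).mono fun s hs => (h1 s hs).symm)
  · refine continuousAt_iff_continuous_left'_right'.2 ⟨?_, ?_⟩
    · have k1 : Tendsto (fun s => t - s) (𝓝[<] t) (𝓝[>] 0) :=
        tendsto_nhdsWithin_iff.2 ⟨((continuous_const.sub continuous_id).tendsto' t 0
          (sub_self t)).mono_left nhdsWithin_le_nhds,
          eventually_nhdsWithin_of_forall fun s hs => mem_Ioi.2 (sub_pos.2 (mem_Iio.1 hs))⟩
      rw [ContinuousWithinAt, h2 t le_rfl]
      exact (h.comp (tendsto_neg_atBot_atTop.comp (Real.tendsto_log_nhdsGT_zero.comp k1))).congr'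
        (eventually_nhdsWithin_of_forall fun s hs => (h1 s hs).symm)
    · exact (continuousWithinAt_const (b := a₀)).congr (fun s hs => h2 s (le_of_lt hs))
        (h2 t le_rfl)
  · exact (continuousAt_const (y := a₀)).congr
      ((lt_mem_nhds ht).mono fun s hs => (h2 s hs.le).symm)

variable {E : Type} [NormedAddCommGroup E] [InnerProductSpace ℝ E] [FiniteDimensional ℝ E]
  [MeasurableSpace E] [BorelSpace E] {n : ℕ}

/-- A function of one coordinate. -/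
def lift (b : OrthonormalBasis (Fin n) ℝ E) (i₀ : Fin n) : (ℝ →ᵇ ℝ) →L[ℝ] (E →ᵇ ℝ) :=
  BoundedContinuousFunction.compContinuousCLM ℝ ℝ ⟨crd b i₀, (crd b i₀).continuous⟩

lemma lift_apply (b : OrthonormalBasis (Fin n) ℝ E) (i₀ : Fin n) (h : ℝ →ᵇ ℝ) (x : E) :
    lift b i₀ h x = h (crd b i₀ x) := rfl

lemma norm_lift_le (b : OrthonormalBasis (Fin n) ℝ E) (i₀ : Fin n) (h : ℝ →ᵇ ℝ) :
    ‖lift b i₀ h‖ ≤ ‖h‖ := BoundedContinuousFunction.norm_compContinuous_le _ _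

lemma crd_add (b : OrthonormalBasis (Fin n) ℝ E) (i₀ i : Fin n) (x : E) (r : ℝ) :
    crd b i₀ (x + r • b i) = crd b i₀ x + r * kron i₀ i := by
  rw [map_add, map_smul, crd_basis, smul_eq_mul]

lemma abs_crd_le (b : OrthonormalBasis (Fin n) ℝ E) (i₀ : Fin n) (x : E) : |crd b i₀ x| ≤ ‖x‖ := by
  simpa [b.orthonormal.1 i₀, crd] using abs_real_inner_le_norm (b i₀) x

lemma hasPD_lift_ne (b : OrthonormalBasis (Fin n) ℝ E) {i₀ i : Fin n} (hi : i₀ ≠ i)
    (h : ℝ →ᵇ ℝ) : HasPD (b i) (lift b i₀ h) 0 := fun x s => by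
  simp only [lift_apply, crd_add, kron, if_neg hi, mul_zero, add_zero]
  exact hasDerivAt_const _ _

lemma hasPD_lift (b : OrthonormalBasis (Fin n) ℝ E) (i₀ : Fin n) {h h' : ℝ →ᵇ ℝ}
    (hh : ∀ y, HasDerivAt h (h' y) y) : HasPD (b i₀) (lift b i₀ h) (lift b i₀ h') := fun x s => by
  simp only [lift_apply, crd_add, kron, if_true, mul_one]
  exact (hh _).comp_const_add _ _

lemma exists_geometry (μ : Measure E) [μ.IsAddHaarMeasure] (b : OrthonormalBasis (Fin n) ℝ E)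
    (i₀ : Fin n) {Ω D : Set E} (hΩ : IsOpen Ω) (hne : Ω.Nonempty) (hD : D ⊆ frontier Ω) :
    ∃ (K : Set E) (hK : IsCompact K) (χ : E → ℝ) (I K₀ : Set ℝ) (κ g : ℝ → ℝ) (ϖ : Measure ℝ),
      K ⊆ Ω ∧ K ⊆ Dᶜ ∧ Test K χ ∧ (∀ x, crd b i₀ x ∈ I → pd b i₀ χ x = 0) ∧
      (∀ F : ℝ → ℝ, Continuous F → Integrable F ϖ) ∧ IsCompact I ∧ IsCompact K₀ ∧ K₀ ⊆ I ∧
      Test K₀ κ ∧ (∀ y, |κ y| ≤ 1) ∧ (∀ᵐ y ∂ϖ, κ y = 1) ∧ Test I g ∧
      (∀ y ∈ K₀, 0 < deriv g y) ∧ 0 < ∫ y, deriv g y ^ 2 ∂ϖ ∧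
      ∀ h : ℝ →ᵇ ℝ, ∫ y, h y ^ 2 ∂ϖ ≤ ‖cut μ Ω hK (bcf χ * lift b i₀ h)‖ ^ 2 := by
  obtain ⟨x₀, hx₀⟩ := hne
  obtain ⟨R, hR, hball⟩ := nhds_basis_closedBall.mem_iff.1 (hΩ.mem_nhds hx₀)
  obtain ⟨r, rfl⟩ : ∃ r, R = 14 * r := ⟨R / 14, by ring⟩
  have hr : 0 < r := by linarith
  obtain ⟨c, hc⟩ : ∃ c, c = crd b i₀ x₀ := ⟨_, rfl⟩
  let φ : ContDiffBump (0 : E) := ⟨2 * r, 4 * r, by positivity, by linarith⟩
  let θ : ContDiffBump c := ⟨8 * r, 10 * r, by positivity, by linarith⟩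
  let γ : ContDiffBump c := ⟨4 * r, 6 * r, by positivity, by linarith⟩
  let κ : ContDiffBump c := ⟨2 * r, 3 * r, by positivity, by linarith⟩
  obtain ⟨π, hπ⟩ : ∃ π : E → E, π = fun x => x - x₀ - (crd b i₀ x - c) • b i₀ := ⟨_, rfl⟩
  have hb1 : ‖b i₀‖ = 1 := b.orthonormal.1 i₀
  have hcr : ∀ x ∈ closedBall x₀ r, |crd b i₀ x - c| ≤ r := fun x hx => by
    rw [hc, ← map_sub]
    exact (abs_crd_le b i₀ _).trans (mem_closedBall_iff_norm.1 hx)
  have hχ : Test (closedBall x₀ (14 * r)) fun x => φ (π x) * θ (crd b i₀ x) := by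
    refine ⟨(φ.contDiff.comp (by rw [hπ]; fun_prop)).mul (θ.contDiff.comp (crd b i₀).contDiff),
      closure_minimal (fun x hx => ?_) isClosed_closedBall⟩
    have k1 : π x ∈ ball 0 φ.rOut := φ.support_eq ▸ left_ne_zero_of_mul hx
    have k2 : crd b i₀ x ∈ ball c θ.rOut := θ.support_eq ▸ right_ne_zero_of_mul hx
    have k3 : x - x₀ = π x + (crd b i₀ x - c) • b i₀ := by simp [hπ]
    rw [mem_ball_zero_iff] at k1
    rw [mem_ball_iff_norm] at k2
    rw [mem_closedBall_iff_norm, k3]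
    refine (norm_add_le _ _).trans ?_
    rw [norm_smul, hb1]
    simp only [φ, θ] at k1 k2
    linarith
  have hχ1 : ∀ x ∈ closedBall x₀ r, φ (π x) * θ (crd b i₀ x) = 1 := fun x hx => by
    have k1 : ‖π x‖ ≤ 2 * r := by
      rw [hπ]
      refine (norm_sub_le _ _).trans ?_
      rw [norm_smul, hb1, Real.norm_eq_abs]
      linarith [hcr x hx, mem_closedBall_iff_norm.1 hx]
    rw [φ.one_of_mem_closedBall (mem_closedBall_zero_iff.2 k1), θ.one_of_mem_closedBall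
      (mem_closedBall_iff_norm.2 ((hcr x hx).trans (by simp only [θ]; linarith))), mul_one]
  have hg : Test (closedBall c (6 * r)) fun y => γ y * y :=
    test_mul ⟨γ.contDiff, γ.tsupport_eq.subset⟩ contDiff_id
  have hg1 : ∀ y ∈ closedBall c (3 * r), deriv (fun y => γ y * y) y = 1 := fun y hy => by
    have k1 : (fun y => γ y * y) =ᶠ[𝓝 y] fun y => y := by
      filter_upwards [γ.eventuallyEq_one_of_mem_ball
        (closedBall_subset_ball (by simp only [γ]; linarith) hy)] with z hz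
      simp [hz]
    rw [k1.deriv_eq, deriv_id'']
  have hmap : ∀ F : ℝ → ℝ, Continuous F →
      ∫ y, F y ∂((μ.restrict (closedBall x₀ r)).map (crd b i₀)) =
        ∫ x in closedBall x₀ r, F (crd b i₀ x) ∂μ := fun F hF =>
    integral_map (crd b i₀).continuous.aemeasurable hF.aestronglyMeasurable
  have hsub : closedBall x₀ r ⊆ Ω := (closedBall_subset_closedBall (by linarith)).trans hball
  refine ⟨closedBall x₀ (14 * r), isCompact_closedBall _ _, _, closedBall c (6 * r),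
    closedBall c (3 * r), κ, _, (μ.restrict (closedBall x₀ r)).map (crd b i₀), hball,
    fun x hx hxD => ?_, hχ, fun x hx => ?_, fun F hF => ?_, isCompact_closedBall _ _,
    isCompact_closedBall _ _, closedBall_subset_closedBall (by linarith),
    ⟨κ.contDiff, κ.tsupport_eq.subset⟩, fun y => (abs_of_nonneg κ.nonneg).trans_le κ.le_one, ?_,
    hg, fun y hy => (hg1 y hy).symm ▸ one_pos, ?_, fun h => ?_⟩
  · have := hD hxD
    rw [hΩ.frontier_eq] at this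
    exact this.2 (hball hx)
  · have k1 : HasDerivAt (fun t : ℝ => φ (π (x + t • b i₀)) * θ (crd b i₀ (x + t • b i₀))) _ 0 :=
      (hχ.differentiable x).hasFDerivAt.hasLineDerivAt (b i₀)
    have k2 : ∀ t : ℝ, π (x + t • b i₀) = π x := fun t => by
      simp only [hπ, crd_add, kron, if_true, mul_one]
      module
    have k3 : (fun t : ℝ => φ (π (x + t • b i₀)) * θ (crd b i₀ (x + t • b i₀))) =ᶠ[𝓝 0]
        fun _ => φ (π x) := by
      filter_upwards [closedBall_mem_nhds (0 : ℝ) hr] with t ht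
      rw [k2, θ.one_of_mem_closedBall, mul_one]
      rw [mem_closedBall_iff_norm, Real.norm_eq_abs, abs_le] at *
      simp only [crd_add, kron, if_true, mul_one, θ]
      constructor <;> linarith [ht.1, ht.2, hx.1, hx.2]
    exact k1.unique ((hasDerivAt_const _ _).congr_of_eventuallyEq k3)
  · exact (integrable_map_measure hF.aestronglyMeasurable (crd b i₀).continuous.aemeasurable).2
      ((hF.comp (crd b i₀).continuous).continuousOn.integrableOn_compact (isCompact_closedBall _ _))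
  · refine (ae_map_iff (crd b i₀).continuous.aemeasurable
      (isClosed_eq κ.continuous continuous_const).measurableSet).2 ?_
    filter_upwards [ae_restrict_mem measurableSet_closedBall] with x hx
    exact κ.one_of_mem_closedBall
      (mem_closedBall_iff_norm.2 ((hcr x hx).trans (by simp only [κ]; linarith)))
  · rw [hmap _ ((test_deriv hg).smooth.continuous.fun_pow 2),
      setIntegral_congr_fun (g := fun _ => 1) measurableSet_closedBall fun x hx => by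
        simp only [hg1 _ (mem_closedBall_iff_norm.2 ((hcr x hx).trans (by linarith))), one_pow]]
    simp only [integral_const, measureReal_restrict_apply_univ, smul_eq_mul, mul_one]
    exact ENNReal.toReal_pos (measure_closedBall_pos μ x₀ hr).ne' measure_closedBall_lt_top.ne
  · have hK : IsCompact (closedBall x₀ (14 * r)) := isCompact_closedBall _ _
    have k1 := coeFn_cut μ Ω hK (m := bcf _ * lift b i₀ h) fun x hx => by
      rw [BoundedContinuousFunction.mul_apply, hχ.bcf_apply hK, hχ.eq_zero hx, zero_mul]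
    rw [hmap _ (h.continuous.fun_pow 2), ← inner_self_eq_norm_sq (𝕜 := ℂ), L2.inner_def,
      ← integral_re (L2.integrable_inner (𝕜 := ℂ) _ _)]
    simp only [inner_self_eq_norm_sq]
    refine le_trans (le_of_eq (integral_congr_ae ?_)) (integral_mono_measure
      (Measure.restrict_mono hsub le_rfl) (Eventually.of_forall fun x => sq_nonneg _)
      ((Lp.memLp _).integrable_norm_pow (by norm_num)))
    filter_upwards [ae_mono (Measure.restrict_mono hsub le_rfl) k1,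
      ae_restrict_mem measurableSet_closedBall] with x k2 k3
    rw [k2, BoundedContinuousFunction.mul_apply, hχ.bcf_apply hK, hχ1 x k3, one_mul, lift_apply,
      Complex.norm_real, Real.norm_eq_abs, sq_abs]

/-- The operator of a scalar coefficient. -/
def scalOp (μ : Measure E) (b : OrthonormalBasis (Fin n) ℝ E) (Ω D : Set E) (m : E →ᵇ ℝ) :
    formDomain μ b Ω D →L[ℂ] Antidual μ b Ω D :=
  matOp μ b Ω D fun i j => kron i j • m

lemma exists_scalOp_le (μ : Measure E) (b : OrthonormalBasis (Fin n) ℝ E) (Ω D : Set E) :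
    ∃ C : ℝ, 0 ≤ C ∧ ∀ m m', ‖scalOp μ b Ω D m - scalOp μ b Ω D m'‖ ≤ C * ‖m - m'‖ := by
  obtain ⟨C, hC, h⟩ := exists_norm_matOp_sub_le μ b Ω D
  refine ⟨C, hC, fun m m' => h _ _ _ fun i j => ?_⟩
  rw [← smul_sub, norm_smul]
  exact mul_le_of_le_one_left (norm_nonneg _) (abs_kron_le i j)

lemma scalOp_eq_form (μ : Measure E) (b : OrthonormalBasis (Fin n) ℝ E) (Ω D : Set E)
    (m : E →ᵇ ℝ) (u v : formDomain μ b Ω D) :
    scalOp μ b Ω D m u v = form μ b Ω D (fun x => (m x : ℂ) • 1) u v := by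
  rw [scalOp, matOp_eq_form]
  congr 1
  funext x
  ext i j
  by_cases h : i = j <;> simp [kron, h]

lemma scalOp_apply (μ : Measure E) (b : OrthonormalBasis (Fin n) ℝ E) (Ω D : Set E)
    (m : E →ᵇ ℝ) (u : formDomain μ b Ω D) : scalOp μ b Ω D m u =
      ∑ i, dualOf μ b Ω D (some i) (mulOp μ Ω m (comp μ b Ω D (some i) u)) := by
  rw [scalOp, matOp_apply]
  refine Finset.sum_congr rfl fun i _ => ?_
  rw [Finset.sum_eq_single i]
  · simp [kron]
  · intro j _ hj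
    simp [kron, hj.symm]
  · simp

section Lift

variable {μ : Measure E} [μ.IsAddHaarMeasure] {b : OrthonormalBasis (Fin n) ℝ E} {i₀ : Fin n}
  {Ω D K : Set E} {χ : E → ℝ} {I : Set ℝ}

/-- `h ↦ m(x) h(x_{i₀})` in `L²(Ω)`. -/
def cutL (μ : Measure E) [μ.IsAddHaarMeasure] (b : OrthonormalBasis (Fin n) ℝ E) (i₀ : Fin n)
    (Ω : Set E) {K : Set E} (hK : IsCompact K) (m : E →ᵇ ℝ) : (ℝ →ᵇ ℝ) →L[ℝ] L2 μ Ω :=
  (cut μ Ω hK).comp ((ContinuousLinearMap.mul ℝ _ m).comp (lift b i₀))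

lemma cutL_apply (hK : IsCompact K) (m : E →ᵇ ℝ) (h : ℝ →ᵇ ℝ) :
    cutL μ b i₀ Ω hK m h = cut μ Ω hK (m * lift b i₀ h) := rfl

lemma exists_jet (hK : IsCompact K) (hKD : K ⊆ Dᶜ) (hχ : Test K χ) {U P : ℝ →ᵇ ℝ}
    (hU : Test I U) (hP : ∀ y, HasDerivAt U (P y) y) : ∃ u : formDomain μ b Ω D,
      comp μ b Ω D none u = cutL μ b i₀ Ω hK (bcf χ) U ∧
      ∀ i, comp μ b Ω D (some i) u = cutL μ b i₀ Ω hK (bcf (pd b i χ)) U +
        cutL μ b i₀ Ω hK (kron i₀ i • bcf χ) P := by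
  have ht : Test K fun x => χ x * U (crd b i₀ x) :=
    ⟨hχ.smooth.mul (hU.smooth.comp (crd b i₀).contDiff), tsupport_mul_subset_left.trans hχ.supp⟩
  refine ⟨jetV μ b Ω D hK hKD ht, ?_, fun i => ?_⟩
  · rw [comp_jetV_none, cutL_apply]
    congr 1
    ext x
    simp [ht.bcf_apply hK, hχ.bcf_apply hK, lift_apply]
  · rw [comp_jetV_some, cutL_apply, cutL_apply, ← map_add]
    congr 1
    ext x
    have : HasFDerivAt (fun x => χ x * U (crd b i₀ x)) _ x :=
      (hχ.differentiable x).hasFDerivAt.fun_mul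
        ((hP (crd b i₀ x)).comp_hasFDerivAt x (hasFDerivAt_coord b i₀ x))
    rw [(ht.pd b i).bcf_apply hK, pd_of_hasFDerivAt this]
    simp [hχ.bcf_apply hK, (hχ.pd b i).bcf_apply hK, lift_apply, pd, crd_basis]
    ring

lemma flux_eq (hK : IsCompact K) (hKΩ : K ⊆ Ω) (hχ : Test K χ)
    (hχ0 : ∀ x, crd b i₀ x ∈ I → pd b i₀ χ x = 0) {U P A G : ℝ →ᵇ ℝ} (hU : Test I U)
    (hP : ∀ y, HasDerivAt U (P y) y) (hG : ∀ y, HasDerivAt (fun y => A y * P y) (G y) y)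
    (i : Fin n) :
    dualOf μ b Ω D (some i) (mulOp μ Ω (lift b i₀ A) (cutL μ b i₀ Ω hK (bcf (pd b i χ)) U +
      cutL μ b i₀ Ω hK (kron i₀ i • bcf χ) P)) =
    -dualOf μ b Ω D none (kron i₀ i • cutL μ b i₀ Ω hK (bcf χ) G +
      cutL μ b i₀ Ω hK ((1 - kron i₀ i) • bcf (pd b i (pd b i χ))) (A * U)) := by
  rw [cutL_apply, cutL_apply, cutL_apply, cutL_apply, ← map_add, mulOp_cut, ← map_smul, ← map_add]
  have fin : ∀ {m m' k k' : E →ᵇ ℝ}, dualOf μ b Ω D none (cut μ Ω hK m') =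
      -dualOf μ b Ω D (some i) (cut μ Ω hK m) → k = m → k' = m' →
      dualOf μ b Ω D (some i) (cut μ Ω hK k) = -dualOf μ b Ω D none (cut μ Ω hK k') := by
    rintro m m' _ _ h rfl rfl
    rw [h, neg_neg]
  have e0 := hχ.bcf_apply hK
  have e1 := (hχ.pd b i).bcf_apply hK
  have e2 := ((hχ.pd b i).pd b i).bcf_apply hK
  by_cases hi : i₀ = i
  · subst hi
    have hP0 : ∀ y, y ∉ I → P y = 0 := fun y hy => by
      rw [← (hP y).deriv]
      exact (test_deriv hU).eq_zero hy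
    have k := dualOf_hasPD (μ := μ) (D := D) hK hKΩ
      ((hasPD_bcf hK hχ i₀).mul (hasPD_lift b i₀ (h := A * P) hG))
      (fun x hx => by simp [e0, hχ.eq_zero hx])
      (fun x hx => by simp [e0, e1, hχ.eq_zero hx, (hχ.pd b i₀).eq_zero hx])
    refine fin k ?_ ?_
    · ext x
      by_cases hx : crd b i₀ x ∈ I <;>
        simp [e0, e1, lift_apply, kron, hχ0 x, hU.eq_zero, hx, mul_left_comm]
    · ext x
      by_cases hx : crd b i₀ x ∈ I <;> simp [e0, e1, lift_apply, kron, hχ0 x, hP0, hx]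
  · have k := dualOf_hasPD (μ := μ) (D := D) hK hKΩ
      ((hasPD_bcf hK (hχ.pd b i) i).mul (hasPD_lift_ne b hi (A * U)))
      (fun x hx => by simp [e1, (hχ.pd b i).eq_zero hx])
      (fun x hx => by simp [e2, ((hχ.pd b i).pd b i).eq_zero hx])
    refine fin k ?_ ?_
    · ext x
      simp [e1, lift_apply, kron, hi, mul_left_comm]
    · ext x
      simp [e2, lift_apply, kron, hi]

end Lift

theorem exists_sobolev (hn : 1 ≤ n) (μ : Measure E) [μ.IsAddHaarMeasure]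
    (b : OrthonormalBasis (Fin n) ℝ E) (Ω D : Set E) (hΩ : IsOpen Ω) (hne : Ω.Nonempty)
    (hD : D ⊆ frontier Ω) {T : ℝ} (hT : 0 < T) {δ : ℝ} (hδ : 0 < δ) (hδ1 : δ ≤ 1) :
    ∃ a : ℝ → E →ᵇ ℝ, Continuous a ∧ (∀ t, ‖a t - 1‖ ≤ δ) ∧
      (∀ q, 1 < q → FiniteSeminorm T q a) ∧
      ∃ (f : ℝ → L2 μ Ω) (u : ℝ → formDomain μ b Ω D), MemL2 T f ∧
        IsLionsSolution (toH μ b Ω D) T (fun t => scalOp μ b Ω D (a t)) f u ∧
        ¬MemH1 T fun t => toH μ b Ω D (u t) := by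
  obtain ⟨i₀⟩ : Nonempty (Fin n) := ⟨⟨0, hn⟩⟩
  obtain ⟨K, hK, χ, I, K₀, κ, g, ϖ, hKΩ, hKD, hχ, hχ0, hint, hI, hK₀, hKI, hκ, hκ1, hκa, hg, hpos,
    hρ, hlow⟩ := exists_geometry μ b i₀ hΩ hne hD
  obtain ⟨x, C, c, hc, hx, hb, hA, hlim, hsem, hblow⟩ :=
    exists_oneD hint hI hK₀ hKI hκ hκ1 hκa hg hpos hρ hδ hδ1
  have cU : Continuous fun τ => (x τ).U :=
    continuous_iff_continuousAt.2 fun τ => (hx τ).tU.continuousAt
  have cP : Continuous fun τ => (x τ).P := continuous_iff_continuousAt.2 fun τ => (hx τ).cP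
  have cF : Continuous fun τ => (x τ).F := continuous_iff_continuousAt.2 fun τ => (hx τ).cF
  have cA : Continuous fun τ => (x τ).A := continuous_iff_continuousAt.2 fun τ => (hx τ).cA
  obtain ⟨a, ha, ha1, ha2⟩ := exists_extend ((lift b i₀).continuous.comp cA)
    (((lift b i₀).continuous.tendsto 1).comp hlim) T
  have hA' : ∀ τ, ‖lift b i₀ (x τ).A - 1‖ ≤ δ := fun τ => by
    rw [show (1 : E →ᵇ ℝ) = lift b i₀ 1 from rfl, ← map_sub]
    exact (norm_lift_le b i₀ _).trans (hA τ)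
  refine ⟨a, ha, fun t => ?_, fun q hq => FiniteSeminorm.of_le (hsem q hq T) (by linarith)
    zero_le_one fun t ht s hs => ?_, ?_⟩
  · rcases lt_or_ge t T with ht | ht
    · rw [ha1 t ht]
      exact hA' _
    · rw [ha2 t ht, show lift b i₀ 1 = (1 : E →ᵇ ℝ) from rfl, sub_self, norm_zero]
      exact hδ.le
  · rw [ha1 t ht.2, ha1 s hs.2, one_mul]
    exact (congrArg norm (map_sub (lift b i₀) _ _)).ge.trans (norm_lift_le b i₀ _)
  choose u hu0 hu1 using fun τ =>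
    exists_jet (μ := μ) (b := b) (i₀ := i₀) (Ω := Ω) hK hKD hχ (hx τ).test (hx τ).dU
  obtain ⟨C₁, hC₁, hS⟩ := exists_scalOp_le μ b Ω D
  obtain ⟨J, hJ⟩ : ∃ J : (ℝ →ᵇ ℝ) × (ℝ →ᵇ ℝ) →L[ℝ] Jet n μ Ω,
      ∀ τ, (u τ : Jet n μ Ω) = J ((x τ).U, (x τ).P) := by
    refine ⟨((PiLp.continuousLinearEquiv 2 ℝ (fun _ : Option (Fin n) => L2 μ Ω)).symm :
      (Option (Fin n) → L2 μ Ω) →L[ℝ] Jet n μ Ω).comp (ContinuousLinearMap.pi fun o =>
        o.elim ((cutL μ b i₀ Ω hK (bcf χ)).coprod 0) fun i =>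
          (cutL μ b i₀ Ω hK (bcf (pd b i χ))).coprod (cutL μ b i₀ Ω hK (kron i₀ i • bcf χ))),
      fun τ => ?_⟩
    ext1 o
    cases o with
    | none => exact (hu0 τ).trans (add_zero _).symm
    | some i => exact hu1 τ i
  obtain ⟨N, hN⟩ : ∃ N : (ℝ →ᵇ ℝ) →L[ℝ] L2 μ Ω,
      N = ∑ i, cutL μ b i₀ Ω hK ((1 - kron i₀ i) • bcf (pd b i (pd b i χ))) := ⟨_, rfl⟩
  obtain ⟨Λ, hΛ⟩ : ∃ Λ : (ℝ →ᵇ ℝ) →L[ℝ] L2 μ Ω, Λ = cutL μ b i₀ Ω hK (bcf χ) := ⟨_, rfl⟩
  have hC : 0 ≤ C := by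
    have := (norm_nonneg _).trans (hb 0).1
    simp only [zero_div, Real.exp_zero] at this
    linarith
  have hle : ∀ {z k : ℝ} (τ : ℝ), 0 ≤ k → k ≤ ‖J‖ + ‖Λ‖ + 2 * ‖N‖ →
      z ≤ k * (C + C * Real.exp (τ / 4)) →
      z ≤ (‖scalOp μ b Ω D 1‖ + C₁ + (‖J‖ + ‖Λ‖ + 2 * ‖N‖) * C) +
        (‖scalOp μ b Ω D 1‖ + C₁ + (‖J‖ + ‖Λ‖ + 2 * ‖N‖) * C) * Real.exp (τ / 4) := by
    intro z k τ k0 k1 k2
    have k3 : k * C ≤ ‖scalOp μ b Ω D 1‖ + C₁ + (‖J‖ + ‖Λ‖ + 2 * ‖N‖) * C :=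
      le_add_of_nonneg_of_le (by positivity) (mul_le_mul_of_nonneg_right k1 hC)
    calc z ≤ k * C + k * C * Real.exp (τ / 4) := k2.trans_eq (by ring)
      _ ≤ _ := by gcongr
  have n1 := norm_nonneg J
  have n2 := norm_nonneg Λ
  have n3 := norm_nonneg N
  have hval : ∀ τ, toH μ b Ω D (u τ) = Λ (x τ).U := fun τ => hΛ ▸ hu0 τ
  refine exists_not_memH1 (toH μ b Ω D) (dualOf μ b Ω D none) (toAntidual_eq μ b Ω D) hT _
    (fun τ => scalOp μ b Ω D (lift b i₀ (x τ).A)) (fun t ht => by rw [ha1 t ht]; rfl) u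
    (fun τ => Λ (x τ).F - N ((x τ).A * (x τ).U)) (fun τ => Λ (x τ).W)
    (continuous_induced_rng.2 ?_) (by fun_prop) ?_ hc (fun τ => ?_) (fun τ => hle τ n1 ?_ ?_)
    (fun τ => hle τ (k := ‖Λ‖ + 2 * ‖N‖) (by positivity) ?_ ?_) (fun τ => ?_) (fun τ => ?_)
    fun τ₀ => ?_
  · rw [show Subtype.val ∘ u = fun τ => J ((x τ).U, (x τ).P) from funext hJ]
    fun_prop
  · refine Continuous.comp (g := scalOp μ b Ω D) ?_ ((lift b i₀).continuous.comp cA)
    exact (LipschitzWith.of_dist_le' (K := C₁) fun m m' => by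
      simpa only [dist_eq_norm] using hS m m').continuous
  · have k1 := hS (lift b i₀ (x τ).A) 1
    have k2 := norm_le_norm_add_norm_sub' (scalOp μ b Ω D (lift b i₀ (x τ).A)) (scalOp μ b Ω D 1)
    have k3 := mul_le_mul_of_nonneg_left ((hA' τ).trans hδ1) hC₁
    have k4 : 0 ≤ (‖J‖ + ‖Λ‖ + 2 * ‖N‖) * C := by positivity
    linarith
  · linarith
  · change ‖(u τ : Jet n μ Ω)‖ ≤ _
    rw [hJ]
    exact (J.le_opNorm _).trans
      (mul_le_mul_of_nonneg_left (norm_prod_le_iff.2 ⟨(hb τ).1, (hb τ).2.1⟩) n1)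
  · linarith
  · have k1 : ‖(x τ).A‖ ≤ 2 := by
      have k2 := norm_le_norm_add_norm_sub' (x τ).A 1
      have k3 : ‖(1 : ℝ →ᵇ ℝ)‖ = 1 := norm_one
      linarith [hA τ]
    have k2 : ‖(x τ).A * (x τ).U‖ ≤ 2 * (C + C * Real.exp (τ / 4)) :=
      (norm_mul_le _ _).trans (mul_le_mul k1 (hb τ).1 (norm_nonneg _) two_pos.le)
    have k3 := (N.le_opNorm _).trans (mul_le_mul_of_nonneg_left k2 n3)
    have k4 := (Λ.le_opNorm _).trans (mul_le_mul_of_nonneg_left (hb τ).2.2 n2)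
    exact (norm_sub_le _ _).trans ((add_le_add k4 k3).trans_eq (by ring))
  · simp only [hval]
    exact Λ.hasFDerivAt.comp_hasDerivAt τ (hx τ).tU
  · have k := fun i => flux_eq (μ := μ) (D := D) hK hKΩ hχ hχ0
      (G := Real.exp τ • (x τ).W - (x τ).F) (hx τ).test (hx τ).dU (hx τ).dG i
    have k1 : ∑ i, kron i₀ i = 1 := by simp [kron]
    simp only [scalOp_apply, hu1, k]
    rw [Finset.sum_neg_distrib, ← map_sum, Finset.sum_add_distrib, ← Finset.sum_smul, k1, one_smul,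
      ← sum_apply, ← hN, ← hΛ]
    simp only [map_add, map_sub, map_smul, ContinuousLinearMap.map_smul_of_tower]
    abel
  · obtain ⟨τ, k1, k2⟩ := hblow τ₀
    refine ⟨τ, k1, k2.trans ?_⟩
    rw [hval, hval, ← map_sub, hΛ]
    exact hlow ((x (τ + 1 / 2)).U - (x τ).U)

variable {V : Type} [NormedAddCommGroup V] [InnerProductSpace ℂ V]

theorem top (μ : Measure E) [μ.IsAddHaarMeasure] (hn : 1 ≤ n) (b : OrthonormalBasis (Fin n) ℝ E)
    (Ω D : Set E) (hΩ : IsOpen Ω) (hne : Ω.Nonempty) (hD : D ⊆ frontier Ω) (T : ℝ) (hT : 0 < T)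
    (val : V →L[ℂ] Lp ℂ 2 (μ.restrict Ω)) (grad : Fin n → V →L[ℂ] Lp ℂ 2 (μ.restrict Ω))
    (hV : IsFormDomain μ b Ω D val grad) (δ : ℝ) (hδ : 0 < δ) :
    ∃ (a : ℝ → E →ᵇ ℝ) (𝔄 : ℝ → V →L[ℂ] V →L⋆[ℂ] ℂ), (∀ t x, |a t x - 1| ≤ δ) ∧
      IsDivForm μ Ω grad T (fun t x => (a t x : ℂ) • (1 : Matrix (Fin n) (Fin n) ℂ)) 𝔄 ∧
      Continuous a ∧ Continuous 𝔄 ∧
      (∀ q, 1 < q → FiniteSeminorm T q a ∧ FiniteSeminorm T q 𝔄) ∧ ¬HasMaxReg val T 𝔄 := by
  obtain ⟨a, ha, ha1, hsem, f, u, hf, hu, hH⟩ := exists_sobolev hn μ b Ω D hΩ hne hD hT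
    (δ := min δ (1 / 2)) (lt_min hδ (by norm_num)) ((min_le_right _ _).trans (by norm_num))
  obtain ⟨e, he0, he1⟩ := exists_equiv hV
  obtain ⟨𝔄, h1, h2, h3⟩ := exists_transfer e val (toH μ b Ω D) he0 T
    fun t => scalOp μ b Ω D (a t)
  obtain ⟨C, hC, hS⟩ := exists_scalOp_le μ b Ω D
  have ha2 : ∀ t x, |a t x - 1| ≤ min δ (1 / 2) := fun t x =>
    ((a t - 1).norm_coe_le_norm x).trans (ha1 t)
  have h4 : ∀ t s, ‖𝔄 t - 𝔄 s‖ ≤ C * ‖a t - a s‖ := fun t s => (h2 t s).trans (hS _ _)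
  refine ⟨a, 𝔄, fun t x => (ha2 t x).trans (min_le_left _ _),
    ⟨fun i j => ?_, ⟨1 / 2, 2, by norm_num, by norm_num, Eventually.of_forall fun p =>
      isElliptic_smul_one ((ha2 _ _).trans (min_le_right _ _))⟩, fun t _ v w => ?_⟩, ha, ?_,
    fun q hq => ⟨hsem q hq, FiniteSeminorm.of_le (hsem q hq) (by linarith) hC
      fun t _ s _ => h4 t s⟩, fun h => ?_⟩
  · have : Continuous fun p : ℝ × E => a p.1 p.2 := by fun_prop
    exact ((Complex.continuous_ofReal.comp this).smul continuous_const).measurable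
  · rw [h1, scalOp_eq_form, form]
    simp only [he1]
  · refine continuous_iff_continuousAt.2 fun s => tendsto_iff_norm_sub_tendsto_zero.2 ?_
    refine squeeze_zero (fun _ => norm_nonneg _) (fun t => h4 t s) ?_
    exact Continuous.tendsto' (by fun_prop) s 0 (by simp)
  · have h5 := h f hf _ (h3 f u hu)
    simp only [← he0, e.apply_symm_apply] at h5
    exact hH h5

end Pool.Agent.MP_954c34_an.Sob
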