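import Pool.Agent.Mg.F954c34.G20417d
import Pool.Agent.MP_954c34_an.Sharp.Defs

set_option linter.all false

section

open MeasureTheory Set Filter Topology Complex
open scoped ContDiff InnerProductSpace ComplexConjugate

noncomputable section

namespace Pool.Agent.MP_954c34_an.Sharp

section Normed

variable {X : Type} [NormedAddCommGroup X] [NormedSpace ℂ X]

lemma smul_setIntegral_cis [CompleteSpace X] {T : ℝ} {u γ : ℝ → X}
    (h : HasWeakDeriv T u γ) (hu : IntegrableOn u (Ioo 0 T)) (hγ : IntegrableOn γ (Ioo 0 T))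
    {ρ : ℝ → ℝ} (hρ : ContDiff ℝ ∞ ρ) (hρc : HasCompactSupport ρ) (hρs : tsupport ρ ⊆ Ioo 0 T)
    (l : ℝ) : (l : ℂ) • ∫ t in Ioo 0 T, cis (l * t) • ρ t • u t =
      I • ((∫ t in Ioo 0 T, cis (l * t) • deriv ρ t • u t) +
        ∫ t in Ioo 0 T, cis (l * t) • ρ t • γ t) := by
  have hρd : ∀ t, HasDerivAt ρ (deriv ρ t) t := fun t =>
    (hρ.differentiable (by simp) t).hasDerivAt
  have hρ' : Continuous (deriv ρ) := hρ.continuous_deriv (by simp)
  have hρ0 : Continuous ρ := hρ.continuous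
  have hl : ∀ t, HasDerivAt (fun t : ℝ => l * t) l t := fun t => by
    simpa using (hasDerivAt_id t).const_mul l
  have hc := h (fun t => ρ t * Real.cos (l * t)) (hρ.mul (by fun_prop)) hρc.mul_right
    ((tsupport_mul_subset_left).trans hρs)
  have hs := h (fun t => ρ t * Real.sin (l * t)) (hρ.mul (by fun_prop)) hρc.mul_right
    ((tsupport_mul_subset_left).trans hρs)
  have dc : ∀ t, deriv (fun t => ρ t * Real.cos (l * t)) t =
      deriv ρ t * Real.cos (l * t) + ρ t * (-Real.sin (l * t) * l) := fun t =>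
    ((hρd t).mul (hl t).cos).deriv
  have ds : ∀ t, deriv (fun t => ρ t * Real.sin (l * t)) t =
      deriv ρ t * Real.sin (l * t) + ρ t * (Real.cos (l * t) * l) := fun t =>
    ((hρd t).mul (hl t).sin).deriv
  simp only [dc, ds] at hc hs
  have i1 : IntegrableOn (fun t => (deriv ρ t * Real.cos (l * t) +
      ρ t * (-Real.sin (l * t) * l)) • u t) (Ioo 0 T) :=
    integrableOn_smul_of_continuous (by fun_prop) hu
  have i2 : IntegrableOn (fun t => I • (deriv ρ t * Real.sin (l * t) +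
      ρ t * (Real.cos (l * t) * l)) • u t) (Ioo 0 T) :=
    (integrableOn_smul_of_continuous (φ := fun t => deriv ρ t * Real.sin (l * t) +
      ρ t * (Real.cos (l * t) * l)) (by fun_prop) hu).smul I
  have i3 : IntegrableOn (fun t => (ρ t * Real.cos (l * t)) • γ t) (Ioo 0 T) :=
    integrableOn_smul_of_continuous (by fun_prop) hγ
  have i4 : IntegrableOn (fun t => I • (ρ t * Real.sin (l * t)) • γ t) (Ioo 0 T) :=
    (integrableOn_smul_of_continuous (φ := fun t => ρ t * Real.sin (l * t))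
      (by fun_prop) hγ).smul I
  have hcis : Continuous fun t : ℝ => cis (l * t) := continuous_cis.comp (by fun_prop)
  have i5 : IntegrableOn (fun t => cis (l * t) • deriv ρ t • u t) (Ioo 0 T) :=
    integrableOn_smul_of_continuous hcis (integrableOn_smul_of_continuous hρ' hu)
  have i6 : IntegrableOn (fun t => (I * l) • cis (l * t) • ρ t • u t) (Ioo 0 T) :=
    (integrableOn_smul_of_continuous hcis (integrableOn_smul_of_continuous hρ0 hu)).smul (I * l)
  have e1 : (∫ t in Ioo 0 T, cis (l * t) • deriv ρ t • u t) +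
      (I * l) • ∫ t in Ioo 0 T, cis (l * t) • ρ t • u t =
      (∫ t in Ioo 0 T, (deriv ρ t * Real.cos (l * t) + ρ t * (-Real.sin (l * t) * l)) • u t) +
      I • ∫ t in Ioo 0 T, (deriv ρ t * Real.sin (l * t) + ρ t * (Real.cos (l * t) * l)) • u t := by
    rw [← integral_smul, ← integral_smul, ← integral_add i5 i6, ← integral_add i1 i2]
    refine integral_congr_ae (Eventually.of_forall fun t => ?_)
    simp only [← Complex.coe_smul, smul_smul, ← add_smul, cis_eq]
    congr 1
    push_cast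
    linear_combination (l * ρ t * Complex.sin (l * t)) * I_mul_I
  have e2 : (∫ t in Ioo 0 T, cis (l * t) • ρ t • γ t) =
      (∫ t in Ioo 0 T, (ρ t * Real.cos (l * t)) • γ t) +
      I • ∫ t in Ioo 0 T, (ρ t * Real.sin (l * t)) • γ t := by
    rw [← integral_smul, ← integral_add i3 i4]
    refine integral_congr_ae (Eventually.of_forall fun t => ?_)
    simp only [← Complex.coe_smul, smul_smul, ← add_smul, cis_eq]
    congr 1
    push_cast
    ring
  rw [hc, hs, smul_neg, ← neg_add, ← e2] at e1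
  have e3 : (∫ t in Ioo 0 T, cis (l * t) • deriv ρ t • u t) +
      (∫ t in Ioo 0 T, cis (l * t) • ρ t • γ t) =
      -((I * l) • ∫ t in Ioo 0 T, cis (l * t) • ρ t • u t) := by
    rw [eq_neg_iff_add_eq_zero, add_right_comm, e1]
    simp
  rw [e3, smul_neg, smul_smul, ← neg_smul]
  congr 1
  linear_combination (l : ℂ) * I_mul_I

lemma exists_decay {T : ℝ} (hT : 0 < T) {σ : ℝ → ℝ} (hσ : ContDiff ℝ ∞ σ)
    (hσc : HasCompactSupport σ) (hσs : tsupport σ ⊆ Ioo 0 T) :
    ∃ C : ℝ, 0 ≤ C ∧ ∀ l : ℝ, l ^ 2 * ‖∫ t in Ioo 0 T, cis (l * t) • σ t • (1 : ℂ)‖ ≤ C := by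
  have h1 : HasWeakDeriv T (fun _ : ℝ => (1 : ℂ)) (fun _ => 0) :=
    hasWeakDeriv_of_hasDerivAt hT (fun t => hasDerivAt_const t 1) continuous_const
  have i1 : IntegrableOn (fun _ : ℝ => (1 : ℂ)) (Ioo 0 T) :=
    (memL2_of_continuous continuous_const).integrableOn
  have i0 : IntegrableOn (fun _ : ℝ => (0 : ℂ)) (Ioo 0 T) :=
    (memL2_of_continuous continuous_const).integrableOn
  have hσ' : ContDiff ℝ ∞ (deriv σ) := (contDiff_infty_iff_deriv.1 hσ).2
  refine ⟨∫ t in Ioo 0 T, |deriv (deriv σ) t|, integral_nonneg fun t => abs_nonneg _,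
    fun l => ?_⟩
  have e1 := congrArg norm (smul_setIntegral_cis h1 i1 i0 hσ hσc hσs l)
  have e2 := congrArg norm (smul_setIntegral_cis h1 i1 i0 hσ' hσc.deriv
    ((tsupport_deriv_subset).trans hσs) l)
  simp only [smul_zero, integral_zero, add_zero, norm_smul, norm_I, one_mul, norm_real,
    Real.norm_eq_abs] at e1 e2
  rw [← sq_abs, sq, mul_assoc, e1, e2]
  refine (norm_integral_le_integral_norm _).trans (le_of_eq ?_)
  simp only [norm_smul, norm_cis, one_mul, norm_one, mul_one, Real.norm_eq_abs]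

end Normed

variable {X : Type} [NormedAddCommGroup X] [InnerProductSpace ℂ X]

lemma summable_of_orthogonal {e : ℕ → X} {y : X} {r : ℕ → ℝ} {L : ℝ} (hr : ∀ j, 0 ≤ r j)
    (hL : 0 ≤ L) (h1 : ∀ j, ⟪e j, y⟫_ℂ = r j)
    (h2 : ∀ j k, ⟪e j, e k⟫_ℂ = if j = k then ((L * r j : ℝ) : ℂ) else 0) : Summable r := by
  refine summable_of_sum_range_le (c := L * ‖y‖ ^ 2) hr fun N => ?_
  set A := ∑ j ∈ Finset.range N, r j with hA
  set Φ := ∑ j ∈ Finset.range N, e j with hΦ
  have hA0 : 0 ≤ A := Finset.sum_nonneg fun j _ => hr j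
  have e1 : (⟪Φ, y⟫_ℂ).re = A := by
    rw [hΦ, sum_inner, re_sum]
    simp only [h1, ofReal_re, hA]
  have e2 : ‖Φ‖ ^ 2 = L * A := by
    have : ‖Φ‖ ^ 2 = (⟪Φ, Φ⟫_ℂ).re := (inner_self_eq_norm_sq (𝕜 := ℂ) _).symm
    rw [this, hΦ, sum_inner, re_sum, hA, Finset.mul_sum]
    refine Finset.sum_congr rfl fun j hj => ?_
    rw [inner_sum]
    simp only [h2, Finset.sum_ite_eq, hj, if_true, ofReal_re]
  have e3 : A ≤ ‖Φ‖ * ‖y‖ := e1 ▸ re_inner_le_norm (𝕜 := ℂ) Φ y
  have e4 : A ^ 2 ≤ L * A * ‖y‖ ^ 2 := by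
    rw [← e2, ← mul_pow]
    exact pow_le_pow_left₀ hA0 e3 2
  rcases hA0.eq_or_lt with h0 | h0
  · rw [← h0]
    positivity
  · nlinarith

lemma conj_cis (x : ℝ) : conj (cis x) = cis (-x) := by
  simp [cis, ← exp_conj]

lemma integral_cis_pow (M : ℕ) (j k : ℕ) :
    ∫ t in Ioo 0 (2 * Real.pi * M), conj (cis (4 ^ j * t)) * cis (4 ^ k * t) =
      if j = k then ((2 * Real.pi * M : ℝ) : ℂ) else 0 := by
  have hL : 0 ≤ 2 * Real.pi * M := by positivity
  simp only [conj_cis, ← cis_add]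
  split_ifs with h
  · subst h
    simp only [neg_add_cancel, cis, ofReal_zero, zero_mul, exp_zero]
    rw [setIntegral_const, Real.volume_real_Ioo_of_le hL, sub_zero, real_smul, mul_one]
  · have hc : ((4 : ℂ) ^ k - 4 ^ j) * I ≠ 0 := by
      refine mul_ne_zero (sub_ne_zero.2 fun h' => h ?_) I_ne_zero
      have : (4 : ℕ) ^ k = 4 ^ j := by exact_mod_cast h'
      exact (Nat.pow_right_injective (by norm_num) this).symm
    have e : ∀ t : ℝ, cis (-(4 ^ j * t) + 4 ^ k * t) = cexp ((((4 : ℂ) ^ k - 4 ^ j) * I) * t) := by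
      intro t
      unfold cis
      congr 1
      push_cast
      ring
    simp only [e]
    rw [← integral_Ioc_eq_integral_Ioo, ← intervalIntegral.integral_of_le hL,
      integral_exp_mul_complex hc]
    have := exp_int_mul_two_pi_mul_I ((4 ^ k - 4 ^ j) * M)
    have e2 : (((4 : ℂ) ^ k - 4 ^ j) * I) * ((2 * Real.pi * M : ℝ) : ℂ) =
        (((4 ^ k - 4 ^ j) * M : ℤ) : ℂ) * (2 * Real.pi * I) := by
      push_cast
      ring
    rw [e2, this]
    simp

/-- Bessel's inequality for the lacunary frequencies. -/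
lemma summable_coeff [CompleteSpace X] {T : ℝ} {h : ℝ → X} (hh : MemL2 T h) :
    Summable fun j : ℕ => ‖∫ t in Ioo 0 T, cis (-4 ^ j * t) • h t‖ ^ 2 := by
  obtain ⟨M, hM⟩ := exists_nat_ge (T / (2 * Real.pi))
  have hTL : T ≤ 2 * Real.pi * M := by
    rw [div_le_iff₀ (by positivity)] at hM
    linarith
  set L := 2 * Real.pi * M with hL
  set c : ℕ → X := fun j => ∫ t in Ioo 0 T, cis (-4 ^ j * t) • h t with hc
  have hy : MemLp ((Ioo 0 T).indicator h) 2 (volume.restrict (Ioo 0 L)) :=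
    ((memLp_indicator_iff_restrict measurableSet_Ioo).2 hh).restrict _
  have hcis : ∀ l : ℝ, Continuous fun t : ℝ => cis (l * t) := fun l =>
    continuous_cis.comp (by fun_prop)
  have he : ∀ j : ℕ, MemLp (fun t : ℝ => cis (4 ^ j * t) • c j) 2 (volume.restrict (Ioo 0 L)) :=
    fun j => memL2_of_continuous ((hcis _).smul continuous_const)
  refine summable_of_orthogonal (e := fun j => (he j).toLp) (y := hy.toLp) (L := L)
    (fun j => sq_nonneg _) (by positivity) (fun j => ?_) (fun j k => ?_)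
  · have e1 : ⟪(he j).toLp, hy.toLp⟫_ℂ = ∫ t in Ioo 0 L,
        (Ioo 0 T).indicator (fun t => ⟪c j, cis (-4 ^ j * t) • h t⟫_ℂ) t := by
      rw [L2.inner_def]
      refine integral_congr_ae ?_
      filter_upwards [(he j).coeFn_toLp, hy.coeFn_toLp] with t h1 h2
      rw [h1, h2]
      by_cases ht : t ∈ Ioo 0 T
      · rw [indicator_of_mem ht, indicator_of_mem ht, inner_smul_left, inner_smul_right, conj_cis,
          neg_mul]
      · simp [indicator_of_notMem ht]
    rw [e1, integral_indicator measurableSet_Ioo, Measure.restrict_restrict measurableSet_Ioo,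
      inter_eq_left.2 (Ioo_subset_Ioo_right hTL),
      integral_inner (integrableOn_smul_of_continuous (hcis _) hh.integrableOn),
      inner_self_eq_norm_sq_to_K]
    simp [hc]
  · have e1 : ⟪(he j).toLp, (he k).toLp⟫_ℂ = ∫ t in Ioo 0 L,
        (conj (cis (4 ^ j * t)) * cis (4 ^ k * t)) * ⟪c j, c k⟫_ℂ := by
      rw [L2.inner_def]
      refine integral_congr_ae ?_
      filter_upwards [(he j).coeFn_toLp, (he k).coeFn_toLp] with t h1 h2
      rw [h1, h2, inner_smul_left, inner_smul_right, mul_assoc]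
    rw [e1, integral_mul_const, hL, integral_cis_pow]
    split_ifs with hjk
    · subst hjk
      rw [inner_self_eq_norm_sq_to_K]
      simp [hc]
    · rw [zero_mul]

/-- If `t • (g + wave a b t)` has a square integrable weak derivative then the coefficients of the
formal derivative of the wave are square summable. -/
lemma summable_of_hasWeakDeriv [CompleteSpace X] {T : ℝ} (hT : 0 < T) (g : X) {a b : ℕ → X}
    (ha : Summable fun k => ‖a k‖) (hb : Summable fun k => ‖b k‖) {γ : ℝ → X}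
    (hγ : MemL2 T γ) (h : HasWeakDeriv T (fun t => t • (g + wave a b t)) γ) :
    Summable fun j : ℕ => ((4 : ℝ) ^ j * ‖b j - I • a j‖) ^ 2 := by
  set ρ : ℝ → ℝ := ⇑(midBump hT) with hρdef
  have hρ : ContDiff ℝ ∞ ρ := (midBump hT).contDiff
  have hρ0 : Continuous ρ := hρ.continuous
  have hρc : HasCompactSupport ρ := (midBump hT).hasCompactSupport
  have hρs : tsupport ρ ⊆ Ioo 0 T := by
    rw [hρdef, ContDiffBump.tsupport_eq]
    exact closedBall_midBump hT
  have hcont : Continuous fun t : ℝ => t • (g + wave a b t) :=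
    continuous_id.smul (continuous_const.add (continuous_wave ha hb))
  have hS := smul_setIntegral_cis h (memL2_of_continuous hcont).integrableOn hγ.integrableOn
    hρ hρc hρs
  have hρ1 : Continuous (deriv ρ) := hρ.continuous_deriv (by simp)
  have hs1 := summable_coeff (T := T) (memL2_of_continuous (hρ1.smul hcont))
  have hs2 : Summable fun j : ℕ => ‖∫ t in Ioo 0 T, cis (-4 ^ j * t) • ρ t • γ t‖ ^ 2 := by
    refine summable_coeff (h := fun t => ρ t • γ t) ?_
    refine MemLp.of_le hγ (hρ0.aestronglyMeasurable.smul hγ.1) (Eventually.of_forall fun t => ?_)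
    rw [norm_smul, Real.norm_of_nonneg (midBump hT).nonneg]
    exact mul_le_of_le_one_left (norm_nonneg _) (midBump hT).le_one
  set F : ℝ → ℂ := fun l => ∫ t in Ioo 0 T, cis (l * t) • ρ t • (t : ℂ) with hF
  obtain ⟨C, hC0, hC⟩ : ∃ C : ℝ, 0 ≤ C ∧ ∀ l : ℝ, l ^ 2 * ‖F l‖ ≤ C := by
    obtain ⟨C, hC0, hC⟩ := exists_decay hT (σ := fun t => ρ t * t) (hρ.mul contDiff_id)
      hρc.mul_right (tsupport_mul_subset_left.trans hρs)
    refine ⟨C, hC0, fun l => ?_⟩
    have e : F l = ∫ t in Ioo 0 T, cis (l * t) • (ρ t * t) • (1 : ℂ) := by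
      simp only [hF, real_smul, smul_eq_mul, mul_one, ofReal_mul]
    rw [e]
    exact hC l
  have hF0 : F 0 ≠ 0 := by
    have e : F 0 = ((∫ t in Ioo 0 T, ρ t * t : ℝ) : ℂ) := by
      rw [← integral_complex_ofReal]
      simp [hF, cis]
    rw [e, ofReal_ne_zero]
    apply ne_of_gt
    rw [setIntegral_pos_iff_support_of_nonneg_ae]
    · refine lt_of_lt_of_le ?_ (measure_mono (s := Metric.ball (T / 2) (midBump hT).rOut) ?_)
      · exact Metric.measure_ball_pos _ _ (midBump hT).rOut_pos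
      · intro t ht
        have ht' := closedBall_midBump hT (Metric.ball_subset_closedBall ht)
        exact ⟨(mul_pos ((midBump hT).pos_of_mem_ball ht) ht'.1).ne', ht'⟩
    · filter_upwards [ae_restrict_mem measurableSet_Ioo] with t ht
      exact mul_nonneg ((midBump hT).nonneg) ht.1.le
    · exact (memL2_of_continuous (hρ0.mul continuous_id)).integrableOn
  set p : ℕ → X := fun k => (1 / 2 : ℂ) • (b k - I • a k) with hp
  set q : ℕ → X := fun k => (1 / 2 : ℂ) • (b k + I • a k) with hq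
  have hpn : ∀ k, ‖p k‖ ≤ ‖a k‖ + ‖b k‖ := fun k => by
    have := norm_sub_le (b k) (I • a k)
    simp only [hp, norm_smul, norm_I, one_mul, norm_div, norm_one, Complex.norm_ofNat] at this ⊢
    linarith [norm_nonneg (a k), norm_nonneg (b k)]
  have hqn : ∀ k, ‖q k‖ ≤ ‖a k‖ + ‖b k‖ := fun k => by
    have := norm_add_le (b k) (I • a k)
    simp only [hq, norm_smul, norm_I, one_mul, norm_div, norm_one, Complex.norm_ofNat] at this ⊢
    linarith [norm_nonneg (a k), norm_nonneg (b k)]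
  have hker : ∀ l : ℝ, Continuous fun t : ℝ => cis (l * t) • ρ t • (t : ℂ) := fun l =>
    (continuous_cis.comp (by fun_prop)).smul (hρ0.smul continuous_ofReal)
  have hkeri : ∀ l : ℝ, IntegrableOn (fun t : ℝ => cis (l * t) • ρ t • (t : ℂ)) (Ioo 0 T) :=
    fun l => (memL2_of_continuous (hker l)).integrableOn
  -- expansion of the Fourier coefficient
  have hexp : ∀ l : ℝ, HasSum (fun k : ℕ => F (l + 4 ^ k) • p k + F (l - 4 ^ k) • q k)
      ((∫ t in Ioo 0 T, cis (l * t) • ρ t • t • (g + wave a b t)) - F l • g) := by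
    intro l
    have hint : ∀ k, Integrable (fun t : ℝ => (cis (l * t) • ρ t • (t : ℂ)) • waveTerm a b k t)
        (volume.restrict (Ioo 0 T)) := fun k =>
      (memL2_of_continuous ((hker l).smul (continuous_waveTerm a b k))).integrableOn
    have hsum : Summable fun k => ∫ t in Ioo 0 T,
        ‖(cis (l * t) • ρ t • (t : ℂ)) • waveTerm a b k t‖ := by
      refine Summable.of_nonneg_of_le (fun k => integral_nonneg fun t => norm_nonneg _)
        (fun k => ?_) ((ha.add hb).mul_left (∫ t in Ioo 0 T, ‖cis (l * t) • ρ t • (t : ℂ)‖))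
      rw [← integral_mul_const]
      refine integral_mono (hint k).norm ((hkeri l).norm.mul_const _) fun t => ?_
      simp only [norm_smul _ (waveTerm a b k t)]
      exact mul_le_mul_of_nonneg_left (norm_waveTerm_le a b k t) (norm_nonneg _)
    have h1 := hasSum_integral_of_summable_integral_norm hint hsum
    convert h1 using 1
    · funext k
      simp only [hF]
      rw [← integral_smul_const, ← integral_smul_const,
        ← integral_add ((hkeri _).smul_const _) ((hkeri _).smul_const _)]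
      refine integral_congr_ae (Eventually.of_forall fun t => ?_)
      simp only [waveTerm_eq_cis, smul_add, smul_smul, hp, hq, add_mul, cis_add,
        sub_eq_add_neg, neg_mul, smul_eq_mul, real_smul]
      module
    · simp only [hF]
      rw [← integral_smul_const, ← integral_sub _ ((hkeri _).smul_const _)]
      · refine integral_congr_ae (Eventually.of_forall fun t => ?_)
        simp only
        rw [(hasSum_wave ha hb t).summable.tsum_const_smul, (hasSum_wave ha hb t).tsum_eq]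
        simp only [← Complex.coe_smul, smul_smul, smul_eq_mul, smul_add]
        module
      · exact (memL2_of_continuous ((continuous_cis.comp (by fun_prop)).smul
          (hρ0.smul hcont))).integrableOn
  set err : ℕ → ℕ → X := fun j k =>
    (if k = j then 0 else ((-(4 : ℝ) ^ j : ℝ) : ℂ) • F (-4 ^ j + 4 ^ k)) • p k +
      (((-(4 : ℝ) ^ j : ℝ) : ℂ) • F (-4 ^ j - 4 ^ k)) • q k with herr
  have herrsum : ∀ j : ℕ, HasSum (err j)
      (((-(4 : ℝ) ^ j : ℝ) : ℂ) • (∫ t in Ioo 0 T,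
        cis (-4 ^ j * t) • ρ t • t • (g + wave a b t)) -
        (((-(4 : ℝ) ^ j : ℝ) : ℂ) • F (-4 ^ j)) • g - (((-(4 : ℝ) ^ j : ℝ) : ℂ) • F 0) • p j) := by
    intro j
    have h1 := ((hexp (-4 ^ j)).const_smul (((-(4 : ℝ) ^ j : ℝ) : ℂ))).sub
      (hasSum_ite_eq j ((((-(4 : ℝ) ^ j : ℝ) : ℂ) • F 0) • p j))
    convert h1 using 1
    · funext k
      simp only [herr]
      split_ifs with hk
      · subst hk
        simp only [neg_add_cancel, smul_add, smul_smul, smul_eq_mul]
        module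
      · simp only [smul_add, smul_smul, smul_eq_mul]
        module
    · simp only [smul_sub, smul_smul, smul_eq_mul]
  set S := ∑' k, (‖a k‖ + ‖b k‖) with hSdef
  have hS0 : 0 ≤ S := tsum_nonneg fun k => by positivity
  have hb2 : ∀ (j : ℕ) (l : ℝ), (4 : ℝ) ^ j ≤ 2 * |l| →
      ‖((-(4 : ℝ) ^ j : ℝ) : ℂ) • F l‖ ≤ 4 * C * (1 / 4) ^ j := by
    intro j l hl
    have h4 : (0 : ℝ) < 4 ^ j := by positivity
    have h2 := hC l
    have h3 : ((4 : ℝ) ^ j) ^ 2 ≤ (2 * |l|) ^ 2 := pow_le_pow_left₀ h4.le hl 2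
    rw [mul_pow, sq_abs] at h3
    rw [norm_smul, norm_real, Real.norm_eq_abs, abs_neg, abs_of_pos h4, one_div, inv_pow,
      ← div_eq_mul_inv, le_div_iff₀ h4]
    nlinarith [mul_le_mul_of_nonneg_right h3 (norm_nonneg (F l))]
  have hbound : ∀ j, ‖∑' k, err j k‖ ≤ 8 * C * (1 / 4) ^ j * S := by
    intro j
    refine tsum_of_norm_bounded ((ha.add hb).hasSum.mul_left (8 * C * (1 / 4) ^ j)) fun k => ?_
    have e1 : ‖(if k = j then 0 else ((-(4 : ℝ) ^ j : ℝ) : ℂ) • F (-4 ^ j + 4 ^ k))‖ ≤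
        4 * C * (1 / 4) ^ j := by
      split_ifs with hk
      · simp only [norm_zero]
        positivity
      · exact hb2 j _ (pow_four_le_abs_sub hk)
    have e2 : ‖((-(4 : ℝ) ^ j : ℝ) : ℂ) • F (-4 ^ j - 4 ^ k)‖ ≤ 4 * C * (1 / 4) ^ j := by
      apply hb2
      have h4 : (0 : ℝ) < 4 ^ j := by positivity
      have h5 : (0 : ℝ) < 4 ^ k := by positivity
      rw [abs_of_nonpos (by linarith)]
      linarith
    calc ‖err j k‖ ≤ 4 * C * (1 / 4) ^ j * (‖a k‖ + ‖b k‖) +
          4 * C * (1 / 4) ^ j * (‖a k‖ + ‖b k‖) := by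
          refine (norm_add_le _ _).trans (add_le_add ?_ ?_)
          · rw [norm_smul]
            exact mul_le_mul e1 (hpn k) (norm_nonneg _) (by positivity)
          · rw [norm_smul]
            exact mul_le_mul e2 (hqn k) (norm_nonneg _) (by positivity)
      _ = 8 * C * (1 / 4) ^ j * (‖a k‖ + ‖b k‖) := by ring
  set x : ℕ → ℝ := fun j =>
    ‖∫ t in Ioo 0 T, cis (-4 ^ j * t) • deriv ρ t • t • (g + wave a b t)‖ with hx
  set y : ℕ → ℝ := fun j => ‖∫ t in Ioo 0 T, cis (-4 ^ j * t) • ρ t • γ t‖ with hy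
  set K := 4 * C * ‖g‖ + 8 * C * S with hK
  have hF0' : 0 < ‖F 0‖ := norm_pos_iff.2 hF0
  have hmain : ∀ j : ℕ, (4 : ℝ) ^ j * ‖b j - I • a j‖ ≤
      2 / ‖F 0‖ * (x j + y j + K * (1 / 4) ^ j) := by
    intro j
    have e1 : (((-(4 : ℝ) ^ j : ℝ) : ℂ) • F 0) • p j =
        ((-(4 : ℝ) ^ j : ℝ) : ℂ) • (∫ t in Ioo 0 T,
          cis (-4 ^ j * t) • ρ t • t • (g + wave a b t)) -
          (((-(4 : ℝ) ^ j : ℝ) : ℂ) • F (-4 ^ j)) • g - ∑' k, err j k := by
      rw [(herrsum j).tsum_eq]
      abel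
    have e2 : ‖(((-(4 : ℝ) ^ j : ℝ) : ℂ) • F 0) • p j‖ =
        ‖F 0‖ / 2 * ((4 : ℝ) ^ j * ‖b j - I • a j‖) := by
      simp only [hp, norm_smul, norm_real, Real.norm_eq_abs, abs_neg, norm_div, norm_one,
        Complex.norm_ofNat]
      rw [abs_of_pos (by positivity)]
      ring
    have e3 : ‖((-(4 : ℝ) ^ j : ℝ) : ℂ) • (∫ t in Ioo 0 T,
        cis (-4 ^ j * t) • ρ t • t • (g + wave a b t))‖ ≤ x j + y j := by
      rw [hS, norm_smul, norm_I, one_mul]
      exact norm_add_le _ _
    have e4 : ‖(((-(4 : ℝ) ^ j : ℝ) : ℂ) • F (-4 ^ j)) • g‖ ≤ 4 * C * (1 / 4) ^ j * ‖g‖ := by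
      rw [norm_smul]
      refine mul_le_mul_of_nonneg_right (hb2 j _ ?_) (norm_nonneg _)
      have h4 : (0 : ℝ) < 4 ^ j := by positivity
      rw [abs_neg, abs_of_pos h4]
      linarith
    have e5 : ‖F 0‖ / 2 * ((4 : ℝ) ^ j * ‖b j - I • a j‖) ≤ x j + y j + K * (1 / 4) ^ j := by
      rw [← e2, e1]
      refine (norm_sub_le _ _).trans ((add_le_add (norm_sub_le _ _) (hbound j)).trans ?_)
      rw [hK]
      linarith
    rw [div_mul_eq_mul_div, le_div_iff₀ hF0']
    linarith
  have hs3 : Summable fun j : ℕ => (K * (1 / 4 : ℝ) ^ j) ^ 2 := by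
    refine ((summable_geometric_of_lt_one (r := (1 / 4 : ℝ) ^ 2) (by norm_num)
      (by norm_num)).mul_left (K ^ 2)).congr fun j => ?_
    rw [mul_pow, ← pow_mul, ← pow_mul, mul_comm 2 j]
  refine Summable.of_nonneg_of_le (fun j => sq_nonneg _) (fun j => ?_)
    (((hs1.add hs2).add hs3).mul_left ((2 / ‖F 0‖) ^ 2 * 3))
  refine (pow_le_pow_left₀ (by positivity) (hmain j) 2).trans ?_
  rw [mul_pow, mul_assoc]
  refine mul_le_mul_of_nonneg_left ?_ (sq_nonneg _)
  change _ ≤ 3 * (x j ^ 2 + y j ^ 2 + _)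
  nlinarith [sq_nonneg (x j - y j), sq_nonneg (x j - K * (1 / 4) ^ j),
    sq_nonneg (y j - K * (1 / 4) ^ j)]

end Pool.Agent.MP_954c34_an.Sharp

end
end

section

open MeasureTheory Set Filter Topology

noncomputable section

namespace Pool.Agent.MP_954c34_an.Sharp

/-- The square Dini condition `∫₀¹ θ(t)² / t² dt < ∞`. -/
def IsSquareDini (θ : ℝ → ℝ) : Prop := IntegrableOn (fun t => θ t ^ 2 / t ^ 2) (Ioo 0 1)

variable {θ : ℝ → ℝ}

lemma intervalIntegrable_dini (h : IsModulus θ) {a b : ℝ} (ha : 0 < a) (hab : a ≤ b) :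
    IntervalIntegrable (fun t => θ t ^ 2 / t ^ 2) volume a b := by
  have h1 : MonotoneOn (fun t => θ t ^ 2) (uIcc a b) := by
    rw [uIcc_of_le hab]
    intro s hs t ht hst
    have hs0 : 0 ≤ s := ha.le.trans hs.1
    exact pow_le_pow_left₀ (h.nonneg s hs0) (h.mono hs0 (hs0.trans hst) hst) 2
  have h2 : ContinuousOn (fun t : ℝ => (t ^ 2)⁻¹) (uIcc a b) := by
    rw [uIcc_of_le hab]
    exact (continuousOn_pow 2).inv₀ fun t ht => (pow_pos (ha.trans_le ht.1) 2).ne'
  simpa only [div_eq_mul_inv] using h1.intervalIntegrable.mul_continuousOn h2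

lemma exists_dyadic_bound (h : IsModulus θ) (hD : IsSquareDini θ) :
    ∃ W, ∀ N, ∑ j ∈ Finset.range (N + 1), 2 ^ j * θ ((1 / 2) ^ j) ^ 2 ≤ W := by
  have hle : ∀ N : ℕ, (1 / 2 : ℝ) ^ N ≤ 1 := fun N => pow_le_one₀ (by norm_num) (by norm_num)
  have key : ∀ N : ℕ, ∑ j ∈ Finset.range (N + 1), 2 ^ j * θ ((1 / 2) ^ j) ^ 2 ≤
      θ 1 ^ 2 + 4 * ∫ t in ((1 / 2 : ℝ) ^ N)..1, θ t ^ 2 / t ^ 2 := by
    intro N
    induction N with
    | zero => simp
    | succ N ih =>
      set a : ℝ := (1 / 2) ^ (N + 1) with ha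
      have ha0 : 0 < a := by positivity
      have e : (1 / 2 : ℝ) ^ N = 2 * a := by rw [ha, pow_succ]; ring
      have e2 : (2 : ℝ) ^ (N + 1) * a = 1 := by rw [ha, ← mul_pow]; norm_num
      have h1 := intervalIntegrable_dini h ha0 (show a ≤ 2 * a by linarith)
      have h2 := intervalIntegrable_dini h (show 0 < 2 * a by linarith) (e ▸ hle N)
      have h3 : ∫ t in a..(2 * a), θ a ^ 2 / (2 * a) ^ 2 ≤ ∫ t in a..(2 * a), θ t ^ 2 / t ^ 2 := by
        refine intervalIntegral.integral_mono_on (by linarith) intervalIntegrable_const h1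
          fun t ht => ?_
        have ht0 : 0 < t := ha0.trans_le ht.1
        have := h.mono ha0.le ht0.le ht.1
        have := h.nonneg a ha0.le
        have := ht.2
        gcongr
      rw [intervalIntegral.integral_const, smul_eq_mul] at h3
      have h4 : (2 : ℝ) ^ (N + 1) * θ a ^ 2 = 4 * ((2 * a - a) * (θ a ^ 2 / (2 * a) ^ 2)) := by
        have : (2 : ℝ) ^ (N + 1) = 1 / a := by rw [eq_div_iff ha0.ne', e2]
        rw [this]
        field_simp
        ring
      rw [Finset.sum_range_succ, ← ha, ← intervalIntegral.integral_add_adjacent_intervals h1 h2, h4]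
      rw [e] at ih
      linarith
  refine ⟨θ 1 ^ 2 + 4 * ∫ t in Ioo 0 1, θ t ^ 2 / t ^ 2, fun N => (key N).trans ?_⟩
  rw [intervalIntegral.integral_of_le (hle N), integral_Ioc_eq_integral_Ioo]
  refine add_le_add le_rfl (mul_le_mul_of_nonneg_left ?_ (by norm_num))
  exact setIntegral_mono_set hD
    (Eventually.of_forall fun t => div_nonneg (sq_nonneg _) (sq_nonneg _))
    (Ioo_subset_Ioo_left (show (0 : ℝ) ≤ (1 / 2) ^ N by positivity)).eventuallyLE

lemma isSquareDini_of_summable (h : IsModulus θ)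
    (hs : Summable fun k : ℕ => (2 ^ k * θ ((1 / 4) ^ k)) ^ 2) : IsSquareDini θ := by
  have hle : ∀ N : ℕ, (1 / 4 : ℝ) ^ N ≤ 1 := fun N => pow_le_one₀ (by norm_num) (by norm_num)
  have key : ∀ N : ℕ, ∫ t in ((1 / 4 : ℝ) ^ N)..1, θ t ^ 2 / t ^ 2 ≤
      12 * ∑ k ∈ Finset.range N, (2 ^ k * θ ((1 / 4) ^ k)) ^ 2 := by
    intro N
    induction N with
    | zero => simp
    | succ N ih =>
      set a : ℝ := (1 / 4) ^ (N + 1) with ha
      have ha0 : 0 < a := by positivity
      have e : (1 / 4 : ℝ) ^ N = 4 * a := by rw [ha, pow_succ]; ring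
      have e2 : ((2 : ℝ) ^ N) ^ 2 * (4 * a) = 1 := by
        rw [← e, ← pow_mul, mul_comm N 2, pow_mul, ← mul_pow]
        norm_num
      have h1 := intervalIntegrable_dini h ha0 (show a ≤ 4 * a by linarith)
      have h2 := intervalIntegrable_dini h (show 0 < 4 * a by linarith) (e ▸ hle N)
      have h3 : ∫ t in a..(4 * a), θ t ^ 2 / t ^ 2 ≤ ∫ t in a..(4 * a), θ (4 * a) ^ 2 / a ^ 2 := by
        refine intervalIntegral.integral_mono_on (by linarith) h1 intervalIntegrable_const
          fun t ht => ?_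
        have ht0 : 0 < t := ha0.trans_le ht.1
        have := h.mono ht0.le (ht0.le.trans ht.2) ht.2
        have := h.nonneg t ht0.le
        have := ht.1
        gcongr
      rw [intervalIntegral.integral_const, smul_eq_mul] at h3
      have h4 : 12 * (2 ^ N * θ (4 * a)) ^ 2 = (4 * a - a) * (θ (4 * a) ^ 2 / a ^ 2) := by
        have : ((2 : ℝ) ^ N) ^ 2 = 1 / (4 * a) := by rw [eq_div_iff (by positivity), e2]
        rw [mul_pow, this]
        field_simp
        ring
      rw [Finset.sum_range_succ, ← intervalIntegral.integral_add_adjacent_intervals h1 h2, mul_add,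
        e, h4]
      rw [e] at ih
      linarith
  have := integrableOn_Ioc_of_intervalIntegral_norm_bounded_left (l := atTop)
    (f := fun t => θ t ^ 2 / t ^ 2) (a := fun N : ℕ => (1 / 4 : ℝ) ^ N) (a₀ := 0) (b := 1)
    (I := 12 * ∑' k : ℕ, (2 ^ k * θ ((1 / 4) ^ k)) ^ 2)
    (fun N => (intervalIntegrable_dini h (by positivity) (hle N)).1)
    (tendsto_pow_atTop_nhds_zero_of_lt_one (by norm_num) (by norm_num))
    (Eventually.of_forall fun N => by
      have e : ∀ t : ℝ, ‖θ t ^ 2 / t ^ 2‖ = θ t ^ 2 / t ^ 2 := fun t =>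
        Real.norm_of_nonneg (by positivity)
      simp only [e]
      rw [← intervalIntegral.integral_of_le (hle N)]
      refine (key N).trans ?_
      gcongr
      exact hs.sum_le_tsum _ fun k _ => by positivity)
  exact this.mono_set Ioo_subset_Ioc_self

/-- The amplitudes of the lacunary series adapted to a modulus without the square Dini
property. -/
lemma exists_amplitude (h : IsModulus θ) (hD : ¬IsSquareDini θ) :
    ∃ ε : ℕ → ℝ, (∀ k, 0 ≤ ε k) ∧ (∀ k, ε k ≤ 1) ∧ (¬Summable fun k => ε k ^ 2) ∧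
      ∀ (N : ℕ) (d : ℝ), 0 ≤ d →
        ∑ k ∈ Finset.range N, ε k * (1 / 2) ^ k * min 2 (4 ^ k * d) ≤ 6 * θ d := by
  obtain ⟨e, he⟩ : ∃ e : ℕ → ℝ, ∀ k, e k = min 1 (2 ^ k * θ ((1 / 4) ^ k)) := ⟨_, fun _ => rfl⟩
  have hθ : ∀ k : ℕ, 0 ≤ θ ((1 / 4) ^ k) := fun k => h.nonneg _ (by positivity)
  have he0 : ∀ k, 0 ≤ e k := fun k => by
    rw [he]
    exact le_min zero_le_one (mul_nonneg (by positivity) (hθ k))
  have he1 : ∀ k, e k ≤ 1 := fun k => by rw [he]; exact min_le_left _ _
  have he2 : ∀ k, e k ≤ 2 ^ k * θ ((1 / 4) ^ k) := fun k => by rw [he]; exact min_le_right _ _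
  have hup : ∀ k, e (k + 1) ≤ 2 * e k := by
    intro k
    rw [he k, mul_min_of_nonneg _ _ (by norm_num : (0 : ℝ) ≤ 2)]
    refine le_min (by linarith [he1 (k + 1)]) ((he2 (k + 1)).trans ?_)
    have : θ ((1 / 4) ^ (k + 1)) ≤ θ ((1 / 4) ^ k) :=
      h.mono (mem_Ici.2 (by positivity)) (mem_Ici.2 (by positivity))
        (pow_le_pow_of_le_one (by norm_num) (by norm_num) (Nat.le_succ k))
    rw [pow_succ]
    nlinarith [pow_pos (by norm_num : (0 : ℝ) < 2) k]
  have hdown : ∀ k, e k ≤ 2 * e (k + 1) := by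
    intro k
    rw [he (k + 1), mul_min_of_nonneg _ _ (by norm_num : (0 : ℝ) ≤ 2)]
    refine le_min (by linarith [he1 k]) ((he2 k).trans ?_)
    set a : ℝ := (1 / 4) ^ (k + 1) with ha
    have ha0 : 0 ≤ a := by positivity
    have e1 : (1 / 4 : ℝ) ^ k = (a + a) + (a + a) := by rw [ha, pow_succ]; ring
    have h1 := h.subadd a a ha0 ha0
    have h2 := h.subadd (a + a) (a + a) (by positivity) (by positivity)
    rw [e1, pow_succ]
    nlinarith [pow_pos (by norm_num : (0 : ℝ) < 2) k]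
  obtain ⟨ε, hε⟩ : ∃ ε : ℕ → ℝ, ∀ k, ε k = e (k + 1) - max (e (k + 2)) (e k) / 2 :=
    ⟨_, fun _ => rfl⟩
  have hε0 : ∀ k, 0 ≤ ε k := fun k => by
    have := max_le (hup (k + 1)) (hdown k)
    rw [hε]
    linarith
  have hε1 : ∀ k, ε k ≤ e (k + 1) - e (k + 2) / 2 := fun k => by
    have := le_max_left (e (k + 2)) (e k)
    rw [hε]
    linarith
  have hε2 : ∀ k, ε k ≤ e (k + 1) - e k / 2 := fun k => by
    have := le_max_right (e (k + 2)) (e k)
    rw [hε]
    linarith
  refine ⟨ε, hε0, fun k => by linarith [hε2 k, he1 (k + 1), he0 k], fun hs => hD ?_,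
    fun N d hd => ?_⟩
  · have hpt : ∀ k, e (k + 1) ^ 2 ≤ 3 * ε k ^ 2 + 3 / 8 * (e (k + 2) ^ 2 + e k ^ 2) := by
      intro k
      have h1 : max (e (k + 2)) (e k) ^ 2 ≤ e (k + 2) ^ 2 + e k ^ 2 := by
        rcases max_choice (e (k + 2)) (e k) with h1 | h1 <;> rw [h1] <;>
          nlinarith [sq_nonneg (e (k + 2)), sq_nonneg (e k)]
      have h2 : e (k + 1) = ε k + max (e (k + 2)) (e k) / 2 := by rw [hε]; ring
      rw [h2]
      nlinarith [sq_nonneg (ε k - max (e (k + 2)) (e k) / 4)]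
    have hsq : ∀ k, e k ^ 2 ≤ 1 := fun k => pow_le_one₀ (he0 k) (he1 k)
    have hs1 : Summable fun k => e (k + 1) ^ 2 := by
      refine summable_of_sum_range_le (c := 12 * ∑' k, ε k ^ 2 + 3) (fun k => sq_nonneg _)
        fun N => ?_
      have h1 := Finset.sum_le_sum fun k (_ : k ∈ Finset.range N) => hpt k
      rw [Finset.sum_add_distrib, ← Finset.mul_sum, ← Finset.mul_sum, Finset.sum_add_distrib] at h1
      have h2 := hs.sum_le_tsum (Finset.range N) fun k _ => sq_nonneg _
      have h3 := Finset.sum_range_succ (fun k => e (k + 1) ^ 2) N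
      have h4 := Finset.sum_range_succ' (fun k => e (k + 1) ^ 2) N
      have h5 := Finset.sum_range_succ (fun k => e k ^ 2) N
      have h6 := Finset.sum_range_succ' (fun k => e k ^ 2) N
      have h7 : ∑ k ∈ Finset.range N, e (k + 1 + 1) ^ 2 = ∑ k ∈ Finset.range N, e (k + 2) ^ 2 := rfl
      linarith [hsq (N + 1), hsq 0, sq_nonneg (e (0 + 1)), sq_nonneg (e N)]
    have hs2 : Summable fun k => e k ^ 2 := (summable_nat_add_iff 1).1 hs1
    refine isSquareDini_of_summable h (hs2.of_norm_bounded_eventually_nat ?_)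
    filter_upwards [hs2.tendsto_atTop_zero.eventually (gt_mem_nhds zero_lt_one)] with k hk
    rw [Real.norm_of_nonneg (sq_nonneg _)]
    rcases min_choice 1 (2 ^ k * θ ((1 / 4) ^ k)) with h1 | h1
    · rw [he, h1] at hk
      norm_num at hk
    · rw [he, h1]
  · rcases hd.eq_or_lt with rfl | hd0
    · simpa using h.nonneg 0 le_rfl
    obtain ⟨m, hm1, hm2⟩ : ∃ m : ℕ, (1 / 4 : ℝ) ^ (m + 1) < d ∧ (m = 0 ∨ d ≤ (1 / 4) ^ m) := by
      rcases le_total d 1 with h1 | h1
      · obtain ⟨m, h2, h3⟩ := exists_nat_pow_near_of_lt_one hd0 h1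
          (by norm_num : (0 : ℝ) < 1 / 4) (by norm_num)
        exact ⟨m, h2, Or.inr h3⟩
      · exact ⟨0, by linarith, Or.inl rfl⟩
    have hnn : ∀ k, 0 ≤ ε k * (1 / 2) ^ k * min 2 (4 ^ k * d) := fun k =>
      mul_nonneg (mul_nonneg (hε0 k) (by positivity)) (le_min (by norm_num) (by positivity))
    have hhead : ∑ k ∈ Finset.range m, ε k * (1 / 2) ^ k * min 2 (4 ^ k * d) ≤
        (1 / 2) ^ m * e (m + 1) := by
      rcases hm2 with rfl | hm2
      · simpa using he0 1
      have h1 : ∀ k, ε k * (1 / 2) ^ k * min 2 (4 ^ k * d) ≤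
          d / 2 * (2 ^ (k + 1) * e (k + 1) - 2 ^ k * e k) := by
        intro k
        have e1 : (1 / 2 : ℝ) ^ k * 4 ^ k = 2 ^ k := by
          rw [← mul_pow]
          norm_num
        calc _ ≤ (e (k + 1) - e k / 2) * (1 / 2) ^ k * (4 ^ k * d) := by
              gcongr
              · exact mul_nonneg ((hε0 k).trans (hε2 k)) (by positivity)
              · exact hε2 k
              · exact min_le_right _ _
          _ = (e (k + 1) - e k / 2) * ((1 / 2) ^ k * 4 ^ k) * d := by ring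
          _ = _ := by rw [e1, pow_succ]; ring
      refine (Finset.sum_le_sum fun k _ => h1 k).trans ?_
      rw [← Finset.mul_sum, Finset.sum_range_sub (fun k => 2 ^ k * e k)]
      have e1 : (1 / 4 : ℝ) ^ m * 2 ^ m = (1 / 2) ^ m := by
        rw [← mul_pow]
        norm_num
      calc _ ≤ d / 2 * (2 ^ m * e m) := by
            gcongr
            simpa using he0 0
        _ ≤ (1 / 4) ^ m / 2 * (2 ^ m * (2 * e (m + 1))) := by
            gcongr
            · exact mul_nonneg (by positivity) (he0 m)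
            · exact hdown m
        _ = ((1 / 4) ^ m * 2 ^ m) * e (m + 1) := by ring
        _ = _ := by rw [e1]
    have htail : ∑ k ∈ Finset.range N, ε (m + k) * (1 / 2) ^ (m + k) * min 2 (4 ^ (m + k) * d) ≤
        2 * ((1 / 2) ^ m * e (m + 1)) := by
      have h1 : ∀ k, ε (m + k) * (1 / 2) ^ (m + k) * min 2 (4 ^ (m + k) * d) ≤
          2 * ((1 / 2) ^ (m + k) * e (m + k + 1) - (1 / 2) ^ (m + (k + 1)) * e (m + (k + 1) + 1)) := by
        intro k
        calc _ ≤ (e (m + k + 1) - e (m + k + 2) / 2) * (1 / 2) ^ (m + k) * 2 := by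
              gcongr
              · exact mul_nonneg ((hε0 _).trans (hε1 _)) (by positivity)
              · exact hε1 _
              · exact min_le_left _ _
          _ = _ := by
              rw [← add_assoc m k 1, pow_succ]
              ring
      refine (Finset.sum_le_sum fun k _ => h1 k).trans ?_
      rw [← Finset.mul_sum, Finset.sum_range_sub' (fun k => (1 / 2) ^ (m + k) * e (m + k + 1))]
      have : 0 ≤ (1 / 2 : ℝ) ^ (m + N) * e (m + N + 1) := mul_nonneg (by positivity) (he0 _)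
      simp only [add_zero]
      linarith
    have hfin : (1 / 2) ^ m * e (m + 1) ≤ 2 * θ d := by
      have e1 : (1 / 2 : ℝ) ^ m * 2 ^ m = 1 := by
        rw [← mul_pow]
        norm_num
      calc _ ≤ (1 / 2) ^ m * (2 ^ (m + 1) * θ d) := by
            gcongr
            refine (he2 _).trans ?_
            gcongr
            exact h.mono (mem_Ici.2 (by positivity)) (mem_Ici.2 hd) hm1.le
        _ = 2 * ((1 / 2) ^ m * 2 ^ m) * θ d := by rw [pow_succ]; ring
        _ = _ := by rw [e1, mul_one]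
    calc _ ≤ ∑ k ∈ Finset.range (m + N), ε k * (1 / 2) ^ k * min 2 (4 ^ k * d) :=
          Finset.sum_le_sum_of_subset_of_nonneg (Finset.range_mono (Nat.le_add_left N m))
            fun k _ _ => hnn k
      _ ≤ _ := by
          rw [Finset.sum_range_add]
          linarith

end Pool.Agent.MP_954c34_an.Sharp

end
end
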