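import Pool.Agent.Mg.F954c34.G20417d

set_option linter.all false

section

open Finset
open scoped InnerProductSpace ComplexConjugate

noncomputable section

namespace Pool.Agent.MP_954c34_an.Sharp

lemma sum_min_le {d : ℝ} (hd : 0 < d) (N : ℕ) :
    ∑ i ∈ range N, min (2 / (2 ^ i * d)) (2 ^ i * d) ≤ 12 := by
  set h : ℕ → ℝ := fun k => (2 ^ k * d) / (1 + 2 ^ k * d) with hh
  have hterm : ∀ k : ℕ, min (2 / (2 ^ k * d)) (2 ^ k * d) ≤ 12 * (h (k + 1) - h k) := by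
    intro k
    have hx : 0 < (2 : ℝ) ^ k * d := by positivity
    have e5 : h (k + 1) - h k = (2 * (2 ^ k * d)) / (1 + 2 * (2 ^ k * d)) -
        (2 ^ k * d) / (1 + 2 ^ k * d) := by
      simp only [hh, pow_succ]
      ring_nf
    rw [e5]
    exact min_le_telescope hx
  calc _ ≤ ∑ k ∈ range N, 12 * (h (k + 1) - h k) := sum_le_sum fun k _ => hterm k
    _ = 12 * (h N - h 0) := by rw [← mul_sum, sum_range_sub]
    _ ≤ 12 * 1 := by
        gcongr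
        have h1 : h N ≤ 1 := by
          simp only [hh]
          rw [div_le_one (by positivity)]
          linarith
        have h2 : 0 ≤ h 0 := by simp only [hh]; positivity
        linarith
    _ = 12 := by ring

lemma symbol_bound {z : ℂ} (hz : ‖z‖ = 1) (N : ℕ) :
    ‖∑ i ∈ range N, ((1 / 2 : ℂ) ^ i) * ((1 - star z ^ (2 ^ i)) * ∑ l ∈ range (2 ^ i), z ^ l)‖
      ≤ 24 := by
  rcases eq_or_ne z 1 with rfl | hz1
  · simp
  set d := ‖1 - z‖ with hd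
  have hd0 : 0 < d := norm_pos_iff.2 (sub_ne_zero.2 hz1.symm)
  have hterm : ∀ i : ℕ,
      ‖((1 / 2 : ℂ) ^ i) * ((1 - star z ^ (2 ^ i)) * ∑ l ∈ range (2 ^ i), z ^ l)‖ ≤
        2 * min (2 / (2 ^ i * d)) (2 ^ i * d) := by
    intro i
    set G := ∑ l ∈ range (2 ^ i), z ^ l with hG
    have hG1 : ‖G‖ ≤ 2 ^ i := by
      refine (norm_sum_le _ _).trans ?_
      simp [norm_pow, hz]
    have hG2 : d * ‖G‖ = ‖1 - z ^ (2 ^ i)‖ := by
      rw [hd, ← norm_mul, hG, mul_neg_geom_sum]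
    have h2 : ‖1 - z ^ (2 ^ i)‖ ≤ 2 := by
      refine (norm_sub_le _ _).trans ?_
      simp [norm_pow, hz]
      norm_num
    have h3 : ‖1 - star z ^ (2 ^ i)‖ = ‖1 - z ^ (2 ^ i)‖ := by
      rw [← norm_star, star_sub, star_one, star_pow, star_star]
    have hp : (0 : ℝ) < 2 ^ i := by positivity
    rw [norm_mul, norm_mul, h3, ← hG2, norm_pow, norm_div, norm_one, Complex.norm_ofNat,
      mul_min_of_nonneg _ _ (by norm_num : (0 : ℝ) ≤ 2), one_div, inv_pow]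
    have hG0 := norm_nonneg G
    refine le_min ?_ ?_
    · have h4 : d * ‖G‖ ≤ 2 := hG2.trans_le h2
      have h5 : (d * ‖G‖) * (d * ‖G‖) ≤ 2 * 2 := mul_le_mul h4 h4 (by positivity) (by norm_num)
      rw [inv_mul_le_iff₀ hp, ← mul_div_assoc, mul_div_assoc', le_div_iff₀ (by positivity)]
      nlinarith
    · rw [inv_mul_le_iff₀ hp]
      have h5 : ‖G‖ * ‖G‖ ≤ 2 ^ i * 2 ^ i := mul_le_mul hG1 hG1 hG0 hp.le
      nlinarith [mul_le_mul_of_nonneg_left h5 hd0.le, mul_pos hd0 (mul_pos hp hp)]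
  calc _ ≤ ∑ i ∈ range N, 2 * min (2 / (2 ^ i * d)) (2 ^ i * d) :=
        (norm_sum_le _ _).trans (sum_le_sum fun i _ => hterm i)
    _ = 2 * ∑ i ∈ range N, min (2 / (2 ^ i * d)) (2 ^ i * d) := by rw [mul_sum]
    _ ≤ 2 * 12 := by gcongr; exact sum_min_le hd0 N
    _ = 24 := by norm_num

variable {𝓗 𝓥 : Type*} [NormedAddCommGroup 𝓗] [InnerProductSpace ℂ 𝓗] [CompleteSpace 𝓗]
  [NormedAddCommGroup 𝓥] [InnerProductSpace ℂ 𝓥] [CompleteSpace 𝓥]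

/-- The difference operator `1 - U ^ (2 ^ i)`. -/
def dif (U : 𝓗 →L[ℂ] 𝓗) (i : ℕ) : 𝓗 →L[ℂ] 𝓗 := 1 - U ^ (2 ^ i)

omit [CompleteSpace 𝓗] in
lemma dif_apply (U : 𝓗 →L[ℂ] 𝓗) (i : ℕ) (x : 𝓗) : dif U i x = x - (U ^ (2 ^ i)) x := rfl

/-- The discrete substitute for the boundedness of the Hilbert transform. -/
lemma multiplier_bound {U : 𝓗 →L[ℂ] 𝓗} (hU : U ∈ unitary (𝓗 →L[ℂ] 𝓗)) (N : ℕ) (y : 𝓗) :
    ‖∑ i ∈ range N, ((1 / 2 : ℂ) ^ i) • dif (star U) i (dif U i y)‖ ≤ 24 * ‖dif U 0 y‖ := by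
  have hn : IsStarNormal U := isStarNormal_of_mem_unitary hU
  set Q : 𝓗 →L[ℂ] 𝓗 := ∑ i ∈ range N, ((1 / 2 : ℂ) ^ i) •
    ((1 - star U ^ (2 ^ i)) * ∑ l ∈ range (2 ^ i), U ^ l) with hQ
  have hcfc : Q = cfc (fun z : ℂ => ∑ i ∈ range N, ((1 / 2 : ℂ) ^ i) *
      ((1 - star z ^ (2 ^ i)) * ∑ l ∈ range (2 ^ i), z ^ l)) U := by
    have e1 : ∀ i : ℕ, cfc (fun z : ℂ => ∑ l ∈ range (2 ^ i), z ^ l) U =
        ∑ l ∈ range (2 ^ i), U ^ l := by
      intro i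
      have := cfc_sum (fun (l : ℕ) (z : ℂ) => z ^ l) U (range (2 ^ i))
      rw [← sum_congr rfl fun l _ => cfc_pow_id (R := ℂ) U l, ← this]
      congr 1
      funext z
      simp
    have e2 : ∀ i : ℕ, cfc (fun z : ℂ => 1 - star z ^ (2 ^ i)) U = 1 - star U ^ (2 ^ i) := by
      intro i
      rw [cfc_sub _ _ U, cfc_const_one ℂ U, cfc_pow _ _ U, cfc_star_id (R := ℂ) U]
    have e3 := cfc_sum (fun (i : ℕ) (z : ℂ) => ((1 / 2 : ℂ) ^ i) *
      ((1 - star z ^ (2 ^ i)) * ∑ l ∈ range (2 ^ i), z ^ l)) U (range N)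
    have e4 : (∑ i ∈ range N, fun z : ℂ => ((1 / 2 : ℂ) ^ i) *
        ((1 - star z ^ (2 ^ i)) * ∑ l ∈ range (2 ^ i), z ^ l)) = fun z : ℂ =>
        ∑ i ∈ range N, ((1 / 2 : ℂ) ^ i) *
          ((1 - star z ^ (2 ^ i)) * ∑ l ∈ range (2 ^ i), z ^ l) := by
      funext z
      simp
    rw [← e4, e3, hQ]
    refine sum_congr rfl fun i _ => ?_
    rw [cfc_const_mul _ _ U, cfc_mul _ _ U, e1, e2]
  have hQn : ‖Q‖ ≤ 24 := by
    rw [hcfc]
    exact norm_cfc_le (by norm_num) fun z hz =>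
      symbol_bound (spectrum.norm_eq_one_of_unitary hU hz) N
  have e : ∑ i ∈ range N, ((1 / 2 : ℂ) ^ i) • dif (star U) i (dif U i y) = Q (dif U 0 y) := by
    rw [hQ, _root_.sum_apply]
    refine sum_congr rfl fun i _ => ?_
    rw [smul_apply, mul_apply_eq_comp, dif, dif, dif, ← geom_sum_mul_neg U, mul_apply_eq_comp,
      pow_zero, pow_one]
  rw [e]
  exact (Q.le_opNorm _).trans (mul_le_mul_of_nonneg_right hQn (norm_nonneg _))

lemma re_inner_dif_nonneg {U : 𝓗 →L[ℂ] 𝓗} (hU : U ∈ unitary (𝓗 →L[ℂ] 𝓗)) (i : ℕ) (a : 𝓗) :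
    0 ≤ (⟪a, dif U i a⟫_ℂ).re := by
  have h1 : (⟪a, (U ^ (2 ^ i)) a⟫_ℂ).re ≤ ‖a‖ * ‖a‖ := by
    have := re_inner_le_norm (𝕜 := ℂ) a ((U ^ (2 ^ i)) a)
    rwa [ContinuousLinearMap.norm_map_of_mem_unitary (pow_mem hU _)] at this
  have h2 : (⟪a, a⟫_ℂ).re = ‖a‖ * ‖a‖ := inner_self_eq_norm_mul_norm (𝕜 := ℂ) a
  rw [dif_apply, inner_sub_right, Complex.sub_re]
  linarith

lemma inner_dif_star (U : 𝓗 →L[ℂ] 𝓗) (i : ℕ) (a b : 𝓗) :
    ⟪dif (star U) i a, b⟫_ℂ = ⟪a, dif U i b⟫_ℂ := by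
  rw [dif_apply, dif_apply, inner_sub_left, inner_sub_right, ← star_pow,
    ContinuousLinearMap.star_eq_adjoint, ContinuousLinearMap.adjoint_inner_left]

omit [CompleteSpace 𝓗] in
lemma dif_comm (U : 𝓗 →L[ℂ] 𝓗) (i j : ℕ) (a : 𝓗) : dif U i (dif U j a) = dif U j (dif U i a) := by
  have : dif U i * dif U j = dif U j * dif U i := by
    unfold dif
    exact ((Commute.one_left _).sub_left
      ((Commute.one_right _).sub_right (Commute.pow_pow_self U _ _))).eq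
  exact congrArg (fun T : 𝓗 →L[ℂ] 𝓗 => T a) this

lemma norm_dif_le {U : 𝓗 →L[ℂ] 𝓗} (hU : U ∈ unitary (𝓗 →L[ℂ] 𝓗)) (i : ℕ) (a : 𝓗) :
    ‖dif U i a‖ ≤ 2 * ‖a‖ := by
  rw [dif_apply]
  refine (norm_sub_le _ _).trans ?_
  rw [ContinuousLinearMap.norm_map_of_mem_unitary (pow_mem hU _)]
  linarith

omit [CompleteSpace 𝓗] [CompleteSpace 𝓥] in
lemma map_dif {J : 𝓥 →L[ℂ] 𝓗} {U : 𝓥 →L[ℂ] 𝓥} {U' : 𝓗 →L[ℂ] 𝓗}
    (h : ∀ x, J (U x) = U' (J x)) (i : ℕ) (x : 𝓥) : J (dif U i x) = dif U' i (J x) := by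
  have : ∀ (m : ℕ) (x : 𝓥), J ((U ^ m) x) = (U' ^ m) (J x) := by
    intro m
    induction m with
    | zero => simp
    | succ m ih =>
      intro x
      rw [pow_succ, pow_succ, mul_apply_eq_comp, mul_apply_eq_comp, ih, h]
  rw [dif_apply, dif_apply, map_sub, this]

lemma map_star_of_unitary {J : 𝓥 →L[ℂ] 𝓗} {U : 𝓥 →L[ℂ] 𝓥} {U' : 𝓗 →L[ℂ] 𝓗}
    (hU : U ∈ unitary (𝓥 →L[ℂ] 𝓥)) (hU' : U' ∈ unitary (𝓗 →L[ℂ] 𝓗))
    (h : ∀ x, J (U x) = U' (J x)) (x : 𝓥) : J (star U x) = star U' (J x) := by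
  have h1 : U (star U x) = x := by
    rw [← mul_apply_eq_comp, Unitary.mul_star_self_of_mem hU, one_apply_eq_self]
  have h2 : ∀ y, star U' (U' y) = y := fun y => by
    rw [← mul_apply_eq_comp, Unitary.star_mul_self_of_mem hU', one_apply_eq_self]
  rw [← h2 (J (star U x)), ← h, h1]

lemma inner_dif_telescope {U : 𝓗 →L[ℂ] 𝓗} (hU : U ∈ unitary (𝓗 →L[ℂ] 𝓗)) (i : ℕ) (x g : 𝓗) :
    ‖⟪dif U i x, g⟫_ℂ - (1 / 2) * ⟪dif U (i + 1) x, g⟫_ℂ‖ ≤
      (1 / 2) * (‖dif U i x‖ * ‖dif U i g‖) := by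
  have hm := pow_mem hU (2 ^ i)
  have e1 : dif U (i + 1) x = dif U i x + (U ^ (2 ^ i)) (dif U i x) := by
    rw [dif_apply, dif_apply, map_sub, pow_succ, pow_mul, sq, mul_apply_eq_comp]
    abel
  have e2 : ⟪dif U i x, g⟫_ℂ - (1 / 2) * ⟪dif U (i + 1) x, g⟫_ℂ =
      -(1 / 2) * ⟪(U ^ (2 ^ i)) (dif U i x), dif U i g⟫_ℂ := by
    rw [e1, inner_add_left, dif_apply U i g, inner_sub_right,
      ContinuousLinearMap.inner_map_map_of_mem_unitary hm]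
    ring
  rw [e2, norm_mul]
  have := norm_inner_le_norm (𝕜 := ℂ) ((U ^ (2 ^ i)) (dif U i x)) (dif U i g)
  rw [ContinuousLinearMap.norm_map_of_mem_unitary hm] at this
  simp only [norm_neg, norm_div, norm_one, Complex.norm_ofNat]
  linarith

lemma le_of_sq_le {X a b : ℝ} (ha : 0 ≤ a) (hb : 0 ≤ b) (h : X ^ 2 ≤ a * X + b) :
    X ≤ a + b + 1 := by
  by_contra hc
  have hc := not_le.1 hc
  nlinarith

/-- The a priori estimate for the implicit Euler scheme, uniform in the step size `2 ^ (-N)`. -/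
theorem discrete_bound (J : 𝓥 →L[ℂ] 𝓗) (B : 𝓥 →L[ℂ] 𝓥) (F : 𝓗) {c W : ℝ} (hc : 0 < c)
    (hW : 0 ≤ W) (hB : ∀ v, c * ‖v‖ ^ 2 ≤ (⟪v, B v⟫_ℂ).re) :
    ∃ C : ℝ, ∀ (U : 𝓥 →L[ℂ] 𝓥) (U' : 𝓗 →L[ℂ] 𝓗) (N : ℕ) (w : ℕ → ℝ) (u : 𝓥),
      U ∈ unitary (𝓥 →L[ℂ] 𝓥) → U' ∈ unitary (𝓗 →L[ℂ] 𝓗) → (∀ x, J (U x) = U' (J x)) →
      (∀ i < N, ∀ x, ‖B ((U ^ (2 ^ i)) x) - (U ^ (2 ^ i)) (B x)‖ ≤ w i * ‖x‖) →
      ∑ i ∈ range N, 2 ^ N * (1 / 2) ^ i * w i ^ 2 ≤ W →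
      (∀ v, (2 : ℂ) ^ N * ⟪J v, dif U' 0 (J u)⟫_ℂ + ⟪v, B u⟫_ℂ = ⟪J v, F⟫_ℂ) →
      2 ^ N * ‖dif U' 0 (J u)‖ ≤ C := by
  set R := ‖J‖ * ‖F‖ / c with hR
  have hR0 : 0 ≤ R := by positivity
  set Λ := ‖B‖ with hΛ
  have hΛ0 : 0 ≤ Λ := norm_nonneg _
  refine ⟨(‖F‖ + (Λ + 1) * (48 / c * ‖F‖)) +
    (2 * Λ * R ^ 2 + W * R ^ 2 + (Λ + 1) * (W * R ^ 2 / c ^ 2)) + 1, ?_⟩
  intro U U' N w u hU hU' hJ hw hsum heq
  set y := J u with hy
  set X := 2 ^ N * ‖dif U' 0 y‖ with hX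
  have hX0 : 0 ≤ X := by positivity
  have hre : ∀ z : ℂ, ((2 : ℂ) ^ N * z).re = 2 ^ N * z.re := fun z => by
    have : (2 : ℂ) ^ N = ((2 ^ N : ℝ) : ℂ) := by push_cast; rfl
    rw [this, Complex.re_ofReal_mul]
  have hp : (0 : ℝ) < 2 ^ N := by positivity
  -- step 0
  have hu : ‖u‖ ≤ R := by
    have h1 := congrArg Complex.re (heq u)
    rw [Complex.add_re, hre] at h1
    have h2 := re_inner_dif_nonneg hU' 0 y
    have h3 := hB u
    have h4 : (⟪y, F⟫_ℂ).re ≤ ‖J‖ * ‖u‖ * ‖F‖ :=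
      (re_inner_le_norm (𝕜 := ℂ) y F).trans
        (mul_le_mul_of_nonneg_right (J.le_opNorm u) (norm_nonneg _))
    have h5 : c * ‖u‖ ^ 2 ≤ ‖J‖ * ‖u‖ * ‖F‖ := by nlinarith [mul_nonneg hp.le h2]
    rw [hR, le_div_iff₀ hc]
    rcases (norm_nonneg u).eq_or_lt with h0 | h0
    · rw [← h0, zero_mul]
      positivity
    · nlinarith
  have hcomm : ∀ i < N, ‖dif U i (B u) - B (dif U i u)‖ ≤ |w i| * R := by
    intro i hi
    have e : dif U i (B u) - B (dif U i u) = B ((U ^ (2 ^ i)) u) - (U ^ (2 ^ i)) (B u) := by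
      rw [dif_apply, dif_apply, map_sub]
      abel
    rw [e]
    exact (hw i hi u).trans (mul_le_mul (le_abs_self _) hu (norm_nonneg _) (abs_nonneg _))
  -- step 1
  set Q := ∑ i ∈ range N, 2 ^ N * (1 / 2 : ℝ) ^ i * ‖dif U i u‖ ^ 2 with hQ
  have hstep : ∀ i < N, c / 2 * ‖dif U i u‖ ^ 2 ≤
      (⟪dif (star U') i (dif U' i y), F⟫_ℂ).re + w i ^ 2 * R ^ 2 / (2 * c) := by
    intro i hi
    have h1 := congrArg Complex.re (heq (dif (star U) i (dif U i u)))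
    rw [map_dif (map_star_of_unitary hU hU' hJ), map_dif hJ, ← hy, inner_dif_star U', dif_comm,
      inner_dif_star U, Complex.add_re, hre] at h1
    have h2 := re_inner_dif_nonneg hU' 0 (dif U' i y)
    have h3 := hB (dif U i u)
    have h4 : ⟪dif U i u, dif U i (B u)⟫_ℂ = ⟪dif U i u, B (dif U i u)⟫_ℂ +
        ⟪dif U i u, dif U i (B u) - B (dif U i u)⟫_ℂ := by
      rw [inner_sub_right]
      ring
    have h5 : |(⟪dif U i u, dif U i (B u) - B (dif U i u)⟫_ℂ).re| ≤ ‖dif U i u‖ * (|w i| * R) :=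
      (Complex.abs_re_le_norm _).trans ((norm_inner_le_norm _ _).trans
        (mul_le_mul_of_nonneg_left (hcomm i hi) (norm_nonneg _)))
    have h6 := neg_abs_le (⟪dif U i u, dif U i (B u) - B (dif U i u)⟫_ℂ).re
    rw [h4, Complex.add_re] at h1
    have h7 : ‖dif U i u‖ * (|w i| * R) ≤
        c / 2 * ‖dif U i u‖ ^ 2 + w i ^ 2 * R ^ 2 / (2 * c) := by
      have h8 : w i ^ 2 * R ^ 2 / (2 * c) = c / 2 * (|w i| * R / c) ^ 2 := by
        rw [div_pow (|w i| * R), mul_pow |w i|, sq_abs]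
        field_simp
      have h9 : ‖dif U i u‖ * (|w i| * R) = c * (‖dif U i u‖ * (|w i| * R / c)) := by
        field_simp
      rw [h8, h9]
      nlinarith [mul_nonneg hc.le (sq_nonneg (‖dif U i u‖ - |w i| * R / c))]
    nlinarith [mul_nonneg hp.le h2]
  have hQle : Q ≤ 48 / c * ‖F‖ * X + W * R ^ 2 / c ^ 2 := by
    have h1 : c / 2 * Q ≤ 2 ^ N * (⟪∑ i ∈ range N, ((1 / 2 : ℂ) ^ i) •
        dif (star U') i (dif U' i y), F⟫_ℂ).re +
        (∑ i ∈ range N, 2 ^ N * (1 / 2) ^ i * w i ^ 2) * (R ^ 2 / (2 * c)) := by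
      rw [hQ, sum_inner, Complex.re_sum, mul_sum, mul_sum, sum_mul, ← sum_add_distrib]
      refine sum_le_sum fun i hi => ?_
      have e : (⟪((1 / 2 : ℂ) ^ i) • dif (star U') i (dif U' i y), F⟫_ℂ).re =
          (1 / 2) ^ i * (⟪dif (star U') i (dif U' i y), F⟫_ℂ).re := by
        have : (1 / 2 : ℂ) ^ i = (((1 / 2) ^ i : ℝ) : ℂ) := by push_cast; rfl
        rw [inner_smul_left, this, Complex.conj_ofReal, Complex.re_ofReal_mul]
      rw [e]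
      have := mul_le_mul_of_nonneg_left (hstep i (mem_range.1 hi))
        (by positivity : (0 : ℝ) ≤ 2 ^ N * (1 / 2) ^ i)
      calc _ = 2 ^ N * (1 / 2) ^ i * (c / 2 * ‖dif U i u‖ ^ 2) := by ring
        _ ≤ _ := this
        _ = _ := by ring
    have h2 : (⟪∑ i ∈ range N, ((1 / 2 : ℂ) ^ i) • dif (star U') i (dif U' i y), F⟫_ℂ).re ≤
        24 * ‖dif U' 0 y‖ * ‖F‖ :=
      (re_inner_le_norm (𝕜 := ℂ) _ F).trans
        (mul_le_mul_of_nonneg_right (multiplier_bound hU' N y) (norm_nonneg _))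
    have h3 : c / 2 * Q ≤ 24 * ‖F‖ * X + W * (R ^ 2 / (2 * c)) := by
      have h4 := mul_le_mul_of_nonneg_left h2 hp.le
      have h5 := mul_le_mul_of_nonneg_right hsum (by positivity : 0 ≤ R ^ 2 / (2 * c))
      rw [hX]
      nlinarith
    have e : 48 / c * ‖F‖ * X + W * R ^ 2 / c ^ 2 =
        (24 * ‖F‖ * X + W * (R ^ 2 / (2 * c))) / (c / 2) := by
      field_simp
      ring
    rw [e, le_div_iff₀ (by positivity)]
    linarith
  -- step 2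
  set Φ : ℕ → ℂ := fun i => (2 : ℂ) ^ N * (1 / 2) ^ i * ⟪dif U i u, B u⟫_ℂ with hΦ
  have hBu : ‖B u‖ ≤ Λ * R := (B.le_opNorm u).trans (mul_le_mul_of_nonneg_left hu hΛ0)
  have hΦN : ‖Φ N‖ ≤ 2 * Λ * R ^ 2 := by
    have e : (2 : ℂ) ^ N * (1 / 2) ^ N = 1 := by
      rw [← mul_pow]
      norm_num
    simp only [hΦ, e, one_mul]
    calc _ ≤ ‖dif U N u‖ * ‖B u‖ := norm_inner_le_norm _ _
      _ ≤ (2 * R) * (Λ * R) :=
          mul_le_mul ((norm_dif_le hU N u).trans (by linarith)) hBu (norm_nonneg _) (by positivity)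
      _ = _ := by ring
  have hΦd : ∀ i < N, ‖Φ i - Φ (i + 1)‖ ≤
      (Λ + 1) * (2 ^ N * (1 / 2 : ℝ) ^ i * ‖dif U i u‖ ^ 2) +
        2 ^ N * (1 / 2) ^ i * w i ^ 2 * R ^ 2 := by
    intro i hi
    have e : Φ i - Φ (i + 1) = (2 : ℂ) ^ N * (1 / 2) ^ i *
        (⟪dif U i u, B u⟫_ℂ - (1 / 2) * ⟪dif U (i + 1) u, B u⟫_ℂ) := by
      simp only [hΦ, pow_succ]
      ring
    have h1 := inner_dif_telescope hU i u (B u)
    have h2 : ‖dif U i (B u)‖ ≤ Λ * ‖dif U i u‖ + |w i| * R := by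
      have := norm_add_le (B (dif U i u)) (dif U i (B u) - B (dif U i u))
      rw [add_sub_cancel] at this
      linarith [B.le_opNorm (dif U i u), hcomm i hi]
    have h3 : (1 / 2) * (‖dif U i u‖ * ‖dif U i (B u)‖) ≤
        (Λ + 1) * ‖dif U i u‖ ^ 2 + w i ^ 2 * R ^ 2 := by
      have h4 := mul_le_mul_of_nonneg_left h2 (norm_nonneg (dif U i u))
      have h5 : w i ^ 2 * R ^ 2 = (|w i| * R) ^ 2 := by rw [mul_pow, sq_abs]
      rw [h5]
      nlinarith [sq_nonneg (‖dif U i u‖ - |w i| * R), mul_nonneg hΛ0 (sq_nonneg ‖dif U i u‖),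
        sq_nonneg (|w i| * R), sq_nonneg ‖dif U i u‖]
    rw [e, norm_mul, norm_mul, norm_pow, norm_pow, norm_div, norm_one, Complex.norm_ofNat]
    calc _ ≤ 2 ^ N * (1 / 2 : ℝ) ^ i * ((Λ + 1) * ‖dif U i u‖ ^ 2 + w i ^ 2 * R ^ 2) :=
          mul_le_mul_of_nonneg_left (h1.trans h3) (by positivity)
      _ = _ := by ring
  have hΦ0 : ‖Φ 0‖ ≤ 2 * Λ * R ^ 2 + ((Λ + 1) * Q + W * R ^ 2) := by
    have e : Φ 0 = Φ N + ∑ i ∈ range N, (Φ i - Φ (i + 1)) := by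
      rw [sum_range_sub']
      ring
    rw [e]
    refine (norm_add_le _ _).trans (add_le_add hΦN ((norm_sum_le _ _).trans ?_))
    refine (sum_le_sum fun i hi => hΦd i (mem_range.1 hi)).trans ?_
    rw [sum_add_distrib, ← mul_sum, ← sum_mul, ← hQ]
    gcongr
  have hX2 : X ^ 2 ≤ ‖F‖ * X + ‖Φ 0‖ := by
    have h1 := congrArg (fun z => ((2 : ℂ) ^ N * z).re) (heq (dif U 0 u))
    simp only [mul_add, Complex.add_re, hre] at h1
    rw [map_dif hJ, ← hy] at h1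
    have h2 : (⟪dif U' 0 y, dif U' 0 y⟫_ℂ).re = ‖dif U' 0 y‖ * ‖dif U' 0 y‖ :=
      inner_self_eq_norm_mul_norm (𝕜 := ℂ) _
    have h3 : (⟪dif U' 0 y, F⟫_ℂ).re ≤ ‖dif U' 0 y‖ * ‖F‖ := re_inner_le_norm (𝕜 := ℂ) _ F
    have h4 : |(Φ 0).re| ≤ ‖Φ 0‖ := Complex.abs_re_le_norm _
    have h5 : (Φ 0).re = 2 ^ N * (⟪dif U 0 u, B u⟫_ℂ).re := by
      simp only [hΦ, pow_zero, mul_one, hre]
    have h6 := neg_abs_le (Φ 0).re
    have h7 := mul_le_mul_of_nonneg_left h3 hp.le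
    rw [h2] at h1
    rw [hX]
    nlinarith
  refine le_of_sq_le (by positivity) (by positivity) ?_
  have := mul_le_mul_of_nonneg_left hQle (by positivity : 0 ≤ Λ + 1)
  nlinarith

end Pool.Agent.MP_954c34_an.Sharp

end
end

section

open MeasureTheory Set Filter Topology
open scoped InnerProductSpace ComplexConjugate

set_option linter.unusedSectionVars false

noncomputable section

namespace Pool.Agent.MP_954c34_an.Sharp

variable {V H : Type} [NormedAddCommGroup V] [InnerProductSpace ℂ V] [CompleteSpace V]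
  [NormedAddCommGroup H] [InnerProductSpace ℂ H] [CompleteSpace H]

/-- `L²(ℝ; E)`. -/
abbrev LL (E : Type) [NormedAddCommGroup E] : Type := Lp E 2 (volume : Measure ℝ)

/-- The shift `f ↦ f (· - r)`. -/
def sh (E : Type) [NormedAddCommGroup E] [InnerProductSpace ℂ E] (r : ℝ) : LL E →L[ℂ] LL E :=
  (Lp.compMeasurePreservingₗᵢ ℂ (shiftMap (-r))
    (shiftMap_measurePreserving (-r))).toContinuousLinearMap

lemma ae_shift {p : ℝ → Prop} (h : ∀ᵐ t, p t) (r : ℝ) : ∀ᵐ t, p (t - r) :=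
  (measurePreserving_sub_right volume r).quasiMeasurePreserving.ae h

omit [CompleteSpace V] in
lemma coeFn_sh (r : ℝ) (f : LL V) : sh V r f =ᵐ[volume] fun t => f (t - r) := by
  simp only [sub_eq_add_neg]
  exact coeFn_shiftL2 f (-r)

omit [CompleteSpace V] in
lemma norm_sh (r : ℝ) (f : LL V) : ‖sh V r f‖ = ‖f‖ :=
  (Lp.compMeasurePreservingₗᵢ ℂ (shiftMap (-r)) (shiftMap_measurePreserving (-r))).norm_map f

omit [CompleteSpace V] in
lemma sh_mul (r s : ℝ) : sh V r * sh V s = sh V (r + s) := by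
  refine ContinuousLinearMap.ext fun f => Lp.ext ?_
  filter_upwards [coeFn_sh r (sh V s f), ae_shift (coeFn_sh s f) r, coeFn_sh (r + s) f]
    with t h1 h2 h3
  rw [mul_apply_eq_comp, h1, h2, h3, sub_sub]

omit [CompleteSpace V] in
lemma sh_zero : sh V 0 = 1 := by
  refine ContinuousLinearMap.ext fun f => Lp.ext ?_
  filter_upwards [coeFn_sh 0 f] with t h1
  rw [h1, sub_zero, one_apply_eq_self]

omit [CompleteSpace V] in
lemma sh_pow (r : ℝ) (m : ℕ) : sh V r ^ m = sh V (m * r) := by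
  induction m with
  | zero => simp [sh_zero]
  | succ m ih =>
    rw [pow_succ, ih, sh_mul]
    congr 1
    push_cast
    ring

lemma sh_mem_unitary (r : ℝ) : sh V r ∈ unitary (LL V →L[ℂ] LL V) :=
  IsUnit.mem_unitary_of_star_mul_self
    ⟨⟨sh V r, sh V (-r), by rw [sh_mul, add_neg_cancel, sh_zero],
      by rw [sh_mul, neg_add_cancel, sh_zero]⟩, rfl⟩
    ((sh V r).norm_map_iff_adjoint_comp_self.mp (norm_sh r))

omit [CompleteSpace V] in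
lemma memLp_mul {B : ℝ → V →L[ℂ] V} (hB : Continuous B) {Λ : ℝ} (hΛ : ∀ t, ‖B t‖ ≤ Λ)
    (f : LL V) : MemLp (fun t => B t (f t)) 2 volume :=
  MemLp.of_le_mul (c := Λ) (Lp.memLp f)
    ((isBoundedBilinearMap_apply (𝕜 := ℂ) (E := V) (F := V)).continuous.comp_aestronglyMeasurable
      (hB.aestronglyMeasurable.prodMk (Lp.aestronglyMeasurable f)))
    (Eventually.of_forall fun t => ((B t).le_opNorm _).trans
      (mul_le_mul_of_nonneg_right (hΛ t) (norm_nonneg _)))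

omit [CompleteSpace V] in
/-- Multiplication by a bounded continuous family of operators. -/
lemma exists_mulOp {B : ℝ → V →L[ℂ] V} (hB : Continuous B) {Λ : ℝ} (hΛ : ∀ t, ‖B t‖ ≤ Λ) :
    ∃ 𝓑 : LL V →L[ℂ] LL V, ∀ f, 𝓑 f =ᵐ[volume] fun t => B t (f t) := by
  let L : LL V →ₗ[ℂ] LL V :=
    { toFun := fun f => (memLp_mul hB hΛ f).toLp _
      map_add' := fun f g => by
        rw [← MemLp.toLp_add]
        refine MemLp.toLp_congr _ _ ?_
        filter_upwards [Lp.coeFn_add f g] with x hx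
        simp only [hx, map_add, Pi.add_apply]
      map_smul' := fun c f => by
        rw [RingHom.id_apply, ← MemLp.toLp_const_smul]
        refine MemLp.toLp_congr _ _ ?_
        filter_upwards [Lp.coeFn_smul c f] with x hx
        simp only [hx, map_smul, Pi.smul_apply] }
  have hL : ∀ f, L f =ᵐ[volume] fun t => B t (f t) := fun f => (memLp_mul hB hΛ f).coeFn_toLp
  refine ⟨L.mkContinuous Λ fun f => Lp.norm_le_mul_norm_of_ae_le_mul ?_, hL⟩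
  filter_upwards [hL f] with t ht
  rw [ht]
  exact ((B t).le_opNorm _).trans (mul_le_mul_of_nonneg_right (hΛ t) (norm_nonneg _))

lemma exists_riesz : ∃ R : (V →L⋆[ℂ] ℂ) →L[ℂ] V,
    (∀ ξ v, ⟪v, R ξ⟫_ℂ = ξ v) ∧ ∀ ξ, ‖R ξ‖ ≤ ‖ξ‖ := by
  have h : ∀ ξ : V →L⋆[ℂ] ℂ, ∃ y : V, ∀ v, ⟪v, y⟫_ℂ = ξ v := by
    intro ξ
    let η : V →L[ℂ] ℂ := (starL ℂ : ℂ ≃L⋆[ℂ] ℂ).toContinuousLinearMap.comp ξ
    refine ⟨(InnerProductSpace.toDual ℂ V).symm η, fun v => ?_⟩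
    rw [← inner_conj_symm, InnerProductSpace.toDual_symm_apply]
    simp [η]
  choose r hr using h
  let L : (V →L⋆[ℂ] ℂ) →ₗ[ℂ] V :=
    { toFun := r
      map_add' := fun ξ η => ext_inner_left ℂ fun v => by
        rw [inner_add_right, hr, hr, hr, add_apply]
      map_smul' := fun c ξ => ext_inner_left ℂ fun v => by
        rw [RingHom.id_apply, inner_smul_right, hr, hr, smul_apply, smul_eq_mul] }
  have hn : ∀ ξ, ‖L ξ‖ ≤ 1 * ‖ξ‖ := by
    intro ξ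
    have h1 : ‖r ξ‖ * ‖r ξ‖ ≤ ‖ξ‖ * ‖r ξ‖ := by
      rw [← inner_self_eq_norm_mul_norm (𝕜 := ℂ), hr]
      exact (RCLike.re_le_norm _).trans (ξ.le_opNorm _)
    rw [one_mul]
    change ‖r ξ‖ ≤ ‖ξ‖
    rcases (norm_nonneg (r ξ)).eq_or_lt with h0 | h0
    · rw [← h0]
      exact norm_nonneg _
    · exact le_of_mul_le_mul_right h1 h0
  exact ⟨L.mkContinuous 1 hn, hr, fun ξ => by simpa using hn ξ⟩

lemma exists_douglas {E : Type} [AddCommGroup E] [Module ℂ E] (A : E →ₗ[ℂ] H) (ℓ : E →ₗ[ℂ] ℂ)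
    {C : ℝ} (h : ∀ x, ‖ℓ x‖ ≤ C * ‖A x‖) :
    ∃ γ : H, (∀ x, ⟪γ, A x⟫_ℂ = ℓ x) ∧ ∀ z, (∀ x, ⟪z, A x⟫_ℂ = 0) → ⟪z, γ⟫_ℂ = 0 := by
  set Y := (LinearMap.range A).topologicalClosure with hY
  have : CompleteSpace Y := (Submodule.isClosed_topologicalClosure _).completeSpace_coe
  set e : E →ₗ[ℂ] Y := A.codRestrict Y fun x => Submodule.le_topologicalClosure _ ⟨x, rfl⟩ with he
  have hd : DenseRange e := by
    rw [DenseRange, Subtype.dense_iff]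
    intro w hw
    refine closure_mono ?_ (show w ∈ closure (LinearMap.range A : Set H) from hw)
    rintro a ⟨x, rfl⟩
    exact ⟨e x, ⟨x, rfl⟩, rfl⟩
  refine ⟨(InnerProductSpace.toDual ℂ Y).symm (ℓ.extendOfNorm e), fun x => ?_, fun z hz => ?_⟩
  · have := InnerProductSpace.toDual_symm_apply (𝕜 := ℂ) (x := e x) (y := ℓ.extendOfNorm e)
    rw [LinearMap.extendOfNorm_eq hd ⟨C, h⟩] at this
    exact this
  · have hker : Y ≤ LinearMap.ker (innerSL ℂ z : H →ₗ[ℂ] ℂ) := by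
      refine Submodule.topologicalClosure_minimal _ ?_ (innerSL ℂ z).isClosed_ker
      rintro a ⟨x, rfl⟩
      exact hz x
    exact hker (Subtype.mem _)

/-- Functions vanishing on `[T, ∞)`. -/
def leftSub (E : Type) [NormedAddCommGroup E] [InnerProductSpace ℂ E] (T : ℝ) :
    Submodule ℂ (LL E) where
  carrier := {x | ∀ᵐ t, T ≤ t → x t = 0}
  zero_mem' := by
    filter_upwards [Lp.coeFn_zero E 2 (volume : Measure ℝ)] with t ht _
    exact ht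
  add_mem' := by
    intro a b ha hb
    filter_upwards [ha, hb, Lp.coeFn_add a b] with t h1 h2 h3 ht
    rw [h3, Pi.add_apply, h1 ht, h2 ht, add_zero]
  smul_mem' := by
    intro c a ha
    filter_upwards [ha, Lp.coeFn_smul c a] with t h1 h3 ht
    rw [h3, Pi.smul_apply, h1 ht, smul_zero]

omit [CompleteSpace V] in
lemma inner_eq_zero_of_left {T : ℝ} {a b : LL V} (ha : a ∈ leftSub V T)
    (hb : ∀ᵐ t, t < T → b t = 0) : ⟪a, b⟫_ℂ = 0 := by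
  rw [L2.inner_def]
  refine integral_eq_zero_of_ae ?_
  filter_upwards [ha, hb] with t h1 h2
  rcases lt_or_ge t T with ht | ht
  · rw [h2 ht, inner_zero_right, Pi.zero_apply]
  · rw [h1 ht, inner_zero_left, Pi.zero_apply]

omit [CompleteSpace V] in
lemma exists_left (T : ℝ) (a : LL V) :
    ∃ l ∈ leftSub V T, ∃ ρ : LL V, a = l + ρ ∧ ∀ᵐ t, t < T → ρ t = 0 := by
  have h := (Lp.memLp a).indicator (measurableSet_Iio (a := T))
  refine ⟨h.toLp, ?_, a - h.toLp, by abel, ?_⟩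
  · filter_upwards [h.coeFn_toLp] with t h1 ht
    rw [h1, indicator_of_notMem (by simpa using ht)]
  · filter_upwards [h.coeFn_toLp, Lp.coeFn_sub a h.toLp] with t h1 h2 ht
    rw [h2, Pi.sub_apply, h1, indicator_of_mem (by simpa using ht), sub_self]

lemma inner_dif_primitive (val : V →L[ℂ] H) {T h : ℝ} (h0 : 0 < h) {u g x : LL V}
    (hgi : Integrable g) (hx : x ∈ leftSub V T)
    (hy : ∀ᵐ t, t < T → ∀ v, ⟪val v, val (u t)⟫_ℂ = ⟪v, ∫ s in Iic t, g s⟫_ℂ) :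
    ⟪val.compLpL 2 volume x, dif (sh H h) 0 (val.compLpL 2 volume u)⟫_ℂ =
      ∫ r in (-h)..0, ⟪x, shiftL2 g r⟫_ℂ := by
  set ρ : Measure ℝ := volume.restrict (Ioc (-h) 0) with hρ
  have hx2 : Integrable fun t => ‖x t‖ ^ 2 := (Lp.memLp x).integrable_norm_pow (by norm_num)
  have hg2 : Integrable fun t => ‖g t‖ ^ 2 := (Lp.memLp g).integrable_norm_pow (by norm_num)
  have hxm := Lp.stronglyMeasurable x
  have hgm := Lp.stronglyMeasurable g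
  have hint : Integrable (Function.uncurry fun t r => ⟪x t, g (t + r)⟫_ℂ)
      ((volume : Measure ℝ).prod ρ) := by
    have i1 : Integrable (fun p : ℝ × ℝ => ‖g (p.1 + p.2)‖ ^ 2) ((volume : Measure ℝ).prod ρ) :=
      (measurePreserving_prod_add_swap_right (volume : Measure ℝ) ρ).integrable_comp_of_integrable
        (hg2.comp_snd ρ)
    have i2 : Integrable (fun p : ℝ × ℝ => ‖x p.1‖ ^ 2) ((volume : Measure ℝ).prod ρ) :=
      hx2.comp_fst ρ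
    refine Integrable.mono' (i1.add i2) ?_ (Eventually.of_forall fun p => ?_)
    · exact ((hxm.comp_measurable measurable_fst).inner
        (hgm.comp_measurable measurable_add)).aestronglyMeasurable
    · refine (norm_inner_le_norm _ _).trans ?_
      simp only [Pi.add_apply]
      nlinarith [sq_nonneg (‖g (p.1 + p.2)‖ - ‖x p.1‖), norm_nonneg (g (p.1 + p.2)),
        norm_nonneg (x p.1)]
  have hswap := integral_integral_swap hint
  have hR : ∫ r, ∫ t, ⟪x t, g (t + r)⟫_ℂ ∂volume ∂ρ = ∫ r in (-h)..0, ⟪x, shiftL2 g r⟫_ℂ := by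
    rw [intervalIntegral.integral_of_le (by linarith)]
    refine integral_congr_ae (Eventually.of_forall fun r => ?_)
    simp only
    rw [L2.inner_def]
    refine integral_congr_ae ?_
    filter_upwards [coeFn_shiftL2 g r] with t ht
    rw [ht]
  rw [← hR, ← hswap, L2.inner_def]
  refine integral_congr_ae ?_
  have e0 : dif (sh H h) 0 (val.compLpL 2 volume u) =
      val.compLpL 2 volume u - sh H h (val.compLpL 2 volume u) := by
    rw [dif_apply, pow_zero, pow_one]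
  rw [e0]
  filter_upwards [hx, hy, ae_shift hy h, val.coeFn_compLpL x, val.coeFn_compLpL u,
    ae_shift (val.coeFn_compLpL u) h, coeFn_sh h (val.compLpL 2 volume u),
    Lp.coeFn_sub (val.compLpL 2 volume u) (sh H h (val.compLpL 2 volume u))]
    with t h1 h2 h3 h4 h5 h6 h7 h8
  rw [h8, Pi.sub_apply, h7, h6, h5, h4]
  rcases lt_or_ge t T with ht | ht
  · have e3 : (∫ s in Iic t, g s) - ∫ s in Iic (t - h), g s = ∫ r in (-h)..0, g (t + r) := by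
      rw [intervalIntegral.integral_Iic_sub_Iic hgi.integrableOn hgi.integrableOn,
        intervalIntegral.integral_comp_add_left (fun s => g s) t, add_zero, sub_eq_add_neg]
    rw [inner_sub_right, h2 ht, h3 (by linarith), ← inner_sub_right, e3,
      intervalIntegral.integral_of_le (by linarith),
      ← integral_inner (hgi.comp_add_left t).integrableOn]
  · simp [h1 ht]

lemma avg_close (val : V →L[ℂ] H) {T : ℝ} {u g : LL V} (hgi : Integrable g)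
    (hy : ∀ᵐ t, t < T → ∀ v, ⟪val v, val (u t)⟫_ℂ = ⟪v, ∫ s in Iic t, g s⟫_ℂ) {ε : ℝ}
    (hε : 0 < ε) : ∃ N : ℕ, ∀ x ∈ leftSub V T,
      ‖⟪x, g⟫_ℂ - (2 : ℂ) ^ N * ⟪val.compLpL 2 volume x,
        dif (sh H ((1 / 2) ^ N)) 0 (val.compLpL 2 volume u)⟫_ℂ‖ ≤ ε * ‖x‖ := by
  have h0 : shiftL2 g 0 = g := by
    refine Lp.ext ?_
    filter_upwards [coeFn_shiftL2 g 0] with t ht
    rw [ht, add_zero]
  obtain ⟨δ, hδ, hball⟩ := Metric.continuous_iff.1 (continuous_shiftL2 g) 0 ε hε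
  obtain ⟨N, hN⟩ := exists_pow_lt_of_lt_one hδ (by norm_num : (1 / 2 : ℝ) < 1)
  refine ⟨N, fun x hx => ?_⟩
  set h : ℝ := (1 / 2) ^ N with hh
  have hpos : 0 < h := by positivity
  have hone : (2 : ℂ) ^ N * (h : ℂ) = 1 := by
    rw [hh]
    push_cast
    rw [← mul_pow]
    norm_num
  have hone' : (2 : ℝ) ^ N * h = 1 := by
    rw [hh, ← mul_pow]
    norm_num
  have hc : Continuous fun r => ⟪x, shiftL2 g r⟫_ℂ := continuous_const.inner (continuous_shiftL2 g)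
  have e : ⟪x, g⟫_ℂ - (2 : ℂ) ^ N * ∫ r in (-h)..0, ⟪x, shiftL2 g r⟫_ℂ =
      (2 : ℂ) ^ N * ∫ r in (-h)..0, (⟪x, g⟫_ℂ - ⟪x, shiftL2 g r⟫_ℂ) := by
    rw [intervalIntegral.integral_sub intervalIntegrable_const (hc.intervalIntegrable _ _),
      intervalIntegral.integral_const, mul_sub, sub_neg_eq_add, zero_add, Complex.real_smul,
      ← mul_assoc, hone, one_mul]
  rw [inner_dif_primitive val hpos hgi hx hy, e, norm_mul, norm_pow, Complex.norm_ofNat]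
  have hb := intervalIntegral.norm_integral_le_of_norm_le_const (a := -h) (b := 0)
    (C := ε * ‖x‖) (f := fun r => ⟪x, g⟫_ℂ - ⟪x, shiftL2 g r⟫_ℂ) (fun r hr => by
      rw [uIoc_of_le (by linarith)] at hr
      have h1 := hball r (by
        rw [dist_zero_right, Real.norm_eq_abs, abs_of_nonpos hr.2]
        linarith [hr.1])
      rw [h0, dist_comm, dist_eq_norm] at h1
      rw [← inner_sub_right, mul_comm]
      exact (norm_inner_le_norm _ _).trans (mul_le_mul_of_nonneg_left h1.le (norm_nonneg _)))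
  rw [sub_neg_eq_add, zero_add, abs_of_pos hpos] at hb
  calc _ ≤ 2 ^ N * (ε * ‖x‖ * h) := by gcongr
    _ = ε * ‖x‖ * (2 ^ N * h) := by ring
    _ = _ := by rw [hone', mul_one]

lemma compLpL_mem_left (val : V →L[ℂ] H) {T : ℝ} {x : LL V} (hx : x ∈ leftSub V T) :
    val.compLpL 2 volume x ∈ leftSub H T := by
  filter_upwards [hx, val.coeFn_compLpL x] with t h1 h2 ht
  rw [h2, h1 ht, map_zero]

/-- The main estimate on the line. -/
theorem line_bound (val : V →L[ℂ] H) {T : ℝ} {B : ℝ → V →L[ℂ] V} (hB : Continuous B) {Λ : ℝ}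
    (hΛ : ∀ t, ‖B t‖ ≤ Λ) {c : ℝ} (hc : 0 < c) (hco : ∀ t v, c * ‖v‖ ^ 2 ≤ (⟪v, B t v⟫_ℂ).re)
    {w : ℕ → ℝ} (hw : ∀ (j : ℕ) t, ‖B t - B (t - (1 / 2) ^ j)‖ ≤ w j) {W : ℝ}
    (hW : ∀ N, ∑ j ∈ Finset.range (N + 1), 2 ^ j * w j ^ 2 ≤ W) {u g : LL V} {F : LL H}
    (hgi : Integrable g) (hu : u ∈ leftSub V T)
    (hy : ∀ᵐ t, t < T → ∀ v, ⟪val v, val (u t)⟫_ℂ = ⟪v, ∫ s in Iic t, g s⟫_ℂ)
    (heq : ∀ᵐ t, ∀ v, ⟪v, g t⟫_ℂ + ⟪v, B t (u t)⟫_ℂ = ⟪val v, F t⟫_ℂ) :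
    ∃ C : ℝ, ∀ x ∈ leftSub V T, ‖⟪x, g⟫_ℂ‖ ≤ C * ‖val.compLpL 2 volume x‖ := by
  obtain ⟨𝓑, h𝓑⟩ := exists_mulOp hB hΛ
  set 𝓙 : LL V →L[ℂ] LL H := val.compLpL 2 volume with h𝓙
  have hW0 : 0 ≤ W := le_trans (Finset.sum_nonneg fun j _ => by positivity) (hW 0)
  have hcoL : ∀ x, c * ‖x‖ ^ 2 ≤ (⟪x, 𝓑 x⟫_ℂ).re := by
    intro x
    have e1 : ‖x‖ ^ 2 = ∫ t, (⟪x t, x t⟫_ℂ).re := by
      rw [← inner_self_eq_norm_sq (𝕜 := ℂ), L2.inner_def]
      exact (integral_re (L2.integrable_inner (𝕜 := ℂ) x x)).symm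
    have e2 : (⟪x, 𝓑 x⟫_ℂ).re = ∫ t, (⟪x t, 𝓑 x t⟫_ℂ).re := by
      rw [L2.inner_def]
      exact (integral_re (L2.integrable_inner (𝕜 := ℂ) x (𝓑 x))).symm
    rw [e1, e2, ← integral_const_mul]
    refine integral_mono_ae ((L2.integrable_inner (𝕜 := ℂ) x x).re.const_mul c)
      (L2.integrable_inner (𝕜 := ℂ) x (𝓑 x)).re ?_
    filter_upwards [h𝓑 x] with t ht
    rw [ht]
    have : (⟪x t, x t⟫_ℂ).re = ‖x t‖ ^ 2 := inner_self_eq_norm_sq (𝕜 := ℂ) _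
    rw [this]
    exact hco t _
  have heqL : ∀ x, ⟪x, g⟫_ℂ + ⟪x, 𝓑 u⟫_ℂ = ⟪𝓙 x, F⟫_ℂ := by
    intro x
    rw [L2.inner_def, L2.inner_def, L2.inner_def,
      ← integral_add (L2.integrable_inner x g) (L2.integrable_inner x (𝓑 u))]
    refine integral_congr_ae ?_
    filter_upwards [heq, h𝓑 u, val.coeFn_compLpL x] with t h1 h2 h3
    rw [h2, h3, h1]
  have hJ : ∀ r x, 𝓙 (sh V r x) = sh H r (𝓙 x) := by
    intro r x
    refine Lp.ext ?_
    filter_upwards [val.coeFn_compLpL (sh V r x), coeFn_sh r x, coeFn_sh r (𝓙 x),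
      ae_shift (val.coeFn_compLpL x) r] with t h1 h2 h3 h4
    rw [h1, h2, h3, h4]
  have hcomm : ∀ (j : ℕ) x, ‖𝓑 (sh V ((1 / 2) ^ j) x) - sh V ((1 / 2) ^ j) (𝓑 x)‖ ≤
      w j * ‖x‖ := by
    intro j x
    rw [← norm_sh ((1 / 2) ^ j) x]
    refine Lp.norm_le_mul_norm_of_ae_le_mul ?_
    filter_upwards [h𝓑 (sh V ((1 / 2) ^ j) x), coeFn_sh ((1 / 2) ^ j) x,
      coeFn_sh ((1 / 2) ^ j) (𝓑 x), ae_shift (h𝓑 x) ((1 / 2) ^ j),
      Lp.coeFn_sub (𝓑 (sh V ((1 / 2) ^ j) x)) (sh V ((1 / 2) ^ j) (𝓑 x))] with t h1 h2 h3 h4 h5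
    rw [h5, Pi.sub_apply, h1, h3, h4, h2, ← sub_apply]
    exact (ContinuousLinearMap.le_opNorm _ _).trans
      (mul_le_mul_of_nonneg_right (hw j t) (norm_nonneg _))
  obtain ⟨C, hC⟩ := discrete_bound 𝓙 𝓑 F hc hW0 hcoL
  refine ⟨C, fun x hx => le_of_forall_pos_le_add fun η hη => ?_⟩
  set K := ‖x‖ * ‖𝓑‖ / c + 1 with hK
  have hK0 : 0 < K := by positivity
  obtain ⟨N, hN⟩ := avg_close val hgi hy (div_pos hη hK0)
  set S := sh H ((1 / 2) ^ N) with hS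
  have hre : ∀ z : ℂ, ((2 : ℂ) ^ N * z).re = 2 ^ N * z.re := fun z => by
    have : (2 : ℂ) ^ N = ((2 ^ N : ℝ) : ℂ) := by push_cast; rfl
    rw [this, Complex.re_ofReal_mul]
  have hp : (0 : ℝ) < 2 ^ N := by positivity
  -- the implicit Euler scheme
  set L : LL V →L[ℂ] LL V :=
    ((2 : ℂ) ^ N) • (ContinuousLinearMap.adjoint 𝓙).comp ((dif S 0).comp 𝓙) + 𝓑 with hL
  have hLa : ∀ v a, ⟪v, L a⟫_ℂ = (2 : ℂ) ^ N * ⟪𝓙 v, dif S 0 (𝓙 a)⟫_ℂ + ⟪v, 𝓑 a⟫_ℂ := by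
    intro v a
    rw [hL, add_apply, smul_apply, inner_add_right, inner_smul_right,
      ContinuousLinearMap.comp_apply, ContinuousLinearMap.adjoint_inner_right,
      ContinuousLinearMap.comp_apply]
  have hLco : ∀ a, c * ‖a‖ ^ 2 ≤ (⟪a, L a⟫_ℂ).re := by
    intro a
    rw [hLa, Complex.add_re, hre]
    linarith [mul_nonneg hp.le (re_inner_dif_nonneg (sh_mem_unitary ((1 / 2) ^ N)) 0 (𝓙 a)),
      hcoL a]
  have hunit : IsUnit L := L.isUnit_of_forall_le_norm_inner_map (c := ⟨c, hc.le⟩) hc fun a => by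
    rw [norm_inner_symm, mul_comm]
    exact (hLco a).trans (Complex.re_le_norm _)
  obtain ⟨a, ha⟩ := (ContinuousLinearMap.isUnit_iff_bijective.1 hunit).2
    (ContinuousLinearMap.adjoint 𝓙 F)
  have haeq : ∀ v, (2 : ℂ) ^ N * ⟪𝓙 v, dif S 0 (𝓙 a)⟫_ℂ + ⟪v, 𝓑 a⟫_ℂ = ⟪𝓙 v, F⟫_ℂ := by
    intro v
    rw [← hLa, ha, ContinuousLinearMap.adjoint_inner_right]
  have hpow : ∀ i < N, ((2 ^ i : ℕ) : ℝ) * (1 / 2) ^ N = (1 / 2) ^ (N - i) := by
    intro i hi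
    obtain ⟨k, rfl⟩ := Nat.exists_eq_add_of_le hi.le
    rw [Nat.add_sub_cancel_left, pow_add, ← mul_assoc]
    push_cast
    rw [← mul_pow]
    norm_num
  have hbound : 2 ^ N * ‖dif S 0 (𝓙 a)‖ ≤ C := by
    refine hC (sh V ((1 / 2) ^ N)) S N (fun i => w (N - i)) a (sh_mem_unitary _)
      (sh_mem_unitary _) (hJ _) (fun i hi y => ?_) ?_ haeq
    · rw [sh_pow, hpow i hi]
      exact hcomm _ y
    · refine le_trans ?_ (hW N)
      rw [← Finset.sum_flip, Finset.sum_range_succ]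
      refine le_add_of_le_of_nonneg (le_of_eq (Finset.sum_congr rfl fun i hi => ?_))
        (by positivity)
      obtain ⟨k, rfl⟩ := Nat.exists_eq_add_of_le (Finset.mem_range.1 hi).le
      rw [Nat.add_sub_cancel_left, pow_add, mul_comm ((2 : ℝ) ^ i), mul_assoc ((2 : ℝ) ^ k),
        ← mul_pow]
      norm_num
  -- the error
  obtain ⟨l, hl, ρ, hlρ, hρ⟩ := exists_left T a
  have hρB : ∀ᵐ t, t < T → 𝓑 ρ t = 0 := by
    filter_upwards [hρ, h𝓑 ρ] with t h1 h2 ht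
    rw [h2, h1 ht, map_zero]
  have hρJ : ∀ᵐ t, t < T → dif S 0 (𝓙 ρ) t = 0 := by
    have e0 : dif S 0 (𝓙 ρ) = 𝓙 ρ - S (𝓙 ρ) := by rw [dif_apply, pow_zero, pow_one]
    rw [e0]
    filter_upwards [hρ, ae_shift hρ ((1 / 2) ^ N), val.coeFn_compLpL ρ,
      ae_shift (val.coeFn_compLpL ρ) ((1 / 2) ^ N), coeFn_sh ((1 / 2) ^ N) (𝓙 ρ),
      Lp.coeFn_sub (𝓙 ρ) (S (𝓙 ρ))] with t h1 h2 h3 h4 h5 h6 ht
    have : (0 : ℝ) < (1 / 2) ^ N := by positivity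
    rw [h6, Pi.sub_apply, h5, h4, h3, h1 ht, h2 (by linarith), sub_self]
  set e := l - u with he
  have heL : e ∈ leftSub V T := sub_mem hl hu
  have hae : a = e + u + ρ := by rw [he, hlρ]; abel
  have hen : ‖e‖ ≤ η / K / c := by
    have h1 := haeq e
    have h2 := heqL e
    have h3 := hN e heL
    have h4 := hLco e
    rw [hae] at h1
    simp only [map_add, inner_add_right] at h1
    rw [inner_eq_zero_of_left heL hρB,
      inner_eq_zero_of_left (compLpL_mem_left val heL) hρJ] at h1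
    have h5 : ⟪e, L e⟫_ℂ = ⟪e, g⟫_ℂ - (2 : ℂ) ^ N * ⟪𝓙 e, dif S 0 (𝓙 u)⟫_ℂ := by
      rw [hLa]
      linear_combination h1 - h2
    rw [h5] at h4
    have h6 := h4.trans ((Complex.re_le_norm _).trans h3)
    rw [le_div_iff₀ hc]
    rcases (norm_nonneg e).eq_or_lt with h0 | h0
    · rw [← h0, zero_mul]
      positivity
    · nlinarith
  have h1 := haeq x
  have h2 := heqL x
  have h3 : ⟪x, 𝓑 a⟫_ℂ = ⟪x, 𝓑 e⟫_ℂ + ⟪x, 𝓑 u⟫_ℂ := by
    rw [hae]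
    simp only [map_add, inner_add_right]
    rw [inner_eq_zero_of_left hx hρB, add_zero]
  have h4 : ⟪x, g⟫_ℂ = (2 : ℂ) ^ N * ⟪𝓙 x, dif S 0 (𝓙 a)⟫_ℂ + ⟪x, 𝓑 e⟫_ℂ := by
    linear_combination h2 - h1 + h3
  have h5 : ‖(2 : ℂ) ^ N * ⟪𝓙 x, dif S 0 (𝓙 a)⟫_ℂ‖ ≤ C * ‖𝓙 x‖ := by
    rw [norm_mul, norm_pow, Complex.norm_ofNat]
    calc _ ≤ 2 ^ N * (‖𝓙 x‖ * ‖dif S 0 (𝓙 a)‖) := by gcongr; exact norm_inner_le_norm _ _
      _ = 2 ^ N * ‖dif S 0 (𝓙 a)‖ * ‖𝓙 x‖ := by ring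
      _ ≤ _ := by gcongr
  have h6 : ‖⟪x, 𝓑 e⟫_ℂ‖ ≤ η := by
    calc _ ≤ ‖x‖ * ‖𝓑 e‖ := norm_inner_le_norm _ _
      _ ≤ ‖x‖ * (‖𝓑‖ * (η / K / c)) := by
          gcongr
          exact (𝓑.le_opNorm e).trans (mul_le_mul_of_nonneg_left hen (norm_nonneg _))
      _ = (‖x‖ * ‖𝓑‖ / c) * (η / K) := by ring
      _ ≤ K * (η / K) := by gcongr; linarith
      _ = η := by field_simp
  rw [h4]
  exact (norm_add_le _ _).trans (add_le_add h5 h6)

end Pool.Agent.MP_954c34_an.Sharp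

end
end
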