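import Pool.Agent.Mg.F954c34.Gc4f9e6
import Pool.Agent.Mg.F954c34a.G1288d5

set_option linter.all false

section

open MeasureTheory Set Filter Topology
open scoped ContDiff ComplexConjugate InnerProductSpace BoundedContinuousFunction

set_option linter.unusedSectionVars false
set_option maxSynthPendingDepth 3

noncomputable section

namespace Pool.Agent.MP_954c34_an.Sharp

variable {E : Type} [NormedAddCommGroup E] [InnerProductSpace ℝ E] [FiniteDimensional ℝ E]
  [MeasurableSpace E] [BorelSpace E] {n : ℕ}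

/-- Size `M` and frequency `fr`: bounds for a function and its first and second differences. -/
structure Reg (M fr : ℝ) (F : E → ℝ) : Prop where
  sup : ∀ x, |F x| ≤ M
  one : ∀ x y, |F (x + y) - F x| ≤ M * (fr * ‖y‖)
  two : ∀ x y, |F (x + y) - 2 * F x + F (x - y)| ≤ M * (fr * ‖y‖) ^ 2

lemma Reg.nonneg {M fr : ℝ} {F : E → ℝ} (h : Reg M fr F) : 0 ≤ M := (abs_nonneg _).trans (h.sup 0)

lemma Reg.mono {M M' fr fr' : ℝ} {F : E → ℝ} (h : Reg M fr F) (hM : M ≤ M') (h0 : 0 ≤ fr)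
    (hfr : fr ≤ fr') : Reg M' fr' F := by
  have := h.nonneg
  refine ⟨fun x => (h.sup x).trans hM, fun x y => (h.one x y).trans ?_,
    fun x y => (h.two x y).trans ?_⟩
  · gcongr
    linarith
  · gcongr
    linarith

lemma Reg.add {M M' fr : ℝ} {F G : E → ℝ} (h : Reg M fr F) (h' : Reg M' fr G) :
    Reg (M + M') fr fun x => F x + G x := by
  refine ⟨fun x => (abs_add_le _ _).trans (add_le_add (h.sup x) (h'.sup x)), fun x y => ?_,
    fun x y => ?_⟩
  · have e : F (x + y) + G (x + y) - (F x + G x) = (F (x + y) - F x) + (G (x + y) - G x) := by ring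
    rw [e, add_mul]
    exact (abs_add_le _ _).trans (add_le_add (h.one x y) (h'.one x y))
  · have e : F (x + y) + G (x + y) - 2 * (F x + G x) + (F (x - y) + G (x - y)) =
        (F (x + y) - 2 * F x + F (x - y)) + (G (x + y) - 2 * G x + G (x - y)) := by ring
    rw [e, add_mul]
    exact (abs_add_le _ _).trans (add_le_add (h.two x y) (h'.two x y))

lemma Reg.const_mul {M fr : ℝ} {F : E → ℝ} (h : Reg M fr F) (c : ℝ) :
    Reg (|c| * M) fr fun x => c * F x := by
  refine ⟨fun x => ?_, fun x y => ?_, fun x y => ?_⟩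
  · rw [abs_mul]
    exact mul_le_mul_of_nonneg_left (h.sup x) (abs_nonneg c)
  · rw [← mul_sub, abs_mul, mul_assoc]
    exact mul_le_mul_of_nonneg_left (h.one x y) (abs_nonneg c)
  · have e : c * F (x + y) - 2 * (c * F x) + c * F (x - y) =
        c * (F (x + y) - 2 * F x + F (x - y)) := by ring
    rw [e, abs_mul, mul_assoc]
    exact mul_le_mul_of_nonneg_left (h.two x y) (abs_nonneg c)

lemma abs_mul_le_mul {a b A B : ℝ} (ha : |a| ≤ A) (hb : |b| ≤ B) : |a * b| ≤ A * B := by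
  rw [abs_mul]
  exact mul_le_mul ha hb (abs_nonneg _) ((abs_nonneg _).trans ha)

lemma Reg.one' {M fr : ℝ} {F : E → ℝ} (h : Reg M fr F) (x y : E) :
    |F (x - y) - F x| ≤ M * (fr * ‖y‖) := by
  simpa only [sub_eq_add_neg, norm_neg] using h.one x (-y)

lemma Reg.mul {M M' fr : ℝ} {F G : E → ℝ} (h : Reg M fr F) (h' : Reg M' fr G) (hfr : 0 ≤ fr) :
    Reg (4 * (M * M')) fr fun x => F x * G x := by
  have hM := mul_nonneg h.nonneg h'.nonneg
  refine ⟨fun x => (abs_mul_le_mul (h.sup x) (h'.sup x)).trans (by linarith), fun x y => ?_,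
    fun x y => ?_⟩
  · have e : F (x + y) * G (x + y) - F x * G x =
        (F (x + y) - F x) * G (x + y) + F x * (G (x + y) - G x) := by ring
    rw [e]
    refine (abs_add_le _ _).trans ((add_le_add (abs_mul_le_mul (h.one x y) (h'.sup _))
      (abs_mul_le_mul (h.sup x) (h'.one x y))).trans ?_)
    nlinarith [mul_nonneg hM (mul_nonneg hfr (norm_nonneg y))]
  · have e : F (x + y) * G (x + y) - 2 * (F x * G x) + F (x - y) * G (x - y) =
        ((F (x + y) - 2 * F x + F (x - y)) * G x + F x * (G (x + y) - 2 * G x + G (x - y))) +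
        ((F (x + y) - F x) * (G (x + y) - G x) + (F (x - y) - F x) * (G (x - y) - G x)) := by ring
    rw [e]
    refine (abs_add_le _ _).trans ((add_le_add ((abs_add_le _ _).trans (add_le_add
      (abs_mul_le_mul (h.two x y) (h'.sup x)) (abs_mul_le_mul (h.sup x) (h'.two x y))))
      ((abs_add_le _ _).trans (add_le_add (abs_mul_le_mul (h.one x y) (h'.one x y))
        (abs_mul_le_mul (h.one' x y) (h'.one' x y))))).trans (le_of_eq ?_))
    ring

lemma exists_reg {K : Set E} (hK : IsCompact K) {h : E → ℝ} (hh : Test K h) :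
    ∃ M, Reg M 1 h := by
  obtain ⟨C₀, hC₀, h0⟩ := hh.exists_bound hK
  obtain ⟨L₁, h1⟩ := ContDiff.lipschitzWith_of_hasCompactSupport (hh.compact hK) hh.smooth (by simp)
  obtain ⟨L₂, h2⟩ := ContDiff.lipschitzWith_of_hasCompactSupport ((hh.compact hK).fderiv ℝ)
    (hh.smooth.fderiv_right (m := ∞) (by simp)) (by simp)
  have l1 := L₁.2
  have l2 := L₂.2
  refine ⟨C₀ + L₁ + L₂, fun x => (h0 x).trans (by linarith), fun x y => ?_, fun x y => ?_⟩
  · have := h1.dist_le_mul (x + y) x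
    rw [Real.dist_eq, dist_eq_norm, add_sub_cancel_left] at this
    rw [one_mul]
    exact this.trans (mul_le_mul_of_nonneg_right (by linarith) (norm_nonneg _))
  · have hd : ∀ z, HasFDerivAt (fun z => h (z + y) - h z) (fderiv ℝ h (z + y) - fderiv ℝ h z) z :=
      fun z => ((hasFDerivAt_comp_add_right y).2
        (hh.differentiable (z + y)).hasFDerivAt).fun_sub (hh.differentiable z).hasFDerivAt
    have := convex_univ.norm_image_sub_le_of_norm_hasFDerivWithin_le (C := L₂ * ‖y‖)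
      (fun z _ => (hd z).hasFDerivWithinAt) (fun z _ => by
        have := h2.dist_le_mul (z + y) z
        rwa [dist_eq_norm, dist_eq_norm, add_sub_cancel_left] at this)
      (mem_univ (x - y)) (mem_univ x)
    rw [sub_add_cancel, sub_sub_cancel, Real.norm_eq_abs] at this
    have e : h (x + y) - 2 * h x + h (x - y) = h (x + y) - h x - (h x - h (x - y)) := by ring
    rw [e, one_mul]
    refine this.trans ?_
    nlinarith [mul_nonneg (add_nonneg hC₀ l1) (sq_nonneg ‖y‖)]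

variable {b : OrthonormalBasis (Fin n) ℝ E} {i₀ : Fin n}

lemma abs_crd_le (y : E) : |crd b i₀ y| ≤ ‖y‖ := by
  have := abs_real_inner_le_norm (b i₀) y
  rwa [b.orthonormal.1, one_mul] at this

lemma abs_second_le {c v r : ℝ} (hc : |c| ≤ 1) (hv : |v| ≤ r) :
    |2 * c * (Real.cos v - 1)| ≤ 1 * r ^ 2 := by
  have h1 := Real.one_sub_sq_div_two_le_cos (x := v)
  have h2 := Real.cos_le_one v
  have h3 : v ^ 2 ≤ r ^ 2 := by
    rw [← sq_abs]
    exact pow_le_pow_left₀ (abs_nonneg _) hv 2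
  rw [abs_mul, abs_mul, abs_two, abs_of_nonpos (by linarith : Real.cos v - 1 ≤ 0)]
  nlinarith [abs_nonneg c]

lemma abs_mul_crd_le {fr : ℝ} (hfr : 0 ≤ fr) (y : E) : |fr * crd b i₀ y| ≤ fr * ‖y‖ := by
  rw [abs_mul, abs_of_nonneg hfr]
  exact mul_le_mul_of_nonneg_left (abs_crd_le y) hfr

lemma reg_cos {fr : ℝ} (hfr : 0 ≤ fr) : Reg 1 fr fun x : E => Real.cos (fr * crd b i₀ x) := by
  refine ⟨fun x => Real.abs_cos_le_one _, fun x y => ?_, fun x y => ?_⟩
  · refine (Real.abs_cos_sub_cos_le _ _).trans ?_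
    rw [map_add, mul_add, add_sub_cancel_left, one_mul]
    exact abs_mul_crd_le hfr y
  · rw [map_add, map_sub, mul_add, mul_sub, Real.cos_add, Real.cos_sub]
    refine le_trans (le_of_eq ?_) (abs_second_le (Real.abs_cos_le_one (fr * crd b i₀ x))
      (abs_mul_crd_le (b := b) (i₀ := i₀) hfr y))
    congr 1
    ring

lemma reg_sin {fr : ℝ} (hfr : 0 ≤ fr) : Reg 1 fr fun x : E => Real.sin (fr * crd b i₀ x) := by
  refine ⟨fun x => Real.abs_sin_le_one _, fun x y => ?_, fun x y => ?_⟩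
  · refine (Real.abs_sin_sub_sin_le _ _).trans ?_
    rw [map_add, mul_add, add_sub_cancel_left, one_mul]
    exact abs_mul_crd_le hfr y
  · rw [map_add, map_sub, mul_add, mul_sub, Real.sin_add, Real.sin_sub]
    refine le_trans (le_of_eq ?_) (abs_second_le (Real.abs_sin_le_one (fr * crd b i₀ x))
      (abs_mul_crd_le (b := b) (i₀ := i₀) hfr y))
    congr 1
    ring

/-- Families of oscillating functions of frequency `2 ^ k` and size `2 ^ (j k)`. -/
inductive Gen (b : OrthonormalBasis (Fin n) ℝ E) (i₀ : Fin n) (K : Set E) :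
    ℕ → (ℕ → E → ℝ) → Prop
  | cos {h : E → ℝ} (hh : Test K h) : Gen b i₀ K 0 fun k => cosOsc b i₀ h (2 ^ k)
  | sin {h : E → ℝ} (hh : Test K h) : Gen b i₀ K 0 fun k => sinOsc b i₀ h (2 ^ k)
  | add {j : ℕ} {F G : ℕ → E → ℝ} (hF : Gen b i₀ K j F) (hG : Gen b i₀ K j G) :
      Gen b i₀ K j fun k x => F k x + G k x
  | mul {j : ℕ} {F : ℕ → E → ℝ} (c : ℕ → ℝ) (hc : ∀ k, |c k| ≤ 2 ^ k) (hF : Gen b i₀ K j F) :
      Gen b i₀ K (j + 1) fun k x => c k * F k x

variable {K : Set E}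

lemma test_add {F G : E → ℝ} (hF : Test K F) (hG : Test K G) : Test K fun x => F x + G x :=
  ⟨hF.smooth.add hG.smooth, (tsupport_add F G).trans (union_subset hF.supp hG.supp)⟩

lemma Gen.test {j : ℕ} {F : ℕ → E → ℝ} (h : Gen b i₀ K j F) (k : ℕ) : Test K (F k) := by
  induction h with
  | cos hh => exact hh.cosOsc _ _
  | sin hh => exact hh.sinOsc _ _
  | add _ _ ih1 ih2 => exact test_add ih1 ih2
  | mul c _ _ ih => exact ih.const_mul _

lemma Gen.succ {j : ℕ} {F : ℕ → E → ℝ} (h : Gen b i₀ K j F) : Gen b i₀ K (j + 1) F := by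
  simpa using h.mul (fun _ => 1) fun k => by simpa using one_le_pow₀ (by norm_num : (1 : ℝ) ≤ 2)

lemma Gen.pd_succ {j : ℕ} {F : ℕ → E → ℝ} (h : Gen b i₀ K j F) (i : Fin n) :
    Gen b i₀ K (j + 1) fun k => pd b i (F k) := by
  induction h with
  | cos hh =>
    simp only [pd_cosOsc hh.differentiable]
    exact (Gen.cos (hh.pd b i)).succ.add ((Gen.sin hh).mul _ fun k =>
      (abs_neg _).trans_le (abs_mul_kron_le (by positivity) i₀ i))
  | sin hh =>
    simp only [pd_sinOsc hh.differentiable]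
    exact (Gen.sin (hh.pd b i)).succ.add ((Gen.cos hh).mul _ fun k =>
      abs_mul_kron_le (by positivity) i₀ i)
  | add hF hG ih1 ih2 =>
    simp only [fun k => pd_add (b := b) (hF.test k).differentiable (hG.test k).differentiable i]
    exact ih1.add ih2
  | mul c hc hF ih =>
    simp only [fun k => pd_const_mul (b := b) (hF.test k).differentiable (c k) i]
    exact ih.mul c hc

lemma Gen.pd_ne {j : ℕ} {F : ℕ → E → ℝ} (h : Gen b i₀ K j F) {i : Fin n} (hi : i₀ ≠ i) :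
    Gen b i₀ K j fun k => pd b i (F k) := by
  have hk : kron i₀ i = 0 := if_neg hi
  induction h with
  | cos hh =>
    simp only [pd_cosOsc hh.differentiable, hk, mul_zero, neg_zero, zero_mul, add_zero]
    exact Gen.cos (hh.pd b i)
  | sin hh =>
    simp only [pd_sinOsc hh.differentiable, hk, mul_zero, zero_mul, add_zero]
    exact Gen.sin (hh.pd b i)
  | add hF hG ih1 ih2 =>
    simp only [fun k => pd_add (b := b) (hF.test k).differentiable (hG.test k).differentiable i]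
    exact ih1.add ih2
  | mul c hc hF ih =>
    simp only [fun k => pd_const_mul (b := b) (hF.test k).differentiable (c k) i]
    exact ih.mul c hc

lemma Gen.reg (hK : IsCompact K) {j : ℕ} {F : ℕ → E → ℝ} (h : Gen b i₀ K j F) :
    ∃ M, ∀ k, Reg (M * (2 ^ k) ^ j) (2 ^ k) (F k) := by
  have h1 : ∀ k : ℕ, (1 : ℝ) ≤ 2 ^ k := fun k => one_le_pow₀ (by norm_num)
  induction h with
  | cos hh =>
    obtain ⟨M, hM⟩ := exists_reg hK hh
    refine ⟨4 * (M * 1), fun k => ?_⟩
    rw [pow_zero, mul_one (4 * _)]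
    exact (hM.mono le_rfl zero_le_one (h1 k)).mul (reg_cos (by positivity)) (by positivity)
  | sin hh =>
    obtain ⟨M, hM⟩ := exists_reg hK hh
    refine ⟨4 * (M * 1), fun k => ?_⟩
    rw [pow_zero, mul_one (4 * _)]
    exact (hM.mono le_rfl zero_le_one (h1 k)).mul (reg_sin (by positivity)) (by positivity)
  | add _ _ ih1 ih2 =>
    obtain ⟨M, hM⟩ := ih1
    obtain ⟨M', hM'⟩ := ih2
    exact ⟨M + M', fun k => by rw [add_mul]; exact (hM k).add (hM' k)⟩
  | mul c hc _ ih =>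
    obtain ⟨M, hM⟩ := ih
    refine ⟨M, fun k => ((hM k).const_mul (c k)).mono ?_ (by positivity) le_rfl⟩
    rw [pow_succ, ← mul_assoc M, mul_comm |c k|]
    exact mul_le_mul_of_nonneg_left (hc k) (hM k).nonneg

/-- Families of size `ε k / 2 ^ k` and frequency `2 ^ k`. -/
def Small (ε : ℕ → ℝ) (m : ℕ → E →ᵇ ℝ) : Prop :=
  ∃ M, 0 ≤ M ∧ ∀ k, Reg (M * (ε k * (1 / 2) ^ k)) (2 ^ k) (m k)

lemma Gen.small (hK : IsCompact K) {F : ℕ → E → ℝ} (h : Gen b i₀ K 2 F) {ε : ℕ → ℝ}
    (hε : ∀ k, 0 ≤ ε k) {m : ℕ → E →ᵇ ℝ} (hm : ∀ k x, m k x = ε k * (1 / 8) ^ k * F k x) :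
    Small ε m := by
  obtain ⟨M, hM⟩ := h.reg hK
  refine ⟨M, by simpa using (hM 0).nonneg, fun k => ?_⟩
  have e : (m k : E → ℝ) = fun x => ε k * (1 / 8) ^ k * F k x := funext (hm k)
  have e2 : (1 / 8 : ℝ) ^ k * ((2 : ℝ) ^ k) ^ 2 = (1 / 2) ^ k := by
    rw [← pow_mul, mul_comm k 2, pow_mul, ← mul_pow]
    norm_num
  rw [e]
  refine ((hM k).const_mul _).mono (le_of_eq ?_) (by positivity) le_rfl
  rw [abs_of_nonneg (mul_nonneg (hε k) (by positivity)), ← e2]
  ring

lemma Small.exists_norm_le {ε : ℕ → ℝ} {m : ℕ → E →ᵇ ℝ} (h : Small ε m) (hε : ∀ k, ε k ≤ 1) :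
    ∃ M, ∀ k, ‖m k‖ ≤ M * (1 / 2) ^ k := by
  obtain ⟨M, hM0, hM⟩ := h
  refine ⟨M, fun k => (BoundedContinuousFunction.norm_le (by positivity)).2 fun x =>
    ((hM k).sup x).trans ?_⟩
  have := hε k
  gcongr
  exact mul_le_of_le_one_left (by positivity) this

lemma Small.summable {ε : ℕ → ℝ} {m : ℕ → E →ᵇ ℝ} (h : Small ε m) (hε : ∀ k, ε k ≤ 1) :
    Summable fun k => ‖m k‖ := by
  obtain ⟨M, hM⟩ := h.exists_norm_le hε
  exact summable_of_le_half_pow (fun _ => norm_nonneg _) hM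

lemma abs_wave_le {a c : ℕ → ℝ} {u : ℕ → ℝ} {S : ℝ} (ha : ∀ k, |a k| ≤ u k)
    (hc : ∀ k, |c k| ≤ u k) (hS : ∀ N, ∑ k ∈ Finset.range N, u k ≤ S) (t : ℝ) :
    |wave a c t| ≤ 2 * S := by
  have hu0 : ∀ k, 0 ≤ u k := fun k => (abs_nonneg _).trans (ha k)
  have hs := summable_of_sum_range_le hu0 hS
  have := tsum_of_norm_bounded (hs.hasSum.mul_left 2) (f := fun k => waveTerm a c k t) fun k => by
    have := norm_waveTerm_le a c k t
    rw [Real.norm_eq_abs (a k), Real.norm_eq_abs (c k)] at this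
    linarith [ha k, hc k]
  have h2 := hs.tsum_le_of_sum_range_le hS
  rw [Real.norm_eq_abs] at this
  unfold wave
  linarith

/-- The bounds on a time dependent function used for the coefficient. -/
structure Good (θ : ℝ → ℝ) (C : ℝ) (w : ℝ → E →ᵇ ℝ) : Prop where
  sup : ∀ t x, |w t x| ≤ C
  time : ∀ t s x, |w t x - w s x| ≤ C * θ |t - s|
  one : ∀ t x y, (w t (x + y) - w t x) ^ 2 ≤ C * θ (‖y‖ ^ 2)
  two : ∀ t x y, |w t (x + y) - 2 * w t x + w t (x - y)| ≤ C * θ (‖y‖ ^ 2)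

lemma exists_good {θ : ℝ → ℝ} {ε : ℕ → ℝ} (hε0 : ∀ k, 0 ≤ ε k) (hε1 : ∀ k, ε k ≤ 1)
    (hθ : ∀ (N : ℕ) (d : ℝ), 0 ≤ d →
      ∑ k ∈ Finset.range N, ε k * (1 / 2) ^ k * min 2 (4 ^ k * d) ≤ 6 * θ d)
    {a c : ℕ → E →ᵇ ℝ} (ha : Small ε a) (hc : Small ε c) :
    ∃ C, 0 < C ∧ Good θ C (wave a c) := by
  have sa := ha.summable hε1
  have sc := hc.summable hε1
  obtain ⟨M₁, h1, hM₁⟩ := ha
  obtain ⟨M₂, h2, hM₂⟩ := hc
  obtain ⟨M, hM, hM1, hM2⟩ : ∃ M : ℝ, 1 ≤ M ∧ M₁ ≤ M ∧ M₂ ≤ M :=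
    ⟨1 + M₁ + M₂, by linarith, by linarith, by linarith⟩
  have hM0 : 0 ≤ M := by linarith
  obtain ⟨κ, hκ⟩ : ∃ κ : ℕ → ℝ, ∀ k, κ k = ε k * (1 / 2) ^ k := ⟨_, fun _ => rfl⟩
  simp only [← hκ] at hθ hM₁ hM₂
  have hκ0 : ∀ k, 0 ≤ κ k := fun k => by rw [hκ]; exact mul_nonneg (hε0 k) (by positivity)
  have hκs : ∀ N, ∑ k ∈ Finset.range N, κ k ≤ 2 := fun N =>
    (Finset.sum_le_sum fun k _ => by
      rw [hκ]
      exact mul_le_of_le_one_left (by positivity) (hε1 k)).trans (sum_geometric_two_le N)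
  have ra : ∀ k, Reg (M * κ k) (2 ^ k) (a k) := fun k =>
    (hM₁ k).mono (mul_le_mul_of_nonneg_right hM1 (hκ0 k)) (by positivity) le_rfl
  have rc : ∀ k, Reg (M * κ k) (2 ^ k) (c k) := fun k =>
    (hM₂ k).mono (mul_le_mul_of_nonneg_right hM2 (hκ0 k)) (by positivity) le_rfl
  have hθ0 : ∀ d, 0 ≤ d → 0 ≤ θ d := fun d hd => by simpa using hθ 0 d hd
  have hev : ∀ t x, wave a c t x = wave (fun k => a k x) (fun k => c k x) t := fun t x =>
    map_wave (BoundedContinuousFunction.evalCLM ℝ x) sa sc t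
  have e4 : ∀ (k : ℕ) (y : E), ((2 : ℝ) ^ k * ‖y‖) ^ 2 = 4 ^ k * ‖y‖ ^ 2 := by
    intro k y
    rw [mul_pow, ← pow_mul, mul_comm k 2, pow_mul]
    norm_num
  refine ⟨96 * M ^ 2, by positivity, fun t x => ?_, fun t s x => ?_, fun t x y => ?_,
    fun t x y => ?_⟩
  · rw [hev]
    refine (abs_wave_le (S := M * 2) (fun k => (ra k).sup x) (fun k => (rc k).sup x)
      (fun N => ?_) t).trans (by nlinarith)
    rw [← Finset.mul_sum]
    exact mul_le_mul_of_nonneg_left (hκs N) hM0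
  · have sa' : Summable fun k => ‖a k x‖ :=
      Summable.of_nonneg_of_le (fun _ => norm_nonneg _) (fun k => (a k).norm_coe_le_norm x) sa
    have sc' : Summable fun k => ‖c k x‖ :=
      Summable.of_nonneg_of_le (fun _ => norm_nonneg _) (fun k => (c k).norm_coe_le_norm x) sc
    have hsum := (hasSum_wave sa' sc' t).sub (hasSum_wave sa' sc' s)
    rw [hev, hev, ← Real.norm_eq_abs]
    refine le_of_tendsto' hsum.tendsto_sum_nat.norm fun N => (norm_sum_le _ _).trans ?_
    have hterm : ∀ k, ‖waveTerm (fun k => a k x) (fun k => c k x) k t -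
        waveTerm (fun k => a k x) (fun k => c k x) k s‖ ≤
        2 * M * (κ k * min 2 (4 ^ k * |t - s|)) := by
      intro k
      have e1 : waveTerm (fun k => a k x) (fun k => c k x) k t -
          waveTerm (fun k => a k x) (fun k => c k x) k s =
          (Real.sin (4 ^ k * t) - Real.sin (4 ^ k * s)) * a k x +
            (Real.cos (4 ^ k * t) - Real.cos (4 ^ k * s)) * c k x := by
        simp only [waveTerm, smul_eq_mul]
        ring
      have e2 : |(4 : ℝ) ^ k * t - 4 ^ k * s| = 4 ^ k * |t - s| := by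
        rw [← mul_sub, abs_mul, abs_of_pos (by positivity : (0 : ℝ) < 4 ^ k)]
      have s1 := abs_sin_sub_le (4 ^ k * t) (4 ^ k * s)
      have s2 := abs_cos_sub_le (4 ^ k * t) (4 ^ k * s)
      rw [e2] at s1 s2
      rw [e1, Real.norm_eq_abs]
      refine (abs_add_le _ _).trans ((add_le_add (abs_mul_le_mul s1 ((ra k).sup x))
        (abs_mul_le_mul s2 ((rc k).sup x))).trans (le_of_eq ?_))
      ring
    refine (Finset.sum_le_sum fun k _ => hterm k).trans ?_
    rw [← Finset.mul_sum]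
    have h3 := hθ N _ (abs_nonneg (t - s))
    have h4 := hθ0 _ (abs_nonneg (t - s))
    nlinarith [mul_le_mul_of_nonneg_left h3 hM0, mul_nonneg (mul_nonneg hM0 h4) (sub_nonneg.2 hM),
      mul_nonneg hM0 h4]
  · have h4 := hθ0 _ (sq_nonneg ‖y‖)
    have hL := map_wave (BoundedContinuousFunction.evalCLM ℝ (x + y) -
      BoundedContinuousFunction.evalCLM ℝ x) sa sc t
    simp only [sub_apply, BoundedContinuousFunction.evalCLM_apply] at hL
    have hb : ∀ {F : E → ℝ} {k : ℕ}, Reg (M * κ k) (2 ^ k) F →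
        |F (x + y) - F x| ≤ M * (κ k * min 2 (2 ^ k * ‖y‖)) := by
      intro F k hF
      rw [← mul_assoc, mul_min_of_nonneg _ _ hF.nonneg]
      refine le_min ((abs_sub _ _).trans ?_) (hF.one x y)
      linarith [hF.sup (x + y), hF.sup x]
    have hS : ∀ N, ∑ k ∈ Finset.range N, M * (κ k * min 2 (2 ^ k * ‖y‖)) ≤
        M * √(24 * θ (‖y‖ ^ 2)) := by
      intro N
      rw [← Finset.mul_sum]
      refine mul_le_mul_of_nonneg_left (Real.le_sqrt_of_sq_le ?_) hM0
      refine (Finset.sum_sq_le_sum_mul_sum_of_sq_le_mul (Finset.range N) (f := κ)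
        (g := fun k => 2 * (κ k * min 2 (4 ^ k * ‖y‖ ^ 2))) (fun k _ => hκ0 k)
        (fun k _ => mul_nonneg zero_le_two (mul_nonneg (hκ0 k)
          (le_min zero_le_two (by positivity)))) fun k _ => ?_).trans ?_
      · have h5 : min 2 (2 ^ k * ‖y‖) ^ 2 ≤ 2 * min 2 (4 ^ k * ‖y‖ ^ 2) := by
          have h6 : 0 ≤ min 2 (2 ^ k * ‖y‖) := le_min zero_le_two (by positivity)
          rw [mul_min_of_nonneg _ _ zero_le_two, ← e4]
          refine le_min ?_ ?_
          · nlinarith [min_le_left 2 (2 ^ k * ‖y‖)]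
          · nlinarith [pow_le_pow_left₀ h6 (min_le_right 2 (2 ^ k * ‖y‖)) 2,
              sq_nonneg (2 ^ k * ‖y‖)]
        nlinarith [mul_le_mul_of_nonneg_left h5 (sq_nonneg (κ k))]
      · rw [← Finset.mul_sum]
        have h5 := hθ N _ (sq_nonneg ‖y‖)
        refine (mul_le_mul (hκs N) (mul_le_mul_of_nonneg_left h5 zero_le_two)
          (mul_nonneg zero_le_two (Finset.sum_nonneg fun k _ => mul_nonneg (hκ0 k)
            (le_min zero_le_two (by positivity)))) zero_le_two).trans (le_of_eq ?_)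
        ring
    have h6 := abs_wave_le (fun k => hb (ra k)) (fun k => hb (rc k)) hS t
    rw [hL, ← sq_abs]
    refine (pow_le_pow_left₀ (abs_nonneg _) h6 2).trans (le_of_eq ?_)
    rw [mul_pow, mul_pow, Real.sq_sqrt (by positivity)]
    ring
  · have h4 := hθ0 _ (sq_nonneg ‖y‖)
    have hL := map_wave (BoundedContinuousFunction.evalCLM ℝ (x + y) -
      (2 : ℝ) • BoundedContinuousFunction.evalCLM ℝ x +
      BoundedContinuousFunction.evalCLM ℝ (x - y)) sa sc t
    simp only [sub_apply, add_apply, smul_apply, smul_eq_mul,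
      BoundedContinuousFunction.evalCLM_apply] at hL
    have hb : ∀ {F : E → ℝ} {k : ℕ}, Reg (M * κ k) (2 ^ k) F →
        |F (x + y) - 2 * F x + F (x - y)| ≤ 2 * M * (κ k * min 2 (4 ^ k * ‖y‖ ^ 2)) := by
      intro F k hF
      have h5 := hF.nonneg
      have e : 2 * M * (κ k * min 2 (4 ^ k * ‖y‖ ^ 2)) =
          2 * (M * κ k) * min 2 (4 ^ k * ‖y‖ ^ 2) := by ring
      rw [e, mul_min_of_nonneg _ _ (by positivity), ← e4]
      refine le_min ?_ ((hF.two x y).trans ?_)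
      · have h6 := abs_le.1 (hF.sup (x + y))
        have h7 := abs_le.1 (hF.sup x)
        have h8 := abs_le.1 (hF.sup (x - y))
        rw [abs_le]
        constructor <;> linarith [h6.1, h6.2, h7.1, h7.2, h8.1, h8.2]
      · nlinarith [mul_nonneg h5 (sq_nonneg (2 ^ k * ‖y‖))]
    have h6 := abs_wave_le (S := 2 * M * (6 * θ (‖y‖ ^ 2))) (fun k => hb (ra k))
      (fun k => hb (rc k)) (fun N => by
        rw [← Finset.mul_sum]
        exact mul_le_mul_of_nonneg_left (hθ N _ (sq_nonneg _)) (by positivity)) t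
    rw [hL]
    refine h6.trans ?_
    nlinarith [mul_nonneg (mul_nonneg hM0 h4) (sub_nonneg.2 hM), mul_nonneg hM0 h4]

end Pool.Agent.MP_954c34_an.Sharp

end
end

section

open MeasureTheory Set Filter Topology
open scoped ContDiff ComplexConjugate InnerProductSpace BoundedContinuousFunction Matrix

set_option linter.unusedSectionVars false
set_option maxSynthPendingDepth 3

noncomputable section

namespace Pool.Agent.MP_954c34_an.Sharp

variable {E : Type} [NormedAddCommGroup E] [InnerProductSpace ℝ E] [FiniteDimensional ℝ E]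
  [MeasurableSpace E] [BorelSpace E] {n : ℕ}

/-- `m'` is the derivative of `m` in the direction `v`. -/
def HasPD (v : E) (m m' : E →ᵇ ℝ) : Prop :=
  ∀ (x : E) (s : ℝ), HasDerivAt (fun r : ℝ => m (x + r • v)) (m' (x + s • v)) s

lemma hasPD_bcf {b : OrthonormalBasis (Fin n) ℝ E} {K : Set E} (hK : IsCompact K) {F : E → ℝ}
    (h : Test K F) (i : Fin n) : HasPD (b i) (bcf F) (bcf (pd b i F)) := by
  intro x s
  simp only [h.bcf_apply hK, (h.pd b i).bcf_apply hK]
  have h1 : HasDerivAt (fun r : ℝ => x + r • b i) (b i) s := by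
    simpa using ((hasDerivAt_id s).smul_const (b i)).const_add x
  exact (h.differentiable (x + s • b i)).hasFDerivAt.comp_hasDerivAt s h1

lemma HasPD.smul {v : E} {m m' : E →ᵇ ℝ} (h : HasPD v m m') (c : ℝ) :
    HasPD v (c • m) (c • m') := fun x s => (h x s).const_mul c

lemma HasPD.mul {v : E} {m m' p p' : E →ᵇ ℝ} (h : HasPD v m m') (h' : HasPD v p p') :
    HasPD v (m * p) (m' * p + m * p') := fun x s => (h x s).mul (h' x s)

lemma hasPD_wave {v : E} {a c a' c' : ℕ → E →ᵇ ℝ} (sa : Summable fun k => ‖a k‖)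
    (sc : Summable fun k => ‖c k‖) (sa' : Summable fun k => ‖a' k‖)
    (sc' : Summable fun k => ‖c' k‖) (ha : ∀ k, HasPD v (a k) (a' k))
    (hc : ∀ k, HasPD v (c k) (c' k)) (t : ℝ) : HasPD v (wave a c t) (wave a' c' t) := by
  intro x s
  have hev : ∀ y, wave a c t y = wave (fun k => a k y) (fun k => c k y) t := fun y =>
    map_wave (BoundedContinuousFunction.evalCLM ℝ y) sa sc t
  have hev' : ∀ y, wave a' c' t y = wave (fun k => a' k y) (fun k => c' k y) t := fun y =>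
    map_wave (BoundedContinuousFunction.evalCLM ℝ y) sa' sc' t
  simp only [hev, hev']
  refine hasDerivAt_tsum (y₀ := 0) (sa'.add sc')
    (g := fun k r => waveTerm (fun k => a k (x + r • v)) (fun k => c k (x + r • v)) k t)
    (g' := fun k r => waveTerm (fun k => a' k (x + r • v)) (fun k => c' k (x + r • v)) k t)
    (fun k r => ((ha k x r).const_mul (Real.sin (4 ^ k * t))).fun_add
      ((hc k x r).const_mul (Real.cos (4 ^ k * t))))
    (fun k r => (norm_waveTerm_le _ _ k t).trans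
      (add_le_add ((a' k).norm_coe_le_norm _) ((c' k).norm_coe_le_norm _))) ?_ s
  exact (hasSum_wave
    (Summable.of_nonneg_of_le (fun _ => norm_nonneg _) (fun k => (a k).norm_coe_le_norm _) sa)
    (Summable.of_nonneg_of_le (fun _ => norm_nonneg _) (fun k => (c k).norm_coe_le_norm _) sc)
    t).summable

lemma coeFn_cut (μ : Measure E) [μ.IsAddHaarMeasure] (Ω : Set E) {K : Set E} (hK : IsCompact K)
    {m : E →ᵇ ℝ} (hm : ∀ x, x ∉ K → m x = 0) :
    cut μ Ω hK m =ᵐ[μ.restrict Ω] fun x => (m x : ℂ) := by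
  filter_upwards [coeFn_mulOp μ Ω m (kappa μ Ω hK), indicatorConstLp_coeFn (p := 2)
    (hs := hK.measurableSet)
    (hμs := ((Measure.restrict_apply_le Ω K).trans_lt hK.measure_lt_top).ne) (c := (1 : ℂ))]
    with x h1 h2
  rw [cut_apply, h1, kappa, h2]
  by_cases hx : x ∈ K
  · simp [indicator_of_mem hx]
  · simp [hm x hx]

/-- Integration by parts against elements of `V`. -/
lemma dualOf_hasPD {μ : Measure E} [μ.IsAddHaarMeasure] {b : OrthonormalBasis (Fin n) ℝ E}
    {Ω D K : Set E} (hK : IsCompact K) (hΩ : K ⊆ Ω) {i : Fin n} {m m' : E →ᵇ ℝ}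
    (h : HasPD (b i) m m') (hm : ∀ x, x ∉ K → m x = 0) (hm' : ∀ x, x ∉ K → m' x = 0) :
    dualOf μ b Ω D none (cut μ Ω hK m') = -dualOf μ b Ω D (some i) (cut μ Ω hK m) := by
  set a := cut μ Ω hK m' with ha
  set c := cut μ Ω hK m with hb
  set L : Jet n μ Ω →L[ℂ] ℂ :=
    (innerSL ℂ a).comp (PiLp.proj 2 (fun _ : Option (Fin n) => L2 μ Ω) none) +
      (innerSL ℂ c).comp (PiLp.proj 2 (fun _ : Option (Fin n) => L2 μ Ω) (some i)) with hL
  have hker : formDomain μ b Ω D ≤ LinearMap.ker (L : Jet n μ Ω →ₗ[ℂ] ℂ) := by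
    refine Submodule.topologicalClosure_minimal _ (Submodule.span_le.2 ?_) L.isClosed_ker
    rintro w ⟨φ, hφ, hφc, -, h0, h1⟩
    have hφd : Differentiable ℝ φ := hφ.differentiable (by simp)
    have hφ' : Continuous (coordDeriv b i φ) :=
      (hφ.continuous_fderiv (by simp)).clm_apply continuous_const
    have e1 : ⟪a, w none⟫_ℂ = ∫ x, m' x • φ x ∂μ := by
      rw [← setIntegral_eq_integral_of_forall_compl_eq_zero (s := Ω), L2.inner_def]
      · refine integral_congr_ae ?_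
        filter_upwards [coeFn_cut μ Ω hK hm', h0] with x h2 h3
        rw [ha, h2, h3]
        simp [mul_comm]
      · intro x hx
        rw [hm' x (fun h' => hx (hΩ h')), zero_smul]
    have e2 : ⟪c, w (some i)⟫_ℂ = ∫ x, m x • coordDeriv b i φ x ∂μ := by
      rw [← setIntegral_eq_integral_of_forall_compl_eq_zero (s := Ω), L2.inner_def]
      · refine integral_congr_ae ?_
        filter_upwards [coeFn_cut μ Ω hK hm, h1 i] with x h2 h3
        rw [hb, h2, h3]
        simp [mul_comm]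
      · intro x hx
        rw [hm x (fun h' => hx (hΩ h')), zero_smul]
    have e3 := integral_bilinear_hasLineDerivAt_right_eq_neg_left_of_integrable (μ := μ)
      (f := m) (f' := m') (g := φ) (g' := coordDeriv b i φ) (v := b i)
      (B := ContinuousLinearMap.lsmul ℝ ℝ)
      ((m'.continuous.smul hφ.continuous).integrable_of_hasCompactSupport hφc.smul_left)
      ((m.continuous.smul hφ').integrable_of_hasCompactSupport (hφc.fderiv_apply ℝ _).smul_left)
      ((m.continuous.smul hφ.continuous).integrable_of_hasCompactSupport hφc.smul_left)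
      (fun x _ => by simpa [HasLineDerivAt] using h x 0)
      (fun x _ => (hφd x).hasFDerivAt.hasLineDerivAt _)
    change ⟪a, w none⟫_ℂ + ⟪c, w (some i)⟫_ℂ = 0
    simp only [ContinuousLinearMap.lsmul_apply] at e3
    rw [e1, e2, e3]
    simp
  ext v
  have hv : ⟪a, comp μ b Ω D none v⟫_ℂ + ⟪c, comp μ b Ω D (some i) v⟫_ℂ = 0 := hker v.2
  have := congrArg conj hv
  rw [map_add, inner_conj_symm, inner_conj_symm, map_zero] at this
  rw [neg_apply, dualOf_apply, dualOf_apply]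
  exact eq_neg_of_add_eq_zero_left this

lemma quot_one {a a' p p' q q' : ℝ} (hp : |p| ≤ 1 / 2) (ha' : |a'| ≤ 2)
    (h : a * (1 + p) = 1 + q) (h' : a' * (1 + p') = 1 + q') :
    |a - a'| ≤ 2 * |q - q'| + 4 * |p - p'| := by
  have e : (a - a') * (1 + p) = (q - q') - a' * (p - p') := by linear_combination h - h'
  have h1 : 1 / 2 ≤ |1 + p| := by
    rw [abs_of_nonneg (by linarith [(abs_le.1 hp).1])]
    linarith [(abs_le.1 hp).1]
  have h2 := congrArg abs e
  rw [abs_mul] at h2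
  have h3 := abs_sub (q - q') (a' * (p - p'))
  have h4 := abs_mul_le_mul ha' (le_refl |p - p'|)
  nlinarith [abs_nonneg (a - a')]

lemma quot_two {a a₁ a₂ p p₁ p₂ q q₁ q₂ s : ℝ} (hp : |p| ≤ 1 / 2) (hp₁ : |p₁| ≤ 1 / 2)
    (hp₂ : |p₂| ≤ 1 / 2) (ha : |a| ≤ 2) (h : a * (1 + p) = 1 + q) (h₁ : a₁ * (1 + p₁) = 1 + q₁)
    (h₂ : a₂ * (1 + p₂) = 1 + q₂) (b1 : (p₁ - p) ^ 2 ≤ s) (b2 : (p₂ - p) ^ 2 ≤ s)
    (b3 : (q₁ - q) ^ 2 ≤ s) (b4 : (q₂ - q) ^ 2 ≤ s) (b5 : |p₁ - 2 * p + p₂| ≤ s)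
    (b6 : |q₁ - 2 * q + q₂| ≤ s) : |a₁ - 2 * a + a₂| ≤ 30 * s := by
  have e : (a₁ - 2 * a + a₂) * (1 + p) = (q₁ - 2 * q + q₂) - a * (p₁ - 2 * p + p₂) -
      (a₁ - a) * (p₁ - p) - (a₂ - a) * (p₂ - p) := by linear_combination h₁ - 2 * h + h₂
  have h1 : 1 / 2 ≤ |1 + p| := by
    rw [abs_of_nonneg (by linarith [(abs_le.1 hp).1])]
    linarith [(abs_le.1 hp).1]
  have key : ∀ {a' p' q' : ℝ}, |p'| ≤ 1 / 2 → a' * (1 + p') = 1 + q' → (p' - p) ^ 2 ≤ s →
      (q' - q) ^ 2 ≤ s → |(a' - a) * (p' - p)| ≤ 6 * s := by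
    intro a' p' q' k1 k2 k3 k4
    have k5 := abs_mul_le_mul (quot_one k1 ha k2 h) (le_refl |p' - p|)
    rw [← sq_abs] at k3 k4
    nlinarith [sq_nonneg (|q' - q| - |p' - p|)]
  have h3 := abs_le.1 (key hp₁ h₁ b1 b3)
  have h4 := abs_le.1 (key hp₂ h₂ b2 b4)
  have h5 := abs_le.1 (abs_mul_le_mul ha b5)
  have h6 := abs_le.1 b6
  have h7 : |(a₁ - 2 * a + a₂) * (1 + p)| ≤ 15 * s := by
    rw [e, abs_le]
    constructor <;> linarith [h3.1, h3.2, h4.1, h4.2, h5.1, h5.2, h6.1, h6.2]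
  rw [abs_mul] at h7
  nlinarith [abs_nonneg (a₁ - 2 * a + a₂)]

lemma Good.mono {θ : ℝ → ℝ} (hθ : ∀ d, 0 ≤ d → 0 ≤ θ d) {C C' : ℝ} {w : ℝ → E →ᵇ ℝ}
    (h : Good θ C w) (hC : C ≤ C') : Good θ C' w :=
  ⟨fun t x => (h.sup t x).trans hC,
    fun t s x => (h.time t s x).trans (mul_le_mul_of_nonneg_right hC (hθ _ (abs_nonneg _))),
    fun t x y => (h.one t x y).trans (mul_le_mul_of_nonneg_right hC (hθ _ (sq_nonneg _))),
    fun t x y => (h.two t x y).trans (mul_le_mul_of_nonneg_right hC (hθ _ (sq_nonneg _)))⟩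

/-- The scalar coefficient `(1 + η Q) / (1 + η P)`. -/
lemma exists_scalar {θ : ℝ → ℝ} (hθ : ∀ d, 0 ≤ d → 0 ≤ θ d) {C : ℝ} (hC : 0 < C)
    {P Q : ℝ → E →ᵇ ℝ} (hP : Good θ C P) (hQ : Good θ C Q) (hPc : Continuous P)
    (hQc : Continuous Q) {δ : ℝ} (hδ : 0 < δ) (hδ1 : δ ≤ 1 / 2) :
    ∃ (η C' : ℝ) (a : ℝ → E →ᵇ ℝ), 0 < η ∧ 0 ≤ C' ∧ Continuous a ∧ (∀ t x, |a t x - 1| ≤ δ) ∧
      (∀ t x, a t x * (1 + η * P t x) = 1 + η * Q t x) ∧
      (∀ t s x, |a t x - a s x| ≤ C' * θ |t - s|) ∧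
      (∀ t x y, |a t (x + y) - 2 * a t x + a t (x - y)| ≤ C' * θ (‖y‖ ^ 2)) ∧
      ∀ (v : E) (P' Q' : ℝ → E →ᵇ ℝ), Continuous P' → Continuous Q' →
        (∀ t, HasPD v (P t) (P' t)) → (∀ t, HasPD v (Q t) (Q' t)) →
        ∃ a' : ℝ → E →ᵇ ℝ, Continuous a' ∧ ∀ t, HasPD v (a t) (a' t) := by
  obtain ⟨η, hη0, hη1, hηC⟩ : ∃ η : ℝ, 0 < η ∧ η ≤ 1 ∧ η * C ≤ δ / 4 := by
    refine ⟨min 1 (δ / 4 / C), by positivity, min_le_left _ _, ?_⟩
    rw [← le_div_iff₀ hC]
    exact min_le_right _ _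
  have hb : ∀ {w : ℝ → E →ᵇ ℝ}, Good θ C w → ∀ t x, |η * w t x| ≤ δ / 4 := fun hw t x =>
    (abs_mul_le_mul (abs_of_pos hη0).le (hw.sup t x)).trans hηC
  have hp : ∀ t x, |η * P t x| ≤ 1 / 2 := fun t x => (hb hP t x).trans (by linarith)
  have hpos : ∀ t x, 1 / 2 ≤ 1 + η * P t x := fun t x => by linarith [(abs_le.1 (hp t x)).1]
  have hne : ∀ t x, 1 + η * P t x ≠ 0 := fun t x => by linarith [hpos t x]
  have hinvb : ∀ t x, |(1 + η * P t x)⁻¹| ≤ 2 := fun t x => by
    have := hpos t x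
    rw [abs_of_pos (by positivity), inv_le_comm₀ (by positivity) (by norm_num)]
    linarith
  obtain ⟨r, hr⟩ : ∃ r : ℝ → E →ᵇ ℝ, ∀ t x, r t x = (1 + η * P t x)⁻¹ :=
    ⟨fun t => BoundedContinuousFunction.ofNormedAddCommGroup (fun x => (1 + η * P t x)⁻¹)
      ((continuous_const.add (continuous_const.mul (P t).continuous)).inv₀ (hne t)) 2
      (hinvb t), fun _ _ => rfl⟩
  have hr1 : ∀ t x, r t x * (1 + η * P t x) = 1 + 0 := fun t x => by
    rw [hr, inv_mul_cancel₀ (hne t x), add_zero]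
  have hrc : Continuous r := by
    refine continuous_iff_continuousAt.2 fun s => tendsto_iff_norm_sub_tendsto_zero.2 ?_
    have h0 : Tendsto (fun t => 4 * ‖P t - P s‖) (𝓝 s) (𝓝 0) := by
      simpa using (tendsto_iff_norm_sub_tendsto_zero.1 (hPc.tendsto s)).const_mul 4
    refine squeeze_zero (fun _ => norm_nonneg _) (fun t => ?_) h0
    refine (BoundedContinuousFunction.norm_le (by positivity)).2 fun x => ?_
    have h1 := quot_one (hp t x) ((hr s x).symm ▸ hinvb s x) (hr1 t x) (hr1 s x)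
    have h2 : |η * P t x - η * P s x| ≤ 1 * ‖P t - P s‖ := by
      rw [← mul_sub]
      exact abs_mul_le_mul ((abs_of_pos hη0).le.trans hη1) ((P t - P s).norm_coe_le_norm x)
    simp only [sub_self, abs_zero, mul_zero, zero_add] at h1
    change |r t x - r s x| ≤ _
    linarith
  obtain ⟨a, ha⟩ : ∃ a : ℝ → E →ᵇ ℝ, ∀ t, a t = (1 + η • Q t) * r t := ⟨_, fun _ => rfl⟩
  have hax : ∀ t x, a t x = (1 + η * Q t x) * (1 + η * P t x)⁻¹ := fun t x => by
    rw [ha, ← hr]
    rfl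
  have haid : ∀ t x, a t x * (1 + η * P t x) = 1 + η * Q t x := fun t x => by
    rw [hax, mul_assoc, inv_mul_cancel₀ (hne t x), mul_one]
  have hac : Continuous a := by
    rw [show a = fun t => (1 + η • Q t) * r t from funext ha]
    exact (continuous_const.add (hQc.const_smul η)).mul hrc
  have ha1 : ∀ t x, |a t x - 1| ≤ δ := fun t x => by
    have e : a t x - 1 = (η * Q t x - η * P t x) * (1 + η * P t x)⁻¹ := by
      rw [hax]
      field_simp [hne t x]
      ring
    rw [e]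
    refine (abs_mul_le_mul ((abs_sub _ _).trans (add_le_add (hb hQ t x) (hb hP t x)))
      (hinvb t x)).trans (le_of_eq (by ring))
  have ha2 : ∀ t x, |a t x| ≤ 2 := fun t x => by
    have := abs_le.1 (ha1 t x)
    rw [abs_le]
    constructor <;> linarith [this.1, this.2]
  have hm : ∀ {z s : ℝ}, |z| ≤ s → |η * z| ≤ s := fun h =>
    (abs_mul_le_mul ((abs_of_pos hη0).le.trans hη1) h).trans_eq (one_mul _)
  have hm2 : ∀ {z z' s : ℝ}, (z - z') ^ 2 ≤ s → (η * z - η * z') ^ 2 ≤ s := fun {z z' s} h => by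
    rw [← mul_sub, mul_pow]
    exact (mul_le_of_le_one_left (sq_nonneg _) (pow_le_one₀ hη0.le hη1)).trans h
  refine ⟨η, 30 * C, a, hη0, by positivity, hac, ha1, haid, fun t s x => ?_, fun t x y => ?_,
    fun v P' Q' hP'c hQ'c hP' hQ' => ?_⟩
  · have h1 := quot_one (hp t x) (ha2 s x) (haid t x) (haid s x)
    rw [← mul_sub, ← mul_sub] at h1
    have h2 := hm (hP.time t s x)
    have h3 := hm (hQ.time t s x)
    nlinarith [mul_nonneg hC.le (hθ _ (abs_nonneg (t - s)))]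
  · rw [mul_assoc]
    have e : ∀ z₁ z z₂ : ℝ, η * z₁ - 2 * (η * z) + η * z₂ = η * (z₁ - 2 * z + z₂) := by
      intros
      ring
    have hP1 := hP.one t x (-y)
    have hQ1 := hQ.one t x (-y)
    rw [← sub_eq_add_neg, norm_neg] at hP1 hQ1
    exact quot_two (hp t x) (hp t _) (hp t _) (ha2 t x) (haid t x) (haid t _) (haid t _)
      (hm2 (hP.one t x y)) (hm2 hP1) (hm2 (hQ.one t x y)) (hm2 hQ1)
      ((e _ _ _).symm ▸ hm (hP.two t x y)) ((e _ _ _).symm ▸ hm (hQ.two t x y))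
  · refine ⟨fun t => (η • Q' t - a t * (η • P' t)) * r t,
      ((hQ'c.const_smul η).sub (hac.mul (hP'c.const_smul η))).mul hrc, fun t x s => ?_⟩
    have h1 := (((hQ' t x s).const_mul η).const_add 1).fun_mul
      ((((hP' t x s).const_mul η).const_add 1).fun_inv (hne t _))
    simp only [hax]
    refine h1.congr_deriv ?_
    change _ = (η * Q' t _ - a t _ * (η * P' t _)) * r t _
    rw [hax, hr]
    field_simp [hne t (x + s • v)]
    ring

lemma isElliptic_smul_one {c : ℝ} (hc : |c - 1| ≤ 1 / 2) :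
    IsElliptic (1 / 2) 2 ((c : ℂ) • (1 : Matrix (Fin n) (Fin n) ℂ)) := by
  intro ξ
  have h := abs_le.1 hc
  have e : ∀ i, (((c : ℂ) • (1 : Matrix (Fin n) (Fin n) ℂ)) *ᵥ ξ) i = c * ξ i := by
    intro i
    rw [Matrix.smul_mulVec, Matrix.one_mulVec, Pi.smul_apply, smul_eq_mul]
  simp only [e]
  constructor
  · rw [Finset.mul_sum]
    refine Finset.sum_le_sum fun i _ => ?_
    rw [norm_mul, mul_pow, Complex.norm_real, Real.norm_eq_abs, sq_abs]
    exact mul_le_mul_of_nonneg_right (by nlinarith [h.1, h.2]) (sq_nonneg _)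
  · rw [Complex.re_sum, Finset.mul_sum]
    refine Finset.sum_le_sum fun i _ => ?_
    rw [mul_assoc, Complex.mul_conj, Complex.normSq_eq_norm_sq, ← Complex.ofReal_mul,
      Complex.ofReal_re]
    exact mul_le_mul_of_nonneg_right (by linarith [h.1]) (sq_nonneg _)

end Pool.Agent.MP_954c34_an.Sharp

end
end

section

open MeasureTheory Set Filter Topology
open scoped ContDiff ComplexConjugate InnerProductSpace BoundedContinuousFunction Matrix

set_option linter.unusedSectionVars false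
set_option maxSynthPendingDepth 3

noncomputable section

namespace Pool.Agent.MP_954c34_an.Sharp

variable {E : Type} [NormedAddCommGroup E] [InnerProductSpace ℝ E] [FiniteDimensional ℝ E]
  [MeasurableSpace E] [BorelSpace E] {n : ℕ}

/-- Scaling the `k`-th mode by `ε k / 8 ^ k`. -/
def sc (ε : ℕ → ℝ) (F : ℕ → E → ℝ) (k : ℕ) (x : E) : ℝ := ε k * (1 / 8) ^ k * F k x

section Families

variable {b : OrthonormalBasis (Fin n) ℝ E} {i₀ : Fin n} {K : Set E} {ε : ℕ → ℝ}
  {F : ℕ → E → ℝ} {j : ℕ}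

lemma Gen.test_sc (h : Gen b i₀ K j F) (k : ℕ) : Test K (sc ε F k) := (h.test k).const_mul _

lemma Gen.pd_sc (h : Gen b i₀ K j F) (i : Fin n) (k : ℕ) :
    pd b i (sc ε F k) = sc ε (fun k => pd b i (F k)) k :=
  pd_const_mul (h.test k).differentiable _ i

lemma Gen.small_sc (hK : IsCompact K) (h : Gen b i₀ K 2 F) (hε : ∀ k, 0 ≤ ε k) :
    Small ε fun k => bcf (sc ε F k) :=
  h.small hK hε fun k x => (h.test_sc k).bcf_apply hK x

lemma Gen.small_four (hK : IsCompact K) (h : Gen b i₀ K 0 F) (hε : ∀ k, 0 ≤ ε k) :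
    (Small ε fun k => ((4 : ℝ) ^ k) • bcf (sc ε F k)) ∧
      Small ε fun k => (-(4 : ℝ) ^ k) • bcf (sc ε F k) := by
  have h2 : ∀ k : ℕ, |(2 : ℝ) ^ k| ≤ 2 ^ k := fun k => (abs_of_pos (by positivity)).le
  have e : ∀ k : ℕ, (4 : ℝ) ^ k = 2 ^ k * 2 ^ k := fun k => by
    rw [← mul_pow]
    norm_num
  constructor
  · refine ((h.mul _ h2).mul _ h2).small hK hε fun k x => ?_
    rw [BoundedContinuousFunction.smul_apply, (h.test_sc k).bcf_apply hK, sc, e, smul_eq_mul]
    ring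
  · refine ((h.mul _ h2).mul (fun k => -2 ^ k) fun k => (abs_neg _).trans_le (h2 k)).small hK hε
      fun k x => ?_
    rw [BoundedContinuousFunction.smul_apply, (h.test_sc k).bcf_apply hK, sc, e, smul_eq_mul]
    ring

/-- All the facts about one family of modes that are used in the construction. -/
structure Modes (b : OrthonormalBasis (Fin n) ℝ E) (i₀ : Fin n) (K : Set E) (ε : ℕ → ℝ)
    (c : ℕ → E → ℝ) : Prop where
  test : ∀ k, Test K (c k)
  pos : Small ε fun k => ((4 : ℝ) ^ k) • bcf (c k)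
  neg : Small ε fun k => (-(4 : ℝ) ^ k) • bcf (c k)
  one : Small ε fun k => bcf (pd b i₀ (c k))
  two : ∀ i, Small ε fun k => bcf (pd b i (pd b i₀ (c k)))
  pos' : ∀ i, i₀ ≠ i → Small ε fun k => ((4 : ℝ) ^ k) • bcf (pd b i (c k))
  neg' : ∀ i, i₀ ≠ i → Small ε fun k => (-(4 : ℝ) ^ k) • bcf (pd b i (c k))
  three : ∀ i, i₀ ≠ i → ∀ l, Small ε fun k => bcf (pd b i (pd b l (pd b i₀ (c k))))

lemma Gen.modes (hK : IsCompact K) (h : Gen b i₀ K 0 F) (hε : ∀ k, 0 ≤ ε k) :
    Modes b i₀ K ε (sc ε F) := by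
  have h1 := h.pd_succ i₀
  refine ⟨h.test_sc, (h.small_four hK hε).1, (h.small_four hK hε).2, ?_, fun i => ?_,
    fun i hi => ?_, fun i hi => ?_, fun i hi l => ?_⟩
  · simp only [h.pd_sc]
    exact h1.succ.small_sc hK hε
  · simp only [h.pd_sc, h1.pd_sc]
    exact (h1.pd_succ i).small_sc hK hε
  · simp only [h.pd_sc]
    exact ((h.pd_ne hi).small_four hK hε).1
  · simp only [h.pd_sc]
    exact ((h.pd_ne hi).small_four hK hε).2
  · simp only [h.pd_sc, h1.pd_sc, (h1.pd_succ l).pd_sc]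
    exact ((h1.pd_succ l).pd_ne hi).small_sc hK hε

end Families

lemma exists_modes (b : OrthonormalBasis (Fin n) ℝ E) (i₀ : Fin n) {K : Set E} (hK : IsCompact K)
    {χ : E → ℝ} (hχ : Test K χ) {ε : ℕ → ℝ} (hε : ∀ k, 0 ≤ ε k) :
    ∃ cc ss : ℕ → E → ℝ, Modes b i₀ K ε cc ∧ Modes b i₀ K ε ss ∧ ∀ k x, ε k * |χ x| ≤
      4 ^ k * ‖(pd b i₀ (ss k) x : ℂ) - Complex.I * (pd b i₀ (cc k) x : ℂ)‖ := by
  have gc := Gen.cos (b := b) (i₀ := i₀) hχ
  have gs := Gen.sin (b := b) (i₀ := i₀) hχ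
  refine ⟨_, _, gc.modes hK hε, gs.modes hK hε, fun k x => ?_⟩
  have h := le_norm_pd_osc (b := b) hχ.differentiable i₀ (2 ^ k) x
  rw [gc.pd_sc, gs.pd_sc, sc, sc, Complex.ofReal_mul, Complex.ofReal_mul (ε k * (1 / 8) ^ k),
    mul_left_comm Complex.I, ← mul_sub, norm_mul, Complex.norm_real,
    Real.norm_of_nonneg (mul_nonneg (hε k) (by positivity))]
  rw [abs_mul, abs_of_pos (by positivity : (0 : ℝ) < 2 ^ k)] at h
  have e : (4 : ℝ) ^ k * (2 ^ k * (1 / 8) ^ k) = 1 := by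
    rw [← mul_pow, ← mul_pow]
    norm_num
  calc ε k * |χ x| = 4 ^ k * (2 ^ k * (1 / 8) ^ k) * (ε k * |χ x|) := by rw [e, one_mul]
    _ = 4 ^ k * (ε k * (1 / 8) ^ k * (2 ^ k * |χ x|)) := by ring
    _ ≤ _ := by
        have := hε k
        gcongr

theorem exists_counterexample (hn : 1 ≤ n) (μ : Measure E) [μ.IsAddHaarMeasure]
    (b : OrthonormalBasis (Fin n) ℝ E) (Ω D : Set E) (hΩ : IsOpen Ω) (hne : Ω.Nonempty)
    (hD : D ⊆ frontier Ω) (T : ℝ) (hT : 0 < T) {θ : ℝ → ℝ} (hθ : IsModulus θ)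
    (hnD : ¬IsSquareDini θ) {δ : ℝ} (hδ : 0 < δ) (hδ1 : δ ≤ 1 / 2) :
    ∃ (a : ℝ → E → ℝ) (C C' : ℝ) (𝔄 : ℝ → formDomain μ b Ω D →L[ℂ] Antidual μ b Ω D),
      (Continuous fun p : ℝ × E => a p.1 p.2) ∧ (∀ t x, |a t x - 1| ≤ δ) ∧
      (∀ t s x, |a t x - a s x| ≤ C * θ |t - s|) ∧
      (∀ t x y, |a t (x + y) - 2 * a t x + a t (x - y)| ≤ C * θ (‖y‖ ^ 2)) ∧
      (∀ t u v, 𝔄 t u v = form μ b Ω D (fun x => (a t x : ℂ) • 1) u v) ∧
      (∀ t s, ‖𝔄 t - 𝔄 s‖ ≤ C' * θ |t - s|) ∧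
      ∃ (f : ℝ → L2 μ Ω) (u : ℝ → formDomain μ b Ω D), MemL2 T f ∧
        IsLionsSolution (toH μ b Ω D) T 𝔄 f u ∧ ¬MemH1 T fun t => toH μ b Ω D (u t) := by
  obtain ⟨i₀⟩ : Nonempty (Fin n) := ⟨⟨0, hn⟩⟩
  have : CompleteSpace (formDomain μ b Ω D) :=
    (Submodule.isClosed_topologicalClosure _).completeSpace_coe
  obtain ⟨ε, hε0, hε1, hεs, hεθ⟩ := exists_amplitude hθ hnD
  obtain ⟨K, χ, g, hK, hKΩ, hKD, hχ, hg, ⟨x₀, hx₀⟩, hgχ⟩ := exists_bumps b i₀ hΩ hne hD
  have hK₀ : IsCompact (tsupport χ) := hχ.compact hK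
  obtain ⟨cc, ss, mc, ms, hlow⟩ := exists_modes b i₀ hK₀ (χ := χ) ⟨hχ.smooth, subset_rfl⟩ hε0
  have hcc : ∀ k, Test K (cc k) := fun k => (mc.test k).mono hχ.supp
  have hss : ∀ k, Test K (ss k) := fun k => (ms.test k).mono hχ.supp
  set a0 : ℕ → (E →ᵇ ℝ) := fun k => bcf (cc k) with ha0
  set b0 : ℕ → (E →ᵇ ℝ) := fun k => bcf (ss k) with hb0
  set a2 : Fin n → ℕ → (E →ᵇ ℝ) := fun i k => bcf (pd b i (pd b i₀ (cc k))) with ha2
  set b2 : Fin n → ℕ → (E →ᵇ ℝ) := fun i k => bcf (pd b i (pd b i₀ (ss k))) with hb2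
  set a1 : ℕ → (E →ᵇ ℝ) := fun k => (-(4 : ℝ) ^ k) • b0 k with ha1
  set b1 : ℕ → (E →ᵇ ℝ) := fun k => ((4 : ℝ) ^ k) • a0 k with hb1
  have sa1 : Summable fun k => ‖a1 k‖ := ms.neg.summable hε1
  have sb1 : Summable fun k => ‖b1 k‖ := mc.pos.summable hε1
  have sa0 : Summable fun k => (4 : ℝ) ^ k * ‖a0 k‖ := by
    simpa [hb1, norm_smul] using sb1
  have sb0 : Summable fun k => (4 : ℝ) ^ k * ‖b0 k‖ := by
    simpa [ha1, norm_smul] using sa1
  have hle : ∀ (c : ℕ → (E →ᵇ ℝ)) (k : ℕ), ‖c k‖ ≤ (4 : ℝ) ^ k * ‖c k‖ := fun c k =>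
    le_mul_of_one_le_left (norm_nonneg _) (one_le_pow₀ (by norm_num))
  have sa0' : Summable fun k => ‖a0 k‖ :=
    Summable.of_nonneg_of_le (fun _ => norm_nonneg _) (hle a0) sa0
  have sb0' : Summable fun k => ‖b0 k‖ :=
    Summable.of_nonneg_of_le (fun _ => norm_nonneg _) (hle b0) sb0
  have sa2 : ∀ i, Summable fun k => ‖a2 i k‖ := fun i => (mc.two i).summable hε1
  have sb2 : ∀ i, Summable fun k => ‖b2 i k‖ := fun i => (ms.two i).summable hε1
  set Q : ℝ → (E →ᵇ ℝ) := wave a1 b1 with hQ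
  set P : Fin n → ℝ → (E →ᵇ ℝ) := fun i => wave (a2 i) (b2 i) with hP
  have hQc : Continuous Q := continuous_wave sa1 sb1
  have hPc : ∀ i, Continuous (P i) := fun i => continuous_wave (sa2 i) (sb2 i)
  obtain ⟨C₁, hC₁, gQ⟩ := exists_good hε0 hε1 hεθ ms.neg mc.pos
  obtain ⟨C₂, hC₂, gP⟩ := exists_good hε0 hε1 hεθ (mc.two i₀) (ms.two i₀)
  obtain ⟨η, C, a, hη, hC, hac, ha1', haid, hatime, hatwo, hapd⟩ :=
    exists_scalar (P := P i₀) (Q := Q) hθ.nonneg (add_pos hC₁ hC₂)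
      (gP.mono hθ.nonneg (by linarith)) (gQ.mono hθ.nonneg (by linarith)) (hPc i₀) hQc hδ hδ1
  obtain ⟨K₁, hK₁, hK₁'⟩ := exists_norm_matOp_sub_le μ b Ω D
  have hz : ∀ {F : E → ℝ}, Test (tsupport χ) F → ∀ x, x ∉ tsupport χ → bcf F x = 0 :=
    fun hF x hx => (hF.bcf_apply hK₀ x).trans (hF.eq_zero hx)
  have hP0 : ∀ j t x, x ∉ tsupport χ → P j t x = 0 := fun j t x hx =>
    wave_apply_eq_zero (sa2 j) (sb2 j) (fun k => hz (((mc.test k).pd b i₀).pd b j) x hx)
      (fun k => hz (((ms.test k).pd b i₀).pd b j) x hx) t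
  have hQ0 : ∀ t x, x ∉ tsupport χ → Q t x = 0 := fun t x hx =>
    wave_apply_eq_zero sa1 sb1 (fun k => by simp [ha1, hb0, hz (ms.test k) x hx])
      (fun k => by simp [hb1, ha0, hz (mc.test k) x hx]) t
  set R : Fin n → ℝ → (E →ᵇ ℝ) := fun i t => if i₀ = i then 0 else a t * P i t with hR
  have hR' : ∀ i, ∃ R' : ℝ → (E →ᵇ ℝ), Continuous R' ∧ ∀ t,
      dualOf μ b Ω D none (cut μ Ω hK (R' t)) = -dualOf μ b Ω D (some i) (cut μ Ω hK (R i t)) := by
    intro i
    by_cases hi : i₀ = i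
    · exact ⟨fun _ => 0, continuous_const, fun t => by simp [hR, hi]⟩
    have s3a := fun l => (mc.three i hi l).summable hε1
    have s3b := fun l => (ms.three i hi l).summable hε1
    have s1a := (ms.neg' i hi).summable hε1
    have s1b := (mc.pos' i hi).summable hε1
    have hPd := fun l t => hasPD_wave (sa2 l) (sb2 l) (s3a l) (s3b l)
      (fun k => hasPD_bcf hK (((hcc k).pd b i₀).pd b l) i)
      (fun k => hasPD_bcf hK (((hss k).pd b i₀).pd b l) i) t
    obtain ⟨a', ha'c, ha'⟩ := hapd (b i) _ _ (continuous_wave (s3a i₀) (s3b i₀))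
      (continuous_wave s1a s1b) (hPd i₀) fun t => hasPD_wave sa1 sb1 s1a s1b
        (fun k => (hasPD_bcf hK (hss k) i).smul _) (fun k => (hasPD_bcf hK (hcc k) i).smul _) t
    refine ⟨_, (ha'c.mul (hPc i)).add (hac.mul (continuous_wave (s3a i) (s3b i))), fun t => ?_⟩
    simp only [hR, if_neg hi]
    refine dualOf_hasPD hK hKΩ ((ha' t).mul (hPd i t)) (fun x hx => ?_) fun x hx => ?_
    · rw [BoundedContinuousFunction.mul_apply, hP0 i t x fun h' => hx (hχ.supp h'), mul_zero]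
    · have hx' : x ∉ tsupport χ := fun h' => hx (hχ.supp h')
      rw [Pi.add_apply, Pi.mul_apply, Pi.mul_apply, BoundedContinuousFunction.add_apply,
        BoundedContinuousFunction.mul_apply,
        BoundedContinuousFunction.mul_apply, wave_apply_eq_zero (s3a i) (s3b i)
          (fun k => hz ((((mc.test k).pd b i₀).pd b i).pd b i) x hx')
          (fun k => hz ((((ms.test k).pd b i₀).pd b i).pd b i) x hx') t, mul_zero, add_zero]
      exact mul_eq_zero_of_right _ (hP0 i t x hx')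
  choose R' hR'c hR'e using hR'
  set M : ℝ → Fin n → Fin n → (E →ᵇ ℝ) := fun t i j => kron i j • a t with hM
  have hMat : ∀ t x, (Matrix.of fun i j => (M t i j x : ℂ)) = (a t x : ℂ) • 1 := by
    intro t x
    ext i j
    by_cases h : i = j <;> simp [hM, kron, h]
  -- the key identity
  have hkey : ∀ t i, ∑ j, M t i j * (bcf (pd b j g) + η • P j t) =
      bcf (pd b i g) + (kron i₀ i * η) • Q t + η • R i t := by
    intro t i
    ext x
    simp only [hM, BoundedContinuousFunction.coe_sum, Finset.sum_apply,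
      BoundedContinuousFunction.coe_mul, Pi.mul_apply, BoundedContinuousFunction.coe_add,
      Pi.add_apply, BoundedContinuousFunction.coe_smul, smul_eq_mul,
      (hg.pd b _).bcf_apply hK, mul_assoc, sum_kron_mul]
    by_cases hx : x ∈ tsupport χ
    · rw [hgχ x hx]
      by_cases hi : i₀ = i
      · subst hi
        simp [hR, kron, haid]
      · simp [hR, kron, hi, mul_left_comm]
    · have h1 := haid t x
      rw [hP0 i₀ t x hx, hQ0 t x hx, mul_zero, add_zero, mul_one] at h1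
      by_cases hi : i₀ = i <;> simp [hR, hi, h1, hP0 i t x hx, hQ0 t x hx]
  -- the solution
  set α : ℕ → formDomain μ b Ω D := fun k => jetV μ b Ω D hK hKD ((hcc k).pd b i₀) with hα
  set β : ℕ → formDomain μ b Ω D := fun k => jetV μ b Ω D hK hKD ((hss k).pd b i₀) with hβ
  set G : formDomain μ b Ω D := jetV μ b Ω D hK hKD hg with hG
  have hjet : ∀ (c : ℕ → E → ℝ) (hc : ∀ k, Test K (c k)), Modes b i₀ (tsupport χ) ε c →
      Summable fun k => ‖jetV μ b Ω D hK hKD ((hc k).pd b i₀)‖ := by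
    intro c hc mm
    refine Summable.of_nonneg_of_le (fun _ => norm_nonneg _) (fun k => ?_)
      (((mm.one.summable hε1).add (summable_sum (s := Finset.univ)
        fun i _ => (mm.two i).summable hε1)).mul_left ‖jetL n μ Ω hK‖)
    refine norm_jetV_le μ b Ω D hK hKD _ (fun x => ?_) fun i x => ?_
    · rw [← ((hc k).pd b i₀).bcf_apply hK]
      exact le_add_of_le_of_nonneg ((bcf _).norm_coe_le_norm x)
        (Finset.sum_nonneg fun i _ => norm_nonneg _)
    · rw [← (((hc k).pd b i₀).pd b i).bcf_apply hK]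
      exact le_add_of_nonneg_of_le (norm_nonneg _) (((bcf _).norm_coe_le_norm x).trans
        (Finset.single_le_sum (f := fun i => ‖bcf (pd b i (pd b i₀ (c k)))‖)
          (fun i _ => norm_nonneg _) (Finset.mem_univ i)))
  have sα : Summable fun k => ‖α k‖ := hjet cc hcc mc
  have sβ : Summable fun k => ‖β k‖ := hjet ss hss ms
  set U : ℝ → formDomain μ b Ω D := fun t => G + η • wave α β t with hU
  have hUc : Continuous U := continuous_const.add ((continuous_wave sα sβ).const_smul η)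
  have hcompU : ∀ t j, comp μ b Ω D (some j) (U t) = cut μ Ω hK (bcf (pd b j g) + η • P j t) := by
    intro t j
    have h1 := map_wave ((comp μ b Ω D (some j)).restrictScalars ℝ) sα sβ t
    have h2 := map_wave (cut μ Ω hK) (sa2 j) (sb2 j) t
    have h3 : comp μ b Ω D (some j) (wave α β t) = cut μ Ω hK (P j t) := h1.trans h2.symm
    rw [hU, map_add, map_add, ContinuousLinearMap.map_smul_of_tower, map_smul, h3]
    rfl
  set N : (E →ᵇ ℝ) →L[ℝ] Antidual μ b Ω D :=
    ((dualOf μ b Ω D (some i₀)).restrictScalars ℝ).comp (cut μ Ω hK) with hN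
  have hembU : (fun t => embed μ b Ω D (U t)) =
      fun t => embed μ b Ω D G - η • N (wave a0 b0 t) := by
    funext t
    have h1 := map_wave (embed μ b Ω D) sα sβ t
    have h2 := map_wave (-N) sa0' sb0' t
    have h3 : (fun k => embed μ b Ω D (α k)) = fun k => (-N) (a0 k) :=
      funext fun k => (hcc k).dualOf_pd hK hKΩ i₀
    have h4 : (fun k => embed μ b Ω D (β k)) = fun k => (-N) (b0 k) :=
      funext fun k => (hss k).dualOf_pd hK hKΩ i₀
    rw [hU, map_add, map_smul, h1, h3, h4, ← h2, neg_apply, smul_neg, sub_eq_add_neg]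
  have hderU : ∀ t, HasDerivAt (fun t => embed μ b Ω D (U t)) (-(η • N (Q t))) t := by
    intro t
    rw [hembU]
    exact ((N.hasFDerivAt.comp_hasDerivAt t (hasDerivAt_wave sa0 sb0 t)).const_smul η).const_sub _
  set Δ : ℝ → L2 μ Ω := fun t =>
    ∑ i, (cut μ Ω hK (bcf (pd b i (pd b i g))) + η • cut μ Ω hK (R' i t)) with hΔ
  have hΔc : Continuous Δ := continuous_finsetSum _ fun i _ =>
    continuous_const.add (((cut μ Ω hK).continuous.comp (hR'c i)).const_smul η)
  have hAU : ∀ t, matOp μ b Ω D (M t) (U t) = -dualOf μ b Ω D none (Δ t) + η • N (Q t) := by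
    intro t
    have h1 : ∀ i, ∑ j, dualOf μ b Ω D (some i)
        (mulOp μ Ω (M t i j) (comp μ b Ω D (some j) (U t))) =
        -dualOf μ b Ω D none (cut μ Ω hK (bcf (pd b i (pd b i g))) + η • cut μ Ω hK (R' i t)) +
          (kron i₀ i * η) • dualOf μ b Ω D (some i) (cut μ Ω hK (Q t)) := by
      intro i
      simp only [hcompU, mulOp_cut]
      rw [← map_sum, ← map_sum, hkey]
      simp only [map_add, map_smul, ContinuousLinearMap.map_smul_of_tower]
      rw [(hg.pd b i).dualOf_pd hK hKΩ i, hR'e]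
      module
    rw [matOp_apply]
    simp only [h1, Finset.sum_add_distrib, Finset.sum_neg_distrib]
    rw [hΔ, map_sum]
    congr 1
    rw [Finset.sum_eq_single i₀]
    · simp [kron, hN]
    · intro i _ hi
      simp [kron, hi.symm]
    · simp
  set v : ℝ → formDomain μ b Ω D := fun t => t • U t with hv
  have hvc : Continuous v := continuous_id.smul hUc
  set f : ℝ → L2 μ Ω := fun t => toH μ b Ω D (U t) - t • Δ t with hf
  have hfc : Continuous f :=
    ((toH μ b Ω D).continuous.comp hUc).sub (continuous_id.smul hΔc)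
  have hderv : ∀ t, HasDerivAt (fun t => embed μ b Ω D (v t))
      (t • -(η • N (Q t)) + embed μ b Ω D (U t)) t := by
    intro t
    have := (hasDerivAt_id t).smul (hderU t)
    simpa only [hv, map_smul, id, one_smul, Pi.smul_def'] using this
  have hgc : Continuous fun t : ℝ => t • -(η • N (Q t)) + embed μ b Ω D (U t) :=
    (continuous_id.smul ((N.continuous.comp hQc).const_smul η).neg).add
      ((embed μ b Ω D).continuous.comp hUc)
  have hevc : Continuous fun t => embed μ b Ω D (v t) := (embed μ b Ω D).continuous.comp hvc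
  have hsol : IsLionsSolution (toH μ b Ω D) T (fun t => matOp μ b Ω D (M t)) f v := by
    refine ⟨memL2_of_continuous hvc, memL2_of_continuous hevc, ⟨_, memL2_of_continuous hgc,
      hasWeakDeriv_of_hasDerivAt hT hderv hgc, Eventually.of_forall fun t => ?_⟩,
      ⟨_, hevc.continuousOn, EventuallyEq.rfl, by simp [hv]⟩⟩
    rw [hv, hf, ContinuousLinearMap.map_smul_of_tower, hAU, toAntidual_eq, map_sub,
      ContinuousLinearMap.map_smul_of_tower, embed_apply, toAntidual_eq]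
    module
  refine ⟨fun t x => a t x, C, K₁ * C, fun t => matOp μ b Ω D (M t), by fun_prop, ha1', hatime,
    hatwo, fun t u v => by rw [matOp_eq_form]; simp only [hMat], fun t s => ?_, f, v,
    memL2_of_continuous hfc, hsol, ?_⟩
  · rw [mul_assoc K₁]
    refine hK₁' _ _ _ fun i j => ?_
    have h0 : 0 ≤ C * θ |t - s| := mul_nonneg hC (hθ.nonneg _ (abs_nonneg _))
    refine (BoundedContinuousFunction.norm_le h0).2 fun x => ?_
    change |kron i j * a t x - kron i j * a s x| ≤ _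
    rw [← mul_sub]
    exact (abs_mul_le_mul (abs_kron_le i j) (hatime t s x)).trans_eq (one_mul _)
  · set L : formDomain μ b Ω D →L[ℝ] L2 μ Ω := η • (toH μ b Ω D).restrictScalars ℝ with hL
    have hsum : ∀ γ : ℕ → formDomain μ b Ω D, (Summable fun k => ‖γ k‖) →
        Summable fun k => ‖L (γ k)‖ := fun γ h =>
      Summable.of_nonneg_of_le (fun _ => norm_nonneg _) (fun k => L.le_opNorm _) (h.mul_left _)
    have hχ0 : 0 < ‖cut μ Ω hK (bcf χ)‖ := by
      rw [norm_pos_iff]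
      intro h0
      have h1 : (fun x => (χ x : ℂ)) =ᵐ[μ.restrict Ω] fun _ => 0 := by
        filter_upwards [hχ.coeFn_cut μ Ω hK, Lp.coeFn_zero ℂ 2 (μ.restrict Ω)] with x h1 h2
        rw [← h1, h0, h2]
        rfl
      have h2 := Measure.eqOn_open_of_ae_eq h1 hΩ
        (Complex.continuous_ofReal.comp hχ.smooth.continuous).continuousOn continuousOn_const
        (hKΩ (hχ.supp (subset_tsupport _ hx₀)))
      exact hx₀ (by simpa using h2)
    rintro ⟨-, γ, hγ, hw⟩
    have e0 : (fun t => toH μ b Ω D (v t)) = fun t : ℝ =>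
        t • (toH μ b Ω D G + wave (fun k => L (α k)) (fun k => L (β k)) t) := by
      funext t
      have h1 := map_wave L sα sβ t
      simp only [hv, hU]
      rw [ContinuousLinearMap.map_smul_of_tower, map_add, ContinuousLinearMap.map_smul_of_tower,
        ← h1]
      rfl
    rw [e0] at hw
    have hs := summable_of_hasWeakDeriv hT _ (hsum α sα) (hsum β sβ) hγ hw
    have hlow' : ∀ j, η * ‖cut μ Ω hK (bcf χ)‖ * ε j ≤
        (4 : ℝ) ^ j * ‖L (β j) - Complex.I • L (α j)‖ := by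
      intro j
      have e : L (β j) - Complex.I • L (α j) = η • (cut μ Ω hK (bcf (pd b i₀ (ss j))) -
          Complex.I • cut μ Ω hK (bcf (pd b i₀ (cc j)))) := by
        rw [smul_sub, smul_comm η Complex.I]
        rfl
      have e' : ‖cut μ Ω hK (bcf χ)‖ * ε j = ‖ε j • cut μ Ω hK (bcf χ)‖ := by
        rw [norm_smul, Real.norm_of_nonneg (hε0 j), mul_comm]
      rw [e, norm_smul, Real.norm_of_nonneg hη.le, mul_left_comm, mul_assoc, e']
      refine mul_le_mul_of_nonneg_left (Lp.norm_le_mul_norm_of_ae_le_mul ?_) hη.le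
      filter_upwards [hχ.coeFn_cut μ Ω hK, ((hss j).pd b i₀).coeFn_cut μ Ω hK,
        ((hcc j).pd b i₀).coeFn_cut μ Ω hK,
        Lp.coeFn_sub (cut μ Ω hK (bcf (pd b i₀ (ss j))))
          (Complex.I • cut μ Ω hK (bcf (pd b i₀ (cc j)))),
        Lp.coeFn_smul Complex.I (cut μ Ω hK (bcf (pd b i₀ (cc j)))),
        Lp.coeFn_smul (ε j) (cut μ Ω hK (bcf χ))] with x h1 h2 h3 h4 h5 h6
      rw [h6, Pi.smul_apply, h1, h4, Pi.sub_apply, h5, Pi.smul_apply, h2, h3, norm_smul,
        Complex.norm_real, Real.norm_of_nonneg (hε0 j), Real.norm_eq_abs, smul_eq_mul]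
      exact hlow j x
    have hc0 : 0 < η * ‖cut μ Ω hK (bcf χ)‖ := mul_pos hη hχ0
    have hs2 : Summable fun j => (η * ‖cut μ Ω hK (bcf χ)‖) ^ 2 * ε j ^ 2 :=
      Summable.of_nonneg_of_le (fun j => by positivity) (fun j => by
        rw [← mul_pow]
        exact pow_le_pow_left₀ (mul_nonneg hc0.le (hε0 j)) (hlow' j) 2) hs
    exact hεs ((summable_mul_left_iff (pow_pos hc0 2).ne').1 hs2)

end Pool.Agent.MP_954c34_an.Sharp

end
end
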