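import Pool.Agent.Mg.F954c34a.G167318
import Pool.Agent.MP_954c34_an.Sharp.Defs
import Pool.Agent.Mg.F954c34a.G9909f5

set_option linter.all false

section

open MeasureTheory Set Filter Topology
open scoped InnerProductSpace ComplexConjugate ContDiff

set_option linter.unusedSectionVars false
set_option maxSynthPendingDepth 3

noncomputable section

namespace Pool.Agent.MP_954c34_an.Sharp

variable {V H : Type} [NormedAddCommGroup V] [InnerProductSpace ℂ V] [CompleteSpace V]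
  [NormedAddCommGroup H] [InnerProductSpace ℂ H] [CompleteSpace H]

lemma memLp_tensor {φ : ℝ → ℝ} (hφ : Continuous φ) (hc : HasCompactSupport φ) (e : V) :
    MemLp (fun t => φ t • e) 2 (volume : Measure ℝ) :=
  (hφ.smul continuous_const).memLp_of_hasCompactSupport (hc.smul_right (f' := fun _ => e))

lemma inner_tensor {T : ℝ} {φ : ℝ → ℝ} (hφ : Continuous φ) (hc : HasCompactSupport φ)
    (hs : tsupport φ ⊆ Ioo 0 T) (e : V) (a : LL V) :
    ⟪(memLp_tensor hφ hc e).toLp, a⟫_ℂ = ⟪e, ∫ t in Ioo 0 T, φ t • a t⟫_ℂ := by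
  have hi : IntegrableOn (fun t => φ t • a t) (Ioo 0 T) :=
    integrableOn_smul_of_continuous hφ (MemL2.integrableOn ((Lp.memLp a).restrict _))
  rw [← integral_inner hi, L2.inner_def, setIntegral_eq_integral_of_forall_compl_eq_zero]
  · refine integral_congr_ae ?_
    filter_upwards [(memLp_tensor hφ hc e).coeFn_toLp] with t ht
    rw [ht, ← Complex.coe_smul, ← Complex.coe_smul, inner_smul_left, inner_smul_right,
      Complex.conj_ofReal]
  · intro t ht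
    rw [eq_zero_of_tsupport_subset hs ht, zero_smul, inner_zero_right]

lemma toAntidual_apply (val : V →L[ℂ] H) (f : H) (v : V) : toAntidual val f v = ⟪val v, f⟫_ℂ := rfl

lemma continuous_of_dyadic {X : Type} [NormedAddCommGroup X] {𝔅 : ℝ → X} {θ : ℝ → ℝ} {W C : ℝ}
    (hC : 0 ≤ C) (hW : ∀ N, ∑ j ∈ Finset.range (N + 1), 2 ^ j * θ ((1 / 2) ^ j) ^ 2 ≤ W)
    (hmod : ∀ t s r, |t - s| ≤ r → ‖𝔅 t - 𝔅 s‖ ≤ C * θ r) : Continuous 𝔅 := by
  refine Metric.continuous_iff.2 fun s ε hε => ?_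
  have hW0 : 0 ≤ W := le_trans (Finset.sum_nonneg fun j _ => by positivity) (hW 0)
  set η := ε / (C + 1) with hη
  have hη0 : 0 < η := by positivity
  obtain ⟨j, hj⟩ := exists_pow_lt_of_lt_one (show 0 < η ^ 2 / (W + 1) by positivity)
    (by norm_num : (1 / 2 : ℝ) < 1)
  have h1 : 2 ^ j * θ ((1 / 2) ^ j) ^ 2 ≤ W :=
    le_trans (Finset.single_le_sum (f := fun j : ℕ => (2 : ℝ) ^ j * θ ((1 / 2) ^ j) ^ 2)
      (fun i _ => by positivity) (Finset.self_mem_range_succ j)) (hW j)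
  have h2 : (1 / 2 : ℝ) ^ j * 2 ^ j = 1 := by
    rw [← mul_pow]
    norm_num
  have hp : (0 : ℝ) < (1 / 2) ^ j := by positivity
  have h3 : θ ((1 / 2) ^ j) ^ 2 < η ^ 2 := by
    rw [lt_div_iff₀ (by positivity)] at hj
    calc θ ((1 / 2) ^ j) ^ 2 = (1 / 2) ^ j * (2 ^ j * θ ((1 / 2) ^ j) ^ 2) := by
          rw [← mul_assoc, h2, one_mul]
      _ ≤ (1 / 2) ^ j * (W + 1) := by gcongr; linarith
      _ < _ := hj
  have h4 : θ ((1 / 2) ^ j) < η := lt_of_pow_lt_pow_left₀ 2 hη0.le h3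
  refine ⟨(1 / 2) ^ j, hp, fun t ht => ?_⟩
  rw [dist_eq_norm]
  calc _ ≤ C * θ ((1 / 2) ^ j) := hmod t s _ ht.le
    _ ≤ C * η := by gcongr
    _ < (C + 1) * η := by nlinarith
    _ = ε := by rw [hη]; field_simp

/-- Extension of the forms to the whole line, as operators on `V`. -/
lemma exists_family (val : V →L[ℂ] H) {T : ℝ} (hT : 0 < T)
    (𝔄 : ℝ → V →L[ℂ] V →L⋆[ℂ] ℂ) {θ : ℝ → ℝ} (hθ0 : ∀ t, 0 ≤ t → 0 ≤ θ t)
    (hmono : MonotoneOn θ (Ici 0)) {W : ℝ}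
    (hW : ∀ N, ∑ j ∈ Finset.range (N + 1), 2 ^ j * θ ((1 / 2) ^ j) ^ 2 ≤ W) {C : ℝ}
    (hC : ∀ t ∈ Icc 0 T, ∀ s ∈ Icc 0 T, ‖𝔄 t - 𝔄 s‖ ≤ C * θ |t - s|) {c κ : ℝ}
    (hco : ∀ᵐ t ∂(volume.restrict (Icc 0 T)), ∀ v,
      c * ‖v‖ ^ 2 ≤ (𝔄 t v v).re + κ * ‖val v‖ ^ 2) :
    ∃ (B : ℝ → V →L[ℂ] V) (Λ : ℝ), Continuous B ∧ (∀ t, ‖B t‖ ≤ Λ) ∧
      (∀ t v, c * ‖v‖ ^ 2 ≤ (⟪v, B t v⟫_ℂ).re) ∧
      (∀ (j : ℕ) t, ‖B t - B (t - (1 / 2) ^ j)‖ ≤ |C| * θ ((1 / 2) ^ j)) ∧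
      ∀ t ∈ Icc 0 T, ∀ v a, ⟪v, B t a⟫_ℂ = 𝔄 t a v + ⟪val v, (κ : ℂ) • val a⟫_ℂ := by
  obtain ⟨R, hR, hRn⟩ := exists_riesz (V := V)
  obtain ⟨K, hK⟩ : ∃ K : V →L[ℂ] V, ∀ v a, ⟪v, K a⟫_ℂ = ⟪val v, (κ : ℂ) • val a⟫_ℂ :=
    ⟨(ContinuousLinearMap.adjoint val).comp ((κ : ℂ) • val), fun v a =>
      ContinuousLinearMap.adjoint_inner_right val v ((κ : ℂ) • val a)⟩
  obtain ⟨τ, hτ, hτ1, hτ2⟩ : ∃ τ : ℝ → ℝ, (∀ t, τ t ∈ Icc 0 T) ∧ (∀ t ∈ Icc 0 T, τ t = t) ∧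
      ∀ t s, |τ t - τ s| ≤ |t - s| :=
    ⟨fun t => projIcc 0 T hT.le t, fun t => (projIcc 0 T hT.le t).2,
      fun t ht => by simp only [projIcc_of_mem hT.le ht], fun t s => abs_projIcc_sub_projIcc hT.le⟩
  obtain ⟨B, hB⟩ : ∃ B : ℝ → V →L[ℂ] V, ∀ t, B t = R.comp (𝔄 (τ t)) + K := ⟨_, fun _ => rfl⟩
  have hBa : ∀ t v a, ⟪v, B t a⟫_ℂ = 𝔄 (τ t) a v + ⟪val v, (κ : ℂ) • val a⟫_ℂ := by
    intro t v a
    rw [hB, add_apply, inner_add_right, ContinuousLinearMap.comp_apply, hR, hK]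
  have hRcomp : ∀ L : V →L[ℂ] V →L⋆[ℂ] ℂ, ‖R.comp L‖ ≤ ‖L‖ := fun L =>
    ContinuousLinearMap.opNorm_le_bound _ (norm_nonneg _) fun v => (hRn _).trans (L.le_opNorm v)
  have hmod : ∀ t s r, |t - s| ≤ r → ‖B t - B s‖ ≤ |C| * θ r := by
    intro t s r hr
    rw [hB, hB, add_sub_add_right_eq_sub, ← ContinuousLinearMap.comp_sub]
    refine (hRcomp _).trans ((hC _ (hτ t) _ (hτ s)).trans ?_)
    refine mul_le_mul (le_abs_self C) ?_ (hθ0 _ (abs_nonneg _)) (abs_nonneg C)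
    exact hmono (mem_Ici.2 (abs_nonneg _)) (mem_Ici.2 ((abs_nonneg _).trans hr))
      ((hτ2 t s).trans hr)
  have hBc : Continuous B := continuous_of_dyadic (abs_nonneg C) hW hmod
  have hBτ : ∀ t, B (τ t) = B t := fun t => by rw [hB, hB, hτ1 _ (hτ t)]
  refine ⟨B, ‖B 0‖ + |C| * θ T, hBc, fun t => ?_, fun t v => ?_, fun j t => hmod _ _ _ ?_,
    fun t ht v a => by rw [hBa, hτ1 t ht]⟩
  · have h1 := hmod (τ t) 0 T (by
      rw [sub_zero, abs_of_nonneg (hτ t).1]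
      exact (hτ t).2)
    have h2 := norm_add_le (B 0) (B t - B 0)
    rw [add_sub_cancel] at h2
    rw [hBτ] at h1
    linarith
  · have hφ : Continuous fun t => min (c * ‖v‖ ^ 2) (⟪v, B t v⟫_ℂ).re :=
      continuous_const.min (Complex.continuous_re.comp
        (continuous_const.inner (hBc.clm_apply continuous_const)))
    have hae : (fun t => min (c * ‖v‖ ^ 2) (⟪v, B t v⟫_ℂ).re)
        =ᵐ[volume.restrict (Icc 0 T)] fun _ => c * ‖v‖ ^ 2 := by
      filter_upwards [hco, ae_restrict_mem measurableSet_Icc] with s h1 h2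
      have : (⟪val v, val v⟫_ℂ).re = ‖val v‖ ^ 2 := inner_self_eq_norm_sq (𝕜 := ℂ) _
      rw [hBa, hτ1 s h2, Complex.add_re, inner_smul_right, Complex.re_ofReal_mul, this,
        min_eq_left (h1 v)]
    have h3 := Measure.eqOn_Icc_of_ae_eq volume hT.ne hae hφ.continuousOn continuousOn_const (hτ t)
    simp only [hBτ] at h3
    exact min_eq_left_iff.1 h3
  · rw [sub_sub_cancel, abs_of_pos (by positivity)]

/-- From the estimate to the weak derivative in `H`. -/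
lemma memH1_of_bound (val : V →L[ℂ] H) {T : ℝ} {u : ℝ → V} (hu : MemL2 T u) {g : LL V}
    (hg : ∀ φ : ℝ → ℝ, ContDiff ℝ ∞ φ → HasCompactSupport φ → tsupport φ ⊆ Ioo 0 T → ∀ v,
      ⟪val v, ∫ t in Ioo 0 T, deriv φ t • val (u t)⟫_ℂ = -⟪v, ∫ t in Ioo 0 T, φ t • g t⟫_ℂ)
    {C : ℝ} (hC : ∀ x ∈ leftSub V T, ‖⟪x, g⟫_ℂ‖ ≤ C * ‖val.compLpL 2 volume x‖) :
    MemH1 T fun t => val (u t) := by
  have hvu : MemL2 T fun t => val (u t) := val.comp_memLp' hu
  obtain ⟨γ, hγ1, hγ2⟩ : ∃ γ : LL H,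
      (∀ x ∈ leftSub V T, ⟪γ, val.compLpL 2 volume x⟫_ℂ = ⟪g, x⟫_ℂ) ∧
      ∀ z, (∀ x, ⟪z, val.compLpL 2 volume x⟫_ℂ = 0) → ⟪z, γ⟫_ℂ = 0 := by
    obtain ⟨γ, h1, h2⟩ := exists_douglas
      ((val.compLpL 2 volume).toLinearMap.comp (leftSub V T).subtype)
      ((innerSL ℂ g).toLinearMap.comp (leftSub V T).subtype) (C := C) fun x => by
        have := hC x x.2
        rw [norm_inner_symm] at this
        exact this
    exact ⟨γ, fun x hx => h1 ⟨x, hx⟩, fun z hz => h2 z fun x => hz x⟩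
  refine ⟨hvu, γ, (Lp.memLp γ).restrict _, fun φ hφ hφc hφs => ?_⟩
  have hφ0 := hφ.continuous
  have hφ1 : Continuous (deriv φ) := hφ.continuous_deriv (by simp)
  have i1 : IntegrableOn (fun t => deriv φ t • val (u t)) (Ioo 0 T) :=
    integrableOn_smul_of_continuous hφ1 hvu.integrableOn
  obtain ⟨z, hz⟩ : ∃ z, z = (∫ t in Ioo 0 T, deriv φ t • val (u t)) + ∫ t in Ioo 0 T, φ t • γ t :=
    ⟨_, rfl⟩
  have hperp : ∀ v, ⟪val v, z⟫_ℂ = 0 := by
    intro v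
    have hl : (memLp_tensor hφ0 hφc v).toLp ∈ leftSub V T := by
      filter_upwards [(memLp_tensor hφ0 hφc v).coeFn_toLp] with t h1 ht
      rw [h1, eq_zero_of_tsupport_subset hφs fun h' => absurd h'.2 (not_lt.2 ht), zero_smul]
    have e1 : val.compLpL 2 volume (memLp_tensor hφ0 hφc v).toLp =
        (memLp_tensor hφ0 hφc (val v)).toLp := by
      refine Lp.ext ?_
      filter_upwards [(memLp_tensor hφ0 hφc v).coeFn_toLp,
        (memLp_tensor hφ0 hφc (val v)).coeFn_toLp,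
        val.coeFn_compLpL (memLp_tensor hφ0 hφc v).toLp] with t h1 h2 h3
      rw [h3, h1, h2, ContinuousLinearMap.map_smul_of_tower]
    have e2 : ⟪(memLp_tensor hφ0 hφc (val v)).toLp, γ⟫_ℂ =
        ⟪(memLp_tensor hφ0 hφc v).toLp, g⟫_ℂ := by
      rw [← e1, ← inner_conj_symm, hγ1 _ hl, inner_conj_symm]
    rw [inner_tensor hφ0 hφc hφs, inner_tensor hφ0 hφc hφs] at e2
    rw [hz, inner_add_right, e2, hg φ hφ hφc hφs, neg_add_cancel]
  have hperp' : ∀ v, ⟪z, val v⟫_ℂ = 0 := fun v => by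
    rw [← inner_conj_symm, hperp, map_zero]
  have h1 : ⟪z, ∫ t in Ioo 0 T, deriv φ t • val (u t)⟫_ℂ = 0 := by
    rw [← integral_inner i1]
    refine integral_eq_zero_of_ae (Eventually.of_forall fun t => ?_)
    simp only
    rw [← Complex.coe_smul, inner_smul_right, hperp', mul_zero, Pi.zero_apply]
  have h2 : ⟪z, ∫ t in Ioo 0 T, φ t • γ t⟫_ℂ = 0 := by
    rw [← inner_tensor hφ0 hφc hφs]
    refine hγ2 _ fun x => ?_
    rw [L2.inner_def]
    refine integral_eq_zero_of_ae ?_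
    filter_upwards [(memLp_tensor hφ0 hφc z).coeFn_toLp, val.coeFn_compLpL x] with t h3 h4
    rw [h3, h4, ← Complex.coe_smul, inner_smul_left, hperp', mul_zero, Pi.zero_apply]
  have h3 : ⟪z, z⟫_ℂ = 0 := by
    nth_rewrite 2 [hz]
    rw [inner_add_right, h1, h2, add_zero]
  exact eq_neg_of_add_eq_zero_left (hz.symm.trans (inner_self_eq_zero.1 h3))

lemma Ioo_inter_Iic_ae_eq {T t : ℝ} (ht : t < T) :
    (Ioo 0 T ∩ Iic t : Set ℝ) =ᵐ[volume] (Ioo 0 t : Set ℝ) := by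
  suffices hs : (Ioo 0 T ∩ Iic t : Set ℝ) = Ioc 0 t by
    rw [hs]
    exact (Ioo_ae_eq_Ioc (a := 0) (b := t)).symm
  ext s
  simp only [mem_inter_iff, mem_Ioo, mem_Iic, mem_Ioc]
  constructor
  · rintro ⟨⟨h1, _⟩, h2⟩
    exact ⟨h1, h2⟩
  · rintro ⟨h1, h2⟩
    exact ⟨⟨h1, h2.trans_lt ht⟩, h2⟩

/-- A Lions solution in terms of functions with values in `V`. -/
lemma exists_of_isLionsSolution (val : V →L[ℂ] H) {T : ℝ} (hT : 0 < T)
    {𝔄 : ℝ → V →L[ℂ] V →L⋆[ℂ] ℂ} {f : ℝ → H} {u : ℝ → V} (hu : IsLionsSolution val T 𝔄 f u) :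
    ∃ G : ℝ → V, MemL2 T G ∧
      (∀ᵐ t ∂(volume.restrict (Ioo 0 T)), ∀ v, ⟪v, G t⟫_ℂ + 𝔄 t (u t) v = ⟪val v, f t⟫_ℂ) ∧
      (∀ᵐ t ∂(volume.restrict (Ioo 0 T)), ∀ v,
        ⟪val v, val (u t)⟫_ℂ = ⟪v, ∫ s in Ioo 0 t, G s⟫_ℂ) ∧
      ∀ φ : ℝ → ℝ, ContDiff ℝ ∞ φ → HasCompactSupport φ → tsupport φ ⊆ Ioo 0 T → ∀ v,
        ⟪val v, ∫ t in Ioo 0 T, deriv φ t • val (u t)⟫_ℂ = -⟪v, ∫ t in Ioo 0 T, φ t • G t⟫_ℂ := by
  obtain ⟨hu1, hu2, ⟨g, hg, hu3, hu4⟩, hu5⟩ := hu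
  obtain ⟨R, hR, -⟩ := exists_riesz (V := V)
  have hvu : MemL2 T fun t => val (u t) := val.comp_memLp' hu1
  refine ⟨fun t => R (g t), R.comp_memLp' hg, ?_, ?_, fun φ hφ hφc hφs v => ?_⟩
  · filter_upwards [hu4] with t h1 v
    rw [hR, ← toAntidual_apply, ← h1, add_apply]
  · filter_upwards [ae_eq_primitive hT hg.integrableOn hu3 hu5, ae_restrict_mem measurableSet_Ioo]
      with t h1 ht v
    rw [R.integral_comp_comm (hg.integrableOn.mono_set (Ioo_subset_Ioo_right ht.2.le)), hR,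
      ← h1, toAntidual_apply]
  · have hφ0 := hφ.continuous
    have hφ1 : Continuous (deriv φ) := hφ.continuous_deriv (by simp)
    have i1 : IntegrableOn (fun t => deriv φ t • val (u t)) (Ioo 0 T) :=
      integrableOn_smul_of_continuous hφ1 hvu.integrableOn
    have i2 := integrableOn_smul_of_continuous hφ1 hu2.integrableOn
    have i3 := integrableOn_smul_of_continuous hφ0 hg.integrableOn
    have e3 : ∫ t in Ioo 0 T, φ t • R (g t) = R (∫ t in Ioo 0 T, φ t • g t) := by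
      rw [← R.integral_comp_comm i3]
      refine integral_congr_ae (Eventually.of_forall fun t => ?_)
      exact (R.map_smul_of_tower _ _).symm
    have e4 : ⟪val v, ∫ t in Ioo 0 T, deriv φ t • val (u t)⟫_ℂ =
        ⟪v, R (∫ t in Ioo 0 T, deriv φ t • toAntidual val (val (u t)))⟫_ℂ := by
      rw [← R.integral_comp_comm i2, ← integral_inner i1, ← integral_inner (R.integrable_comp i2)]
      refine integral_congr_ae (Eventually.of_forall fun t => ?_)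
      simp only
      rw [R.map_smul_of_tower, ← Complex.coe_smul, ← Complex.coe_smul, inner_smul_right,
        inner_smul_right, hR, toAntidual_apply]
    rw [e3, e4, hu3 φ hφ hφc hφs, map_neg, inner_neg_right]

/-- Maximal regularity for abstract forms under the dyadic square Dini condition. -/
theorem hasMaxReg_of_dyadic (val : V →L[ℂ] H) {T : ℝ} (hT : 0 < T)
    (𝔄 : ℝ → V →L[ℂ] V →L⋆[ℂ] ℂ) {θ : ℝ → ℝ} (hθ0 : ∀ t, 0 ≤ t → 0 ≤ θ t)
    (hmono : MonotoneOn θ (Ici 0)) {W : ℝ}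
    (hW : ∀ N, ∑ j ∈ Finset.range (N + 1), 2 ^ j * θ ((1 / 2) ^ j) ^ 2 ≤ W) {C : ℝ}
    (hC : ∀ t ∈ Icc 0 T, ∀ s ∈ Icc 0 T, ‖𝔄 t - 𝔄 s‖ ≤ C * θ |t - s|) {c κ : ℝ} (hc : 0 < c)
    (hco : ∀ᵐ t ∂(volume.restrict (Icc 0 T)), ∀ v,
      c * ‖v‖ ^ 2 ≤ (𝔄 t v v).re + κ * ‖val v‖ ^ 2) :
    HasMaxReg val T 𝔄 := by
  intro f hf u hu
  obtain ⟨B, Λ, hBc, hBΛ, hBco, hBw, hBa⟩ := exists_family val hT 𝔄 hθ0 hmono hW hC hco
  obtain ⟨G, hG, hG1, hG2, hG3⟩ := exists_of_isLionsSolution val hT hu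
  have hu1 := hu.memL2
  have hBW : ∀ N, ∑ j ∈ Finset.range (N + 1), 2 ^ j * (|C| * θ ((1 / 2) ^ j)) ^ 2 ≤
      |C| ^ 2 * W := by
    intro N
    refine le_trans (le_of_eq ?_) (mul_le_mul_of_nonneg_left (hW N) (by positivity))
    rw [Finset.mul_sum]
    exact Finset.sum_congr rfl fun j _ => by ring
  have hvu : MemL2 T fun t => val (u t) := val.comp_memLp' hu1
  have hu' : MemLp ((Ioo 0 T).indicator u) 2 volume :=
    (memLp_indicator_iff_restrict measurableSet_Ioo).2 hu1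
  have hg' : MemLp ((Ioo 0 T).indicator G) 2 volume :=
    (memLp_indicator_iff_restrict measurableSet_Ioo).2 hG
  have hF' : MemLp ((Ioo 0 T).indicator fun t => f t + (κ : ℂ) • val (u t)) 2 volume :=
    (memLp_indicator_iff_restrict measurableSet_Ioo).2 (MemLp.add hf (MemLp.const_smul hvu _))
  have hgi : Integrable ((Ioo 0 T).indicator G) :=
    (integrable_indicator_iff measurableSet_Ioo).2 hG.integrableOn
  obtain ⟨C', hC'⟩ := line_bound val (T := T) hBc hBΛ hc hBco hBw hBW (u := hu'.toLp)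
    (g := hg'.toLp) (F := hF'.toLp) (hgi.congr hg'.coeFn_toLp.symm)
    (by
      filter_upwards [hu'.coeFn_toLp] with t h1 ht
      rw [h1, indicator_of_notMem fun h' => absurd h'.2 (not_lt.2 ht)])
    (by
      filter_upwards [(ae_restrict_iff' measurableSet_Ioo).1 hG2, hu'.coeFn_toLp]
        with t h1 h2 ht v
      rw [h2, integral_congr_ae (ae_restrict_of_ae hg'.coeFn_toLp),
        integral_indicator measurableSet_Ioo, Measure.restrict_restrict measurableSet_Ioo,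
        setIntegral_congr_set (Ioo_inter_Iic_ae_eq ht)]
      by_cases h0 : 0 < t
      · rw [indicator_of_mem (show t ∈ Ioo 0 T from ⟨h0, ht⟩), h1 ⟨h0, ht⟩]
      · rw [indicator_of_notMem (fun h' => h0 h'.1), Ioo_eq_empty h0]
        simp)
    (by
      filter_upwards [(ae_restrict_iff' measurableSet_Ioo).1 hG1, hu'.coeFn_toLp, hg'.coeFn_toLp,
        hF'.coeFn_toLp] with t h1 h2 h3 h4 v
      rw [h2, h3, h4]
      by_cases ht : t ∈ Ioo 0 T
      · rw [indicator_of_mem ht, indicator_of_mem ht, indicator_of_mem ht,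
          hBa t (Ioo_subset_Icc_self ht), inner_add_right, ← h1 ht, add_assoc]
      · simp [indicator_of_notMem ht])
  refine memH1_of_bound val hu1 (fun φ hφ hφc hφs v => ?_) hC'
  rw [hG3 φ hφ hφc hφs]
  congr 2
  refine integral_congr_ae ?_
  filter_upwards [ae_restrict_of_ae hg'.coeFn_toLp, ae_restrict_mem measurableSet_Ioo]
    with t h1 h2
  rw [h1, indicator_of_mem h2]

end Pool.Agent.MP_954c34_an.Sharp

end
end

section

open MeasureTheory Set Filter Topology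
open scoped ContDiff ComplexConjugate InnerProductSpace Matrix

set_option linter.unusedSectionVars false
set_option maxSynthPendingDepth 3

noncomputable section

namespace Pool.Agent.MP_954c34_an.Sharp

section Transfer

variable {V W H : Type} [NormedAddCommGroup V] [NormedSpace ℂ V] [NormedAddCommGroup W]
  [NormedSpace ℂ W] [NormedAddCommGroup H] [InnerProductSpace ℂ H]

lemma exists_transfer (e : V ≃ₗᵢ[ℂ] W) (val : V →L[ℂ] H) (val' : W →L[ℂ] H)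
    (he : ∀ v, val' (e v) = val v) (T : ℝ) (𝔅 : ℝ → W →L[ℂ] W →L⋆[ℂ] ℂ) :
    ∃ 𝔄 : ℝ → V →L[ℂ] V →L⋆[ℂ] ℂ, (∀ t u v, 𝔄 t u v = 𝔅 t (e u) (e v)) ∧
      (∀ t s, ‖𝔄 t - 𝔄 s‖ ≤ ‖𝔅 t - 𝔅 s‖) ∧
      ∀ f u, IsLionsSolution val' T 𝔅 f u → IsLionsSolution val T 𝔄 f fun t => e.symm (u t) := by
  obtain ⟨Φ, hΦ⟩ : ∃ Φ : (W →L⋆[ℂ] ℂ) →L[ℂ] (V →L⋆[ℂ] ℂ), ∀ ξ v, Φ ξ v = ξ (e v) :=
    ⟨ContinuousLinearMap.precomp ℂ (e : V →L[ℂ] W), fun _ _ => rfl⟩
  have hval : ∀ w, val (e.symm w) = val' w := fun w => by rw [← he, e.apply_symm_apply]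
  have hdual : ∀ h, toAntidual val h = Φ (toAntidual val' h) := fun h => by
    ext v
    rw [hΦ]
    change ⟪val v, h⟫_ℂ = ⟪val' (e v), h⟫_ℂ
    rw [he]
  refine ⟨fun t => Φ.comp ((𝔅 t).comp (e : V →L[ℂ] W)), fun t u v => hΦ _ _, fun t s => ?_,
    fun f u hu => ?_⟩
  · refine ContinuousLinearMap.opNorm_le_bound₂ _ (norm_nonneg _) fun u v => ?_
    have := (𝔅 t - 𝔅 s).le_opNorm₂ (e u) (e v)
    rw [e.norm_map, e.norm_map] at this
    simpa [hΦ] using this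
  · obtain ⟨hu1, hu2, ⟨g, hg, hu3, hu4⟩, ⟨y, hy1, hy2, hy3⟩⟩ := hu
    refine ⟨(e.symm : W →L[ℂ] V).comp_memLp' hu1, ?_, ⟨fun t => Φ (g t), Φ.comp_memLp' hg, ?_, ?_⟩,
      ⟨fun t => Φ (y t), Φ.continuous.comp_continuousOn hy1, ?_, by simp [hy3]⟩⟩
    · simp only [hval, hdual]
      exact Φ.comp_memLp' hu2
    · intro φ hφ hφc hφs
      have i1 := integrableOn_smul_of_continuous (hφ.continuous_deriv (by simp)) hu2.integrableOn
      have i2 := integrableOn_smul_of_continuous hφ.continuous hg.integrableOn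
      simp only [hval, hdual, ← Φ.map_smul_of_tower]
      rw [Φ.integral_comp_comm i1, Φ.integral_comp_comm i2, hu3 φ hφ hφc hφs, map_neg]
    · filter_upwards [hu4] with t ht
      rw [hdual, ← ht, map_add]
      simp
    · filter_upwards [hy2] with t ht
      rw [ht, hval, hdual]

end Transfer

variable {E : Type} [NormedAddCommGroup E] [InnerProductSpace ℝ E] [FiniteDimensional ℝ E]
  [MeasurableSpace E] [BorelSpace E] {n : ℕ} {V : Type} [NormedAddCommGroup V]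
  [InnerProductSpace ℂ V]

lemma exists_equiv {μ : Measure E} {b : OrthonormalBasis (Fin n) ℝ E} {Ω D : Set E}
    {val : V →L[ℂ] Lp ℂ 2 (μ.restrict Ω)} {grad : Fin n → V →L[ℂ] Lp ℂ 2 (μ.restrict Ω)}
    (hV : IsFormDomain μ b Ω D val grad) : ∃ e : V ≃ₗᵢ[ℂ] formDomain μ b Ω D,
      (∀ v, toH μ b Ω D (e v) = val v) ∧ ∀ v i, (e v : Jet n μ Ω) (some i) = grad i v := by
  have := hV.complete
  let j : V →ₗᵢ[ℂ] Jet n μ Ω :=
    { toFun := fun v => WithLp.toLp 2 fun o => o.elim (val v) fun i => grad i v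
      map_add' := fun u v => by
        ext1 o
        cases o <;> simp
      map_smul' := fun c v => by
        ext1 o
        cases o <;> simp
      norm_map' := fun v => by
        rw [← sq_eq_sq₀ (norm_nonneg _) (norm_nonneg _), hV.norm_sq, PiLp.norm_sq_eq_of_L2,
          Fintype.sum_option]
        rfl }
  have hmem : ∀ v, j v ∈ formDomain μ b Ω D := by
    intro v
    refine hV.test_dense.induction (P := fun v => j v ∈ formDomain μ b Ω D) ?_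
      ((Submodule.isClosed_topologicalClosure _).preimage j.continuous) v
    rintro w ⟨φ, hφ, h0, h1⟩
    exact Submodule.le_topologicalClosure _ (Submodule.subset_span ⟨φ, hφ.1, hφ.2.1, hφ.2.2, h0, h1⟩)
  have hle : formDomain μ b Ω D ≤ LinearMap.range j.toLinearMap := by
    refine Submodule.topologicalClosure_minimal _ (Submodule.span_le.2 ?_)
      j.isometry.isClosedEmbedding.isClosed_range
    rintro w ⟨φ, h1, h2, h3, h4, h5⟩
    obtain ⟨v, hv0, hv1⟩ := hV.test_mem φ ⟨h1, h2, h3⟩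
    refine ⟨v, ?_⟩
    ext1 o
    cases o with
    | none => exact Lp.ext (hv0.trans h4.symm)
    | some i => exact Lp.ext ((hv1 i).trans (h5 i).symm)
  let j' : V →ₗᵢ[ℂ] formDomain μ b Ω D :=
    ⟨j.toLinearMap.codRestrict _ hmem, fun v => j.norm_map v⟩
  have hs : Function.Surjective j' := fun w => by
    obtain ⟨v, hv⟩ := hle w.2
    exact ⟨v, Subtype.ext hv⟩
  exact ⟨LinearIsometryEquiv.ofSurjective j' hs, fun v => rfl, fun v i => rfl⟩

lemma isQuasiCoercive_of_isDivForm {μ : Measure E} [μ.IsAddHaarMeasure]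
    {b : OrthonormalBasis (Fin n) ℝ E} {Ω D : Set E}
    {val : V →L[ℂ] Lp ℂ 2 (μ.restrict Ω)} {grad : Fin n → V →L[ℂ] Lp ℂ 2 (μ.restrict Ω)}
    (hV : IsFormDomain μ b Ω D val grad) {T : ℝ} {A : ℝ → E → Matrix (Fin n) (Fin n) ℂ}
    {𝔄 : ℝ → V →L[ℂ] V →L⋆[ℂ] ℂ} (hA : IsDivForm μ Ω grad T A 𝔄) : IsQuasiCoercive val T 𝔄 := by
  obtain ⟨lam, Lam, hlam, -, hell⟩ := hA.elliptic
  refine ⟨lam, lam, hlam, ?_⟩
  filter_upwards [Measure.ae_ae_of_ae_prod hell, ae_restrict_mem measurableSet_Icc]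
    with t ht ht' v
  set F : E → ℂ := fun x => ∑ i, ∑ j, A t x i j * grad j v x * conj (grad i v x) with hF
  have hFe : ∀ x, F x = ∑ i, (A t x *ᵥ fun j => grad j v x) i * conj (grad i v x) := by
    intro x
    simp only [hF, Matrix.mulVec, dotProduct, Finset.sum_mul]
  have hsq : ∀ i, Integrable (fun x => ‖grad i v x‖ ^ 2) (μ.restrict Ω) := fun i =>
    (Lp.memLp (grad i v)).integrable_norm_pow (by norm_num)
  have hN : Integrable (fun x => ∑ i, ‖grad i v x‖ ^ 2) (μ.restrict Ω) :=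
    integrable_finsetSum _ fun i _ => hsq i
  have hFi : Integrable F (μ.restrict Ω) := by
    refine Integrable.mono' (hN.const_mul (Lam ^ 2 + 1)) ?_ ?_
    · refine Finset.aestronglyMeasurable_fun_sum _ fun i _ =>
        Finset.aestronglyMeasurable_fun_sum _ fun j _ => ?_
      exact (((hA.measurable i j).comp measurable_prodMk_left).aestronglyMeasurable.mul
        (Lp.aestronglyMeasurable _)).mul
        (Complex.continuous_conj.comp_aestronglyMeasurable (Lp.aestronglyMeasurable _))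
    · filter_upwards [ht] with x hx
      have h1 := (hx fun j => grad j v x).1
      rw [hFe, add_mul, one_mul]
      refine (norm_sum_le _ _).trans (le_trans ?_ (add_le_add h1 le_rfl))
      rw [← Finset.sum_add_distrib]
      refine Finset.sum_le_sum fun i _ => ?_
      rw [norm_mul, Complex.norm_conj]
      nlinarith [sq_nonneg (‖(A t x *ᵥ fun j => grad j v x) i‖ - ‖grad i v x‖),
        sq_nonneg ‖(A t x *ᵥ fun j => grad j v x) i‖, sq_nonneg ‖grad i v x‖]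
  have e1 : ∀ i, ‖grad i v‖ ^ 2 = ∫ x in Ω, ‖grad i v x‖ ^ 2 ∂μ := by
    intro i
    rw [← inner_self_eq_norm_sq (𝕜 := ℂ), L2.inner_def,
      ← integral_re (L2.integrable_inner (𝕜 := ℂ) _ _)]
    simp only [inner_self_eq_norm_sq]
  have e2 : (𝔄 t v v).re = ∫ x in Ω, (F x).re ∂μ := by
    rw [hA.apply_eq t ht']
    exact (integral_re hFi).symm
  have h3 : lam * ∑ i, ‖grad i v‖ ^ 2 ≤ (𝔄 t v v).re := by
    simp only [e1]
    rw [e2, ← integral_finsetSum _ fun i _ => hsq i, ← integral_const_mul]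
    refine integral_mono_ae (hN.const_mul lam) hFi.re ?_
    filter_upwards [ht] with x hx
    rw [hFe]
    exact (hx fun j => grad j v x).2
  rw [hV.norm_sq, mul_add]
  linarith

theorem top (μ : Measure E) [μ.IsAddHaarMeasure] (hn : 1 ≤ n) (b : OrthonormalBasis (Fin n) ℝ E)
    (Ω D : Set E) (hΩ : IsOpen Ω) (hne : Ω.Nonempty) (hD : D ⊆ frontier Ω) (T : ℝ) (hT : 0 < T)
    (val : V →L[ℂ] Lp ℂ 2 (μ.restrict Ω)) (grad : Fin n → V →L[ℂ] Lp ℂ 2 (μ.restrict Ω))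
    (hV : IsFormDomain μ b Ω D val grad) (θ : ℝ → ℝ) (hθ : IsModulus θ) (δ : ℝ) (hδ : 0 < δ) :
    List.TFAE
      [IntegrableOn (fun t => θ t ^ 2 / t ^ 2) (Ioo 0 1),
        ∀ (V' H' : Type) [NormedAddCommGroup V'] [InnerProductSpace ℂ V'] [CompleteSpace V']
          [NormedAddCommGroup H'] [InnerProductSpace ℂ H'] [CompleteSpace H']
          (val' : V' →L[ℂ] H') (𝔄 : ℝ → V' →L[ℂ] V' →L⋆[ℂ] ℂ),
          IsQuasiCoercive val' T 𝔄 → HasModulus T θ 𝔄 → HasMaxReg val' T 𝔄,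
        ∀ (A : ℝ → E → Matrix (Fin n) (Fin n) ℂ) (𝔄 : ℝ → V →L[ℂ] V →L⋆[ℂ] ℂ),
          IsDivForm μ Ω grad T A 𝔄 → HasModulus T θ 𝔄 → HasMaxReg val T 𝔄,
        ∀ (a : ℝ → E → ℝ) (𝔄 : ℝ → V →L[ℂ] V →L⋆[ℂ] ℂ), IsMild θ δ a →
          IsDivForm μ Ω grad T (fun t x => (a t x : ℂ) • (1 : Matrix (Fin n) (Fin n) ℂ)) 𝔄 →
          HasModulus T θ 𝔄 → HasMaxReg val T 𝔄] := by
  tfae_have 1 → 2 := by
    intro h V' H' _ _ _ _ _ _ val' 𝔄 ⟨c, κ, hc, hco⟩ ⟨C, hC⟩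
    obtain ⟨W, hW⟩ := exists_dyadic_bound hθ h
    exact hasMaxReg_of_dyadic val' hT 𝔄 hθ.nonneg hθ.mono hW hC hc hco
  tfae_have 2 → 3 := by
    intro h A 𝔄 hA hm
    have := hV.complete
    exact h V _ val 𝔄 (isQuasiCoercive_of_isDivForm hV hA) hm
  tfae_have 3 → 4 := fun h a 𝔄 _ hA hm => h _ 𝔄 hA hm
  tfae_have 4 → 1 := by
    intro h
    by_contra hnD
    obtain ⟨a, C, C', 𝔅, hac, ha1, hatime, hatwo, hform, hmod, f, u, hf, hu, hH⟩ :=
      exists_counterexample hn μ b Ω D hΩ hne hD T hT hθ hnD (δ := min δ (1 / 2))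
        (lt_min hδ (by norm_num)) (min_le_right _ _)
    obtain ⟨e, he0, he1⟩ := exists_equiv hV
    obtain ⟨𝔄, h1, h2, h3⟩ := exists_transfer e val (toH μ b Ω D) he0 T 𝔅
    have h4 := h a 𝔄 ⟨fun t x => (ha1 t x).trans (min_le_left _ _), ⟨C, hatime⟩, ⟨C, hatwo⟩⟩
      ⟨fun i j => ?_, ⟨1 / 2, 2, by norm_num, by norm_num, Eventually.of_forall fun p =>
        isElliptic_smul_one ((ha1 _ _).trans (min_le_right _ _))⟩, fun t _ v w => ?_⟩
      ⟨C', fun t _ s _ => (h2 t s).trans (hmod t s)⟩ f hf _ (h3 f u hu)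
    · simp only [← he0, e.apply_symm_apply] at h4
      exact hH h4
    · exact ((Complex.continuous_ofReal.comp hac).smul continuous_const).measurable
    · rw [h1, hform, form]
      simp only [he1]
  tfae_finish

end Pool.Agent.MP_954c34_an.Sharp

end
end
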