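import Pool.Agent.MP_954c34_an.Sob.Defs
import Pool.Agent.Mg.F954c34a.G6d8a92

set_option linter.all false

section

open MeasureTheory Set Filter Topology
open scoped ENNReal

noncomputable section

namespace Pool.Agent.MP_954c34_an.Sob

open Classical in
/-- Majorant for the increments of a `c`-Lipschitz function that is constant on both sides of
`[s, s + l]`. -/
def mj (c s l τ σ : ℝ) : ℝ :=
  if τ ∈ Icc (s - |τ - σ|) (s + l + |τ - σ|) then c * |τ - σ| else 0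

lemma mj_nonneg {c : ℝ} (hc : 0 ≤ c) (s l τ σ : ℝ) : 0 ≤ mj c s l τ σ := by
  unfold mj
  split_ifs <;> positivity

lemma mul_mj (a c s l τ σ : ℝ) : a * mj c s l τ σ = mj (a * c) s l τ σ := by
  unfold mj
  split_ifs <;> simp [mul_assoc]

lemma abs_sub_le_mj {φ : ℝ → ℝ} {c s l y z : ℝ} (h : ∀ τ σ, |φ τ - φ σ| ≤ c * |τ - σ|)
    (h1 : ∀ τ ≤ s, φ τ = y) (h2 : ∀ τ, s + l ≤ τ → φ τ = z) (τ σ : ℝ) :
    |φ τ - φ σ| ≤ mj c s l τ σ := by
  unfold mj
  split_ifs with hm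
  · exact h τ σ
  · rw [mem_Icc, not_and_or, not_le, not_le] at hm
    have a1 := le_abs_self (τ - σ)
    have a2 := neg_abs_le (τ - σ)
    have a3 := abs_nonneg (τ - σ)
    rcases hm with hm | hm
    · rw [h1 τ (by linarith), h1 σ (by linarith), sub_self, abs_zero]
    · rw [h2 τ (by linarith), h2 σ (by linarith), sub_self, abs_zero]

lemma kernel_aux {τ σ : ℝ} (h : σ < τ) :
    Real.exp (-τ) * Real.exp (-σ) / (Real.exp (-σ) - Real.exp (-τ)) ^ 2 ≤
      Real.exp (-(τ - σ)) * (1 + (τ - σ)) ^ 2 / (τ - σ) ^ 2 := by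
  obtain ⟨r, hr⟩ : ∃ r, r = τ - σ := ⟨_, rfl⟩
  have hr0 : 0 < r := by linarith
  have e : Real.exp (-τ) = Real.exp (-σ) * Real.exp (-r) := by
    rw [← Real.exp_add]
    congr 1
    linarith
  have h1 : Real.exp (-r) * (1 + r) ≤ 1 := by
    have := Real.add_one_le_exp r
    rw [Real.exp_neg, inv_mul_le_iff₀ (Real.exp_pos r)]
    linarith
  have h2 : r ≤ (1 + r) * (1 - Real.exp (-r)) := by nlinarith
  have h3 : 0 < 1 - Real.exp (-r) := by
    by_contra hc
    nlinarith [mul_nonneg (by linarith : (0 : ℝ) ≤ 1 + r) (sub_nonneg.2 (not_lt.1 hc))]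
  have h4 := Real.exp_pos (-σ)
  have h5 := Real.exp_pos (-r)
  rw [← hr, e]
  calc _ = Real.exp (-r) / (1 - Real.exp (-r)) ^ 2 := by field_simp
    _ ≤ _ := by
      rw [div_le_div_iff₀ (by positivity) (by positivity), mul_assoc, ← mul_pow]
      gcongr

lemma kernel_le (τ σ : ℝ) :
    Real.exp (-τ) * Real.exp (-σ) / (Real.exp (-σ) - Real.exp (-τ)) ^ 2 ≤
      Real.exp (-|τ - σ|) * (1 + |τ - σ|) ^ 2 / |τ - σ| ^ 2 := by
  rcases lt_trichotomy σ τ with h | h | h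
  · rw [abs_of_pos (sub_pos.2 h)]
    exact kernel_aux h
  · simp [h]
  · rw [abs_sub_comm, abs_of_pos (sub_pos.2 h), mul_comm, ← neg_sub (Real.exp (-τ)), neg_sq]
    exact kernel_aux h

/-- The kernel in logarithmic time. -/
def kr (q h : ℝ) : ℝ := |h| ^ q * (Real.exp (-|h|) * (1 + |h|) ^ 2 / |h| ^ 2)

lemma kr_nonneg (q h : ℝ) : 0 ≤ kr q h := by
  unfold kr
  positivity

lemma measurable_kr (q : ℝ) : Measurable (kr q) := by
  unfold kr
  fun_prop

lemma integrable_kr {q : ℝ} (hq : 1 < q) : Integrable fun h => kr q h * (2 * (1 + |h|)) := by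
  have h1 : IntegrableOn (fun h => kr q h * (2 * (1 + |h|))) (Ioi 0) := by
    have a1 := Real.GammaIntegral_convergent (s := q - 1) (by linarith)
    have a2 := Real.GammaIntegral_convergent (s := q + 2) (by linarith)
    refine Integrable.mono' ((a1.add a2).const_mul 8)
      ((measurable_kr q).mul (by fun_prop)).aestronglyMeasurable ?_
    filter_upwards [ae_restrict_mem measurableSet_Ioi] with h hh
    have hh0 : 0 < h := hh
    rw [Real.norm_of_nonneg (mul_nonneg (kr_nonneg q h) (by positivity)), kr, abs_of_pos hh0]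
    have e1 : h ^ (q - 1 - 1) = h ^ q / h ^ 2 := by
      rw [show q - 1 - 1 = q - 2 by ring, Real.rpow_sub hh0]
      norm_cast
    have e2 : h ^ (q + 2 - 1) = h ^ q / h ^ 2 * h ^ 3 := by
      rw [show q + 2 - 1 = q + 1 by ring, Real.rpow_add hh0, Real.rpow_one]
      field_simp
    have e3 : (1 + h) ^ 3 ≤ 4 * (1 + h ^ 3) := by
      nlinarith [mul_nonneg (by linarith : (0 : ℝ) ≤ 1 + h) (sq_nonneg (h - 1))]
    rw [Pi.add_apply, e1, e2]
    calc _ = 2 * (Real.exp (-h) * (h ^ q / h ^ 2)) * (1 + h) ^ 3 := by ring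
      _ ≤ 2 * (Real.exp (-h) * (h ^ q / h ^ 2)) * (4 * (1 + h ^ 3)) := by gcongr
      _ = _ := by ring
  have h2 : IntegrableOn (fun h => kr q h * (2 * (1 + |h|))) (Iic 0) := by
    have m : MeasurableEmbedding fun x : ℝ => -x := (Homeomorph.neg ℝ).measurableEmbedding
    rw [← Measure.map_neg_eq_self (volume : Measure ℝ), m.integrableOn_map_iff]
    simp_rw [Function.comp_def, kr, abs_neg, neg_preimage, neg_Iic, neg_zero]
    exact Iff.mpr integrableOn_Ici_iff_integrableOn_Ioi h1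
  rw [← integrableOn_univ, ← Iic_union_Ioi (a := (0 : ℝ))]
  exact h2.union h1

/-- The measurable majorant of one piece. -/
def piece (q c s l : ℝ) (p : ℝ × ℝ) : ℝ≥0∞ :=
  {p : ℝ × ℝ | s - |p.2| ≤ p.1 ∧ p.1 ≤ s + l + |p.2|}.indicator
    (fun p => ENNReal.ofReal (c ^ q * kr q p.2)) p

lemma measurable_piece (q c s l : ℝ) : Measurable (piece q c s l) := by
  have h1 : MeasurableSet {p : ℝ × ℝ | s - |p.2| ≤ p.1} :=
    measurableSet_le (by fun_prop) (by fun_prop)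
  have h2 : MeasurableSet {p : ℝ × ℝ | p.1 ≤ s + l + |p.2|} :=
    measurableSet_le (by fun_prop) (by fun_prop)
  exact Measurable.indicator (((measurable_kr q).comp measurable_snd).const_mul _).ennreal_ofReal
    (h1.inter h2)

lemma lintegral_piece {q c l : ℝ} (hc : 0 ≤ c) (hl : 0 ≤ l) (s : ℝ) :
    ∫⁻ τ, ∫⁻ h, piece q c s l (τ, h) ≤
      ENNReal.ofReal (c ^ q * (l + 1)) * ∫⁻ h, ENNReal.ofReal (kr q h * (2 * (1 + |h|))) := by
  rw [lintegral_lintegral_swap (f := fun τ h => piece q c s l (τ, h))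
    (measurable_piece q c s l).aemeasurable,
    ← lintegral_const_mul' _ _ ENNReal.ofReal_ne_top]
  refine lintegral_mono fun h => ?_
  have e : (fun τ => piece q c s l (τ, h)) =
      (Icc (s - |h|) (s + l + |h|)).indicator fun _ => ENNReal.ofReal (c ^ q * kr q h) := by
    funext τ
    rfl
  have hk := kr_nonneg q h
  have ha := abs_nonneg h
  simp only [e]
  rw [lintegral_indicator_const measurableSet_Icc, Real.volume_Icc,
    ← ENNReal.ofReal_mul (by positivity), ← ENNReal.ofReal_mul (by positivity)]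
  refine ENNReal.ofReal_le_ofReal ?_
  calc _ = c ^ q * kr q h * (l + 2 * |h|) := by ring
    _ ≤ c ^ q * kr q h * ((l + 1) * (2 * (1 + |h|))) := by
        gcongr
        nlinarith [mul_nonneg hl ha]
    _ = _ := by ring

lemma lintegral_Iio_log (T : ℝ) (g : ℝ → ℝ≥0∞) :
    ∫⁻ t in Iio T, g t = ∫⁻ τ, ENNReal.ofReal (Real.exp (-τ)) * g (T - Real.exp (-τ)) := by
  have e : (fun τ => T - Real.exp (-τ)) '' univ = Iio T := by
    ext t
    simp only [image_univ, mem_range, mem_Iio]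
    constructor
    · rintro ⟨τ, rfl⟩
      linarith [Real.exp_pos (-τ)]
    · intro ht
      exact ⟨-Real.log (T - t), by rw [neg_neg, Real.exp_log (by linarith)]; ring⟩
  have := lintegral_image_eq_lintegral_abs_deriv_mul (s := univ)
    (f := fun τ => T - Real.exp (-τ)) (f' := fun τ => Real.exp (-τ)) MeasurableSet.univ
    (fun τ _ => by simpa using (hasDerivAt_neg τ).exp.const_sub T)
    (fun a _ b _ h => by simpa using h) g
  rw [e, Measure.restrict_univ] at this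
  simpa only [abs_of_pos (Real.exp_pos _)] using this

theorem finiteSeminorm_of_mj {X : Type} [NormedAddCommGroup X] {ι : Type} [Countable ι]
    (A : ℝ → X) (c s l : ι → ℝ) (hc : ∀ k, 0 ≤ c k) (hl : ∀ k, 0 ≤ l k)
    (hA : ∀ τ σ, ∃ k, ‖A τ - A σ‖ ≤ mj (c k) (s k) (l k) τ σ) {q : ℝ} (hq : 1 < q)
    (hs : Summable fun k => c k ^ q * (l k + 1)) (T : ℝ) :
    FiniteSeminorm T q fun t => A (-Real.log (T - t)) := by
  have hpt : ∀ τ h, ENNReal.ofReal (Real.exp (-τ)) * (ENNReal.ofReal (Real.exp (-(τ + h))) *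
      ENNReal.ofReal (‖A τ - A (τ + h)‖ ^ q /
        (T - Real.exp (-τ) - (T - Real.exp (-(τ + h)))) ^ 2)) ≤
      ∑' k, piece q (c k) (s k) (l k) (τ, h) := by
    intro τ h
    obtain ⟨k, hk⟩ := hA τ (τ + h)
    refine le_trans ?_ (ENNReal.le_tsum k)
    have e : |τ - (τ + h)| = |h| := by rw [sub_add_cancel_left, abs_neg]
    have hK := kernel_le τ (τ + h)
    rw [← ENNReal.ofReal_mul (Real.exp_pos _).le, ← ENNReal.ofReal_mul (Real.exp_pos _).le,
      sub_sub_sub_cancel_left]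
    rw [mj, e] at hk
    rw [e] at hK
    split_ifs at hk with hm
    · rw [piece, indicator_of_mem (by exact hm)]
      refine ENNReal.ofReal_le_ofReal ?_
      have := hc k
      calc _ = ‖A τ - A (τ + h)‖ ^ q * (Real.exp (-τ) * Real.exp (-(τ + h)) /
            (Real.exp (-(τ + h)) - Real.exp (-τ)) ^ 2) := by ring
        _ ≤ (c k * |h|) ^ q * (Real.exp (-|h|) * (1 + |h|) ^ 2 / |h| ^ 2) := by gcongr
        _ = _ := by rw [Real.mul_rpow this (abs_nonneg h), kr, mul_assoc]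
    · rw [le_antisymm hk (norm_nonneg _), Real.zero_rpow (by linarith)]
      simp
  have hlog : ∀ τ, -Real.log (T - (T - Real.exp (-τ))) = τ := fun τ => by simp
  calc _ ≤ ∫⁻ t in Iio T, ∫⁻ r in Iio T, ENNReal.ofReal
          (‖A (-Real.log (T - t)) - A (-Real.log (T - r))‖ ^ q / (t - r) ^ 2) :=
        lintegral_mono' (Measure.restrict_mono Ioo_subset_Iio_self le_rfl) fun t =>
          lintegral_mono_set Ioo_subset_Iio_self
    _ ≤ ∫⁻ τ, ∫⁻ h, ∑' k, piece q (c k) (s k) (l k) (τ, h) := by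
        rw [lintegral_Iio_log]
        refine lintegral_mono fun τ => ?_
        rw [lintegral_Iio_log, ← lintegral_add_left_eq_self _ τ,
          ← lintegral_const_mul' _ _ ENNReal.ofReal_ne_top]
        refine lintegral_mono fun h => ?_
        simp only [hlog]
        exact hpt τ h
    _ = ∑' k, ∫⁻ τ, ∫⁻ h, piece q (c k) (s k) (l k) (τ, h) := by
        rw [← lintegral_tsum fun k =>
          (measurable_piece q (c k) (s k) (l k)).lintegral_prod_right'.aemeasurable]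
        refine lintegral_congr fun τ => lintegral_tsum fun k => ?_
        exact ((measurable_piece q (c k) (s k) (l k)).comp measurable_prodMk_left).aemeasurable
    _ ≤ ∑' k, ENNReal.ofReal (c k ^ q * (l k + 1)) *
          ∫⁻ h, ENNReal.ofReal (kr q h * (2 * (1 + |h|))) :=
        ENNReal.tsum_le_tsum fun k => lintegral_piece (hc k) (hl k) (s k)
    _ < ⊤ := by
        rw [ENNReal.tsum_mul_right]
        exact ENNReal.mul_lt_top hs.tsum_ofReal_lt_top (integrable_kr hq).lintegral_lt_top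

lemma FiniteSeminorm.of_le {X Y : Type} [NormedAddCommGroup X] [NormedAddCommGroup Y] {T q C : ℝ}
    {F : ℝ → X} {G : ℝ → Y} (h : FiniteSeminorm T q F) (hq : 0 ≤ q) (hC : 0 ≤ C)
    (hG : ∀ t ∈ Ioo 0 T, ∀ s ∈ Ioo 0 T, ‖G t - G s‖ ≤ C * ‖F t - F s‖) :
    FiniteSeminorm T q G := by
  refine lt_of_le_of_lt ?_ (ENNReal.mul_lt_top (ENNReal.ofReal_lt_top (r := C ^ q)) h)
  rw [← lintegral_const_mul' _ _ ENNReal.ofReal_ne_top]
  refine setLIntegral_mono' measurableSet_Ioo fun t ht => ?_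
  rw [← lintegral_const_mul' _ _ ENNReal.ofReal_ne_top]
  refine setLIntegral_mono' measurableSet_Ioo fun s hs => ?_
  rw [← ENNReal.ofReal_mul (by positivity), ← mul_div_assoc, ← Real.mul_rpow hC (norm_nonneg _)]
  refine ENNReal.ofReal_le_ofReal ?_
  gcongr
  exact hG t ht s hs

end Pool.Agent.MP_954c34_an.Sob

end
end

section

open MeasureTheory Set Filter Topology
open scoped ContDiff

set_option linter.unusedSectionVars false
set_option maxSynthPendingDepth 3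

noncomputable section

namespace Pool.Agent.MP_954c34_an.Sob

section Time

variable {X : Type} [NormedAddCommGroup X] [NormedSpace ℝ X]

lemma hasWeakDeriv_mono {T b : ℝ} (hb : b ≤ T) {u g : ℝ → X} (h : HasWeakDeriv T u g) :
    HasWeakDeriv b u g := by
  intro φ hφ hc hs
  have hs' := hs.trans (Ioo_subset_Ioo_right hb)
  have := h φ hφ hc hs'
  rw [setIntegral_smul_eq_integral (tsupport_deriv_subset.trans hs'),
    setIntegral_smul_eq_integral hs'] at this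
  rw [setIntegral_smul_eq_integral (tsupport_deriv_subset.trans hs),
    setIntegral_smul_eq_integral hs, this]

lemma hasWeakDeriv_of_Iio [CompleteSpace X] {T : ℝ} (hT : 0 < T) {u g : ℝ → X}
    (hu : ∀ t < T, HasDerivAt u (g t) t) (hg : ContinuousOn g (Iio T)) : HasWeakDeriv T u g := by
  intro φ hφ hc hs
  obtain ⟨m, hm, hm'⟩ := (IsCompact.union hc (isCompact_singleton (x := T / 2))).exists_isGreatest
    ⟨T / 2, Or.inr rfl⟩
  have hmT : m < T := by
    rcases hm with h | h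
    · exact (hs h).2
    · rw [mem_singleton_iff.1 h]
      linarith
  have hm0 : T / 2 ≤ m := hm' (Or.inr rfl)
  obtain ⟨b, hb1, hb2⟩ := exists_between hmT
  have hb0 : 0 < b := by linarith
  have hsb : tsupport φ ⊆ Ioo 0 b := fun t ht => ⟨(hs ht).1, (hm' (Or.inl ht)).trans_lt hb1⟩
  have hsub : uIcc 0 b ⊆ Iio T := by
    rw [uIcc_of_le hb0.le]
    exact fun t ht => ht.2.trans_lt hb2
  have hφc : Continuous (deriv φ) := hφ.continuous_deriv (by simp)
  have h := intervalIntegral.integral_smul_deriv_eq_deriv_smul (a := 0) (b := b)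
    (u := φ) (v := u) (u' := deriv φ) (v' := g)
    (fun t _ => (hφ.differentiable (by simp) t).hasDerivAt) (fun t ht => hu t (hsub ht))
    (hφc.intervalIntegrable _ _) (hg.mono hsub).intervalIntegrable
  rw [eq_zero_of_tsupport_subset hsb (t := b) (by simp),
    eq_zero_of_tsupport_subset hsb (t := 0) (by simp), intervalIntegral.integral_of_le hb0.le,
    intervalIntegral.integral_of_le hb0.le, integral_Ioc_eq_integral_Ioo,
    integral_Ioc_eq_integral_Ioo, setIntegral_smul_eq_integral (tsupport_deriv_subset.trans hsb),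
    setIntegral_smul_eq_integral hsb] at h
  rw [setIntegral_smul_eq_integral (tsupport_deriv_subset.trans hs),
    setIntegral_smul_eq_integral hs, h]
  simp

lemma continuousOn_primitive {T : ℝ} {g : ℝ → X} (hg : IntegrableOn g (Ioo 0 T)) :
    ContinuousOn (fun t => ∫ s in Ioo 0 t, g s) (Icc 0 T) := by
  have := intervalIntegral.continuousOn_primitive
    ((integrableOn_Icc_iff_integrableOn_Ioo).2 hg)
  simpa only [integral_Ioc_eq_integral_Ioo] using this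

lemma eq_primitive [CompleteSpace X] {T : ℝ} {y g : ℝ → X} (hy : ContinuousOn y (Iio T))
    (h0 : y 0 = 0) (hg : IntegrableOn g (Ioo 0 T)) (h : HasWeakDeriv T y g) {t : ℝ}
    (ht : t ∈ Ioo 0 T) : y t = ∫ s in Ioo 0 t, g s := by
  have hg' : IntegrableOn g (Ioo 0 t) := hg.mono_set (Ioo_subset_Ioo_right ht.2.le)
  have hy' : ContinuousOn y (Icc 0 t) := hy.mono fun s hs => hs.2.trans_lt ht.2
  have hP := continuousOn_primitive hg'
  have h1 := (hasWeakDeriv_mono ht.2.le h).sub (hasWeakDeriv_primitive hg')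
    (hy'.integrableOn_Icc.mono_set Ioo_subset_Icc_self) hg'
    (hP.integrableOn_Icc.mono_set Ioo_subset_Icc_self) hg'
  simp only [sub_self] at h1
  have h2 := eq_const_of_hasWeakDeriv_zero ht.1 (hy'.sub hP) h1 t (right_mem_Icc.2 ht.1.le)
  simp only [Pi.sub_apply, h0, Ioo_self, Measure.restrict_empty, integral_zero_measure,
    sub_zero] at h2
  exact sub_eq_zero.1 h2

lemma integral_Ioo_sub {T a b : ℝ} {g : ℝ → X} (hg : IntegrableOn g (Ioo 0 T)) (ha : 0 ≤ a)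
    (hab : a ≤ b) (hb : b ≤ T) :
    (∫ s in Ioo 0 b, g s) - ∫ s in Ioo 0 a, g s = ∫ s in Ioo a b, g s := by
  have hi : ∀ c, 0 ≤ c → c ≤ T → IntervalIntegrable g volume 0 c := fun c h1 h2 =>
    (intervalIntegrable_iff_integrableOn_Ioo_of_le h1).2 (hg.mono_set (Ioo_subset_Ioo_right h2))
  have := intervalIntegral.integral_interval_sub_left (hi b (ha.trans hab) hb)
    (hi a ha (hab.trans hb))
  simpa only [intervalIntegral.integral_of_le ha, intervalIntegral.integral_of_le hab,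
    intervalIntegral.integral_of_le (ha.trans hab), integral_Ioc_eq_integral_Ioo] using this

lemma norm_integral_sq_le {a b : ℝ} (hab : a < b) {g : ℝ → X} (h1 : IntegrableOn g (Ioo a b))
    (h2 : IntegrableOn (fun s => ‖g s‖ ^ 2) (Ioo a b)) :
    ‖∫ s in Ioo a b, g s‖ ^ 2 ≤ (b - a) * ∫ s in Ioo a b, ‖g s‖ ^ 2 := by
  obtain ⟨I, hI⟩ : ∃ I, I = ∫ s in Ioo a b, ‖g s‖ := ⟨_, rfl⟩
  have hd : 0 < b - a := sub_pos.2 hab
  obtain ⟨k, hk⟩ : ∃ k, I = k * (b - a) := ⟨I / (b - a), by field_simp⟩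
  have h3 : ∫ s in Ioo a b, (2 * k * ‖g s‖ - k ^ 2) ≤ ∫ s in Ioo a b, ‖g s‖ ^ 2 :=
    integral_mono ((h1.norm.const_mul _).sub (integrable_const _)) h2 fun s => by
      simp only
      nlinarith [sq_nonneg (‖g s‖ - k)]
  rw [integral_sub (h1.norm.const_mul _) (integrable_const _), integral_const_mul, ← hI,
    setIntegral_const, Real.volume_real_Ioo_of_le hab.le, smul_eq_mul] at h3
  have h4 : ‖∫ s in Ioo a b, g s‖ ≤ I := hI ▸ norm_integral_le_integral_norm _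
  calc _ ≤ I ^ 2 := by gcongr
    _ = (b - a) * (2 * k * I - (b - a) * k ^ 2) := by rw [hk]; ring
    _ ≤ _ := by gcongr

lemma not_memH1 [CompleteSpace X] {T c : ℝ} (hT : 0 < T) (hc : 0 < c) {y : ℝ → X}
    (hy : ContinuousOn y (Iio T)) (h0 : y 0 = 0)
    (hb : ∀ d > 0, ∃ a b, T - d < a ∧ a < b ∧ b < T ∧ c * (b - a) ≤ ‖y b - y a‖ ^ 2) :
    ¬MemH1 T y := by
  rintro ⟨-, g, hg, hw⟩
  have h2 : IntegrableOn (fun s => ‖g s‖ ^ 2) (Ioo 0 T) := hg.integrable_norm_pow (by norm_num)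
  obtain ⟨d, hd, hd'⟩ := Metric.continuousWithinAt_iff.1
    (continuousOn_primitive h2 T (right_mem_Icc.2 hT.le)) (c / 2) (by positivity)
  obtain ⟨a, b, h3, h4, h5, h6⟩ := hb (min d T) (lt_min hd hT)
  have ha : 0 < a := by linarith [min_le_right d T]
  have hnear : ∀ t, a ≤ t → t < T →
      |(∫ s in Ioo 0 t, ‖g s‖ ^ 2) - ∫ s in Ioo 0 T, ‖g s‖ ^ 2| < c / 2 := fun t k1 k2 =>
    hd' ⟨by linarith, k2.le⟩ (by
      rw [Real.dist_eq, abs_lt]
      constructor <;> linarith [min_le_left d T])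
  have k1 := abs_lt.1 (hnear a le_rfl (h4.trans h5))
  have k2 := abs_lt.1 (hnear b h4.le h5)
  have hsub : Ioo a b ⊆ Ioo 0 T := Ioo_subset_Ioo ha.le h5.le
  have k3 := norm_integral_sq_le h4 (hg.integrableOn.mono_set hsub) (h2.mono_set hsub)
  rw [eq_primitive hy h0 hg.integrableOn hw ⟨ha, h4.trans h5⟩,
    eq_primitive hy h0 hg.integrableOn hw ⟨ha.trans h4, h5⟩,
    integral_Ioo_sub hg.integrableOn ha.le h4.le h5.le] at h6
  rw [← integral_Ioo_sub h2 ha.le h4.le h5.le] at k3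
  nlinarith [sub_pos.2 h4]

lemma hasDerivAt_logTime {T t : ℝ} (ht : t < T) :
    HasDerivAt (fun t => -Real.log (T - t)) (Real.exp (-Real.log (T - t))) t := by
  have h := (((hasDerivAt_id t).const_sub T).log (sub_pos.2 ht).ne').neg
  rw [Real.exp_neg, Real.exp_log (sub_pos.2 ht)]
  refine h.congr_deriv ?_
  simp [neg_div]

lemma continuousOn_logTime (T : ℝ) : ContinuousOn (fun t => -Real.log (T - t)) (Iio T) :=
  fun _ ht => (hasDerivAt_logTime ht).continuousAt.continuousWithinAt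

lemma memL2_logTime {T C : ℝ} (hT : 0 < T) {F : ℝ → X} (hF : Continuous F)
    (hb : ∀ τ, ‖F τ‖ ≤ C + C * Real.exp (τ / 4)) : MemL2 T fun t => F (-Real.log (T - t)) := by
  have hm : ∀ {Y : Type} [NormedAddCommGroup Y] {G : ℝ → Y}, Continuous G →
      AEStronglyMeasurable (fun t => G (-Real.log (T - t))) (volume.restrict (Ioo 0 T)) :=
    fun hG => ((hG.comp_continuousOn (continuousOn_logTime T)).mono
      Ioo_subset_Iio_self).aestronglyMeasurable measurableSet_Ioo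
  have h1 : MemLp (fun t => Real.exp (-Real.log (T - t) / 4)) 2 (volume.restrict (Ioo 0 T)) := by
    rw [memLp_two_iff_integrable_sq (hm (G := fun τ => Real.exp (τ / 4)) (by fun_prop))]
    have h2 := (intervalIntegral.intervalIntegrable_rpow' (a := T) (b := 0) (r := -(1 / 2))
      (by norm_num)).comp_sub_left T
    rw [sub_self, sub_zero, intervalIntegrable_iff_integrableOn_Ioo_of_le hT.le] at h2
    refine h2.congr_fun (fun t ht => ?_) measurableSet_Ioo
    simp only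
    rw [Real.rpow_def_of_pos (sub_pos.2 ht.2), ← Real.exp_nat_mul]
    congr 1
    push_cast
    ring
  refine MemLp.of_le ((memLp_const C).add (h1.const_mul C)) (hm hF) ?_
  exact Eventually.of_forall fun t => (hb _).trans (le_abs_self _)

lemma memL2_smul {T : ℝ} {φ : ℝ → ℝ} (hφ : Continuous φ) {F : ℝ → X} (hF : MemL2 T F) :
    MemL2 T fun t => φ t • F t := by
  obtain ⟨C, hC⟩ := (isCompact_Icc (a := (0 : ℝ)) (b := T)).exists_bound_of_continuousOn
    hφ.continuousOn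
  refine MemLp.of_le_mul (c := C) hF (hφ.aestronglyMeasurable.smul hF.1) ?_
  filter_upwards [ae_restrict_mem measurableSet_Ioo] with t ht
  rw [norm_smul]
  exact mul_le_mul_of_nonneg_right (hC t (Ioo_subset_Icc_self ht)) (norm_nonneg _)

end Time

variable {V H : Type} [NormedAddCommGroup V] [NormedSpace ℂ V] [NormedSpace ℝ V]
  [IsScalarTower ℝ ℂ V] [NormedAddCommGroup H] [InnerProductSpace ℂ H] [NormedSpace ℝ H]
  [IsScalarTower ℝ ℂ H] [CompleteSpace H]

/-- From a solution in logarithmic time to the failure of maximal regularity. -/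
theorem exists_not_memH1 (val : V →L[ℂ] H) (ι : H →L[ℂ] V →L⋆[ℂ] ℂ)
    (hι : ∀ h, toAntidual val h = ι h) {T : ℝ} (hT : 0 < T)
    (𝔅 𝒜 : ℝ → V →L[ℂ] V →L⋆[ℂ] ℂ) (h𝔅 : ∀ t < T, 𝔅 t = 𝒜 (-Real.log (T - t)))
    (u : ℝ → V) (f w : ℝ → H) (hu : Continuous u) (hf : Continuous f) (h𝒜 : Continuous 𝒜)
    {C c : ℝ} (hc : 0 < c) (b𝒜 : ∀ τ, ‖𝒜 τ‖ ≤ C) (bu : ∀ τ, ‖u τ‖ ≤ C + C * Real.exp (τ / 4))
    (bf : ∀ τ, ‖f τ‖ ≤ C + C * Real.exp (τ / 4))
    (hw : ∀ τ, HasDerivAt (fun τ => val (u τ)) (w τ) τ)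
    (heq : ∀ τ, Real.exp τ • ι (w τ) + 𝒜 τ (u τ) = ι (f τ))
    (hb : ∀ τ₀, ∃ τ, τ₀ ≤ τ ∧ c * Real.exp (-τ) ≤ ‖val (u (τ + 1 / 2)) - val (u τ)‖ ^ 2) :
    ∃ (F : ℝ → H) (v : ℝ → V), MemL2 T F ∧ IsLionsSolution val T 𝔅 F v ∧
      ¬MemH1 T fun t => val (v t) := by
  obtain ⟨m, hm, hm0, hm1⟩ : ∃ m : ℝ → ℝ, ContDiff ℝ ∞ m ∧ m 0 = 0 ∧ ∀ t, T / 2 ≤ t → m t = 1 := by
    refine ⟨fun t => Real.smoothTransition (2 / T * t),
      Real.smoothTransition.contDiff.comp (contDiff_const.mul contDiff_id), by simp,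
      fun t ht => Real.smoothTransition.one_of_one_le ?_⟩
    rw [div_mul_eq_mul_div, le_div_iff₀ hT]
    linarith
  have hmd : ∀ t, HasDerivAt m (deriv m t) t := fun t =>
    (hm.differentiable (by simp) t).hasDerivAt
  have hm' : Continuous (deriv m) := hm.continuous_deriv (by simp)
  obtain ⟨l, hl⟩ : ∃ l : ℝ → ℝ, l = fun t => -Real.log (T - t) := ⟨_, rfl⟩
  have hlc : ContinuousOn l (Iio T) := hl ▸ continuousOn_logTime T
  have hC : 0 ≤ C := (norm_nonneg _).trans (b𝒜 0)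
  have mu : MemL2 T fun t => u (l t) := hl ▸ memL2_logTime hT hu bu
  have mf : MemL2 T fun t => f (l t) := hl ▸ memL2_logTime hT hf bf
  have hAu : Continuous fun τ => 𝒜 τ (u τ) := h𝒜.clm_apply hu
  have mA : MemL2 T fun t => 𝒜 (l t) (u (l t)) := by
    refine hl ▸ memL2_logTime (C := C * C) hT hAu fun τ => ((𝒜 τ).le_opNorm _).trans ?_
    calc _ ≤ C * (C + C * Real.exp (τ / 4)) := by gcongr; exacts [b𝒜 τ, bu τ]
      _ = _ := by ring
  have mv : MemL2 T fun t => m t • u (l t) := memL2_smul hm.continuous mu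
  have mF : MemL2 T fun t => deriv m t • val (u (l t)) + m t • f (l t) :=
    MemLp.add (memL2_smul hm' (val.comp_memLp' mu)) (memL2_smul hm.continuous mf)
  obtain ⟨g, hg⟩ : ∃ g : ℝ → V →L⋆[ℂ] ℂ, g = fun t =>
      ι (deriv m t • val (u (l t)) + m t • f (l t)) - m t • 𝒜 (l t) (u (l t)) := ⟨_, rfl⟩
  have mg : MemL2 T g := hg ▸ MemLp.sub (ι.comp_memLp' mF) (memL2_smul hm.continuous mA)
  have huc : ContinuousOn (fun t => u (l t)) (Iio T) := hu.comp_continuousOn hlc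
  have hgc : ContinuousOn g (Iio T) := by
    rw [hg]
    exact (ι.continuous.comp_continuousOn ((hm'.continuousOn.smul
      (val.continuous.comp_continuousOn huc)).add (hm.continuous.continuousOn.smul
        (hf.comp_continuousOn hlc)))).sub
      (hm.continuous.continuousOn.smul (hAu.comp_continuousOn hlc))
  have hyd : ∀ t < T, HasDerivAt (fun t => ι (val (m t • u (l t)))) (g t) t := by
    intro t ht
    have h1 : HasDerivAt (fun t => val (u (l t))) (Real.exp (l t) • w (l t)) t := by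
      have h2 : HasDerivAt l (Real.exp (l t)) t := hl ▸ hasDerivAt_logTime ht
      exact (hw (l t)).scomp t h2
    have h3 := (ι.restrictScalars ℝ).hasFDerivAt.comp_hasDerivAt t ((hmd t).smul h1)
    simp only [val.map_smul_of_tower]
    refine HasDerivAt.congr_deriv h3 ?_
    simp only [hg, ContinuousLinearMap.coe_restrictScalars', map_add, ι.map_smul_of_tower, ← heq]
    module
  have hweak := hasWeakDeriv_of_Iio hT hyd hgc
  have hvc : ContinuousOn (fun t => val (m t • u (l t))) (Iio T) :=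
    val.continuous.comp_continuousOn (hm.continuous.continuousOn.smul huc)
  refine ⟨_, fun t => m t • u (l t), mF, ⟨mv, ?_, ⟨g, mg, ?_, ?_⟩, ?_⟩,
    not_memH1 hT hc hvc (by simp [hm0]) fun d hd => ?_⟩
  · simp only [hι]
    exact ι.comp_memLp' (val.comp_memLp' mv)
  · simpa only [hι] using hweak
  · filter_upwards [ae_restrict_mem measurableSet_Ioo] with t ht
    rw [hι, h𝔅 t ht.2, ContinuousLinearMap.map_smul_of_tower, hg, hl]
    exact sub_add_cancel _ _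
  · refine ⟨_, continuousOn_primitive mg.integrableOn, ?_, by simp⟩
    filter_upwards [ae_restrict_mem measurableSet_Ioo] with t ht
    rw [hι]
    exact (eq_primitive (ι.continuous.comp_continuousOn hvc) (by simp [hm0]) mg.integrableOn
      hweak ht).symm
  · have hd' : 0 < min d (T / 2) := lt_min hd (by positivity)
    obtain ⟨τ, h1, h2⟩ := hb (-Real.log (min d (T / 2)) + 1)
    have h3 : Real.exp (-τ) < min d (T / 2) := by
      rw [← Real.exp_log hd']
      exact Real.exp_lt_exp.2 (by linarith)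
    have h4 : Real.exp (-(τ + 1 / 2)) < Real.exp (-τ) := Real.exp_lt_exp.2 (by linarith)
    have h5 := Real.exp_pos (-(τ + 1 / 2))
    have h6 := min_le_left d (T / 2)
    have h7 := min_le_right d (T / 2)
    have h8 : ∀ τ, l (T - Real.exp (-τ)) = τ := fun τ => by simp [hl]
    refine ⟨T - Real.exp (-τ), T - Real.exp (-(τ + 1 / 2)), by linarith, by linarith, by linarith,
      le_trans (mul_le_mul_of_nonneg_left (by linarith) hc.le) (h2.trans_eq ?_)⟩
    simp only [hm1 (T - Real.exp (-τ)) (by linarith),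
      hm1 (T - Real.exp (-(τ + 1 / 2))) (by linarith), one_smul, h8]

end Pool.Agent.MP_954c34_an.Sob

end
end

section

open MeasureTheory Set Filter Topology
open scoped ContDiff BoundedContinuousFunction

set_option linter.unusedSectionVars false

noncomputable section

namespace Pool.Agent.MP_954c34_an.Sob

open Sharp

variable {K : Set ℝ} {ϖ : Measure ℝ}

lemma test_deriv {F : ℝ → ℝ} (h : Test K F) : Test K (deriv F) :=
  ⟨(contDiff_infty_iff_deriv.1 h.smooth).2, tsupport_deriv_subset.trans h.supp⟩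

lemma test_mul {F G : ℝ → ℝ} (h : Test K F) (hG : ContDiff ℝ ∞ G) : Test K fun y => F y * G y :=
  ⟨h.smooth.mul hG, tsupport_mul_subset_left.trans h.supp⟩

lemma test_add' {F G : ℝ → ℝ} (h : Test K F) (hG : Test K G) : Test K (F + G) :=
  ⟨h.smooth.add hG.smooth, (tsupport_add F G).trans (union_subset h.supp hG.supp)⟩

lemma bcf_add (hK : IsCompact K) {F G : ℝ → ℝ} (h : Test K F) (hG : Test K G) :
    bcf (F + G) = bcf F + bcf G := by
  ext y
  simp [(test_add' h hG).bcf_apply hK, h.bcf_apply hK, hG.bcf_apply hK]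

lemma deriv_add_test {F G : ℝ → ℝ} (h : Test K F) (hG : Test K G) :
    deriv (F + G) = deriv F + deriv G :=
  funext fun y => deriv_add (h.differentiable y) (hG.differentiable y)

lemma test_hasDerivAt {F : ℝ → ℝ} (h : Test K F) (y : ℝ) : HasDerivAt F (deriv F y) y :=
  (h.differentiable y).hasDerivAt

lemma test_lip (hK : IsCompact K) {F : ℝ → ℝ} (hF : Differentiable ℝ F) (h : Test K (deriv F)) :
    ∃ C, 0 ≤ C ∧ (∀ x, |deriv F x| ≤ C) ∧ ∀ x y, |F x - F y| ≤ C * |x - y| := by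
  obtain ⟨C, hC, h1⟩ := h.exists_bound hK
  exact ⟨C, hC, h1, fun x y => convex_univ.norm_image_sub_le_of_norm_deriv_le
    (fun z _ => hF z) (fun z _ => h1 z) (mem_univ y) (mem_univ x)⟩

lemma exists_phase (hint : ∀ F : ℝ → ℝ, Continuous F → Integrable F ϖ) {p e k : ℝ → ℝ}
    (hp : Continuous p) (he : Continuous e) (hk : Continuous k) (B ν : ℝ) :
    ∃ φ, ∫ y, (p y ^ 2 + B ^ 2 / 2 * k y ^ 2) ∂ϖ ≤
      ∫ y, (p y + B * (e y * Real.sin (ν * y + φ) + k y * Real.cos (ν * y + φ))) ^ 2 ∂ϖ := by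
  obtain ⟨G, hG⟩ : ∃ G : ℝ → ℝ → ℝ, G = fun φ y =>
    (p y + B * (e y * Real.sin (ν * y + φ) + k y * Real.cos (ν * y + φ))) ^ 2 := ⟨_, rfl⟩
  have hi : ∀ φ, Integrable (G φ) ϖ := fun φ => hint _ (by rw [hG]; fun_prop)
  by_contra hc
  push Not at hc
  have h1 : ∫ y, 4 * (p y ^ 2 + B ^ 2 / 2 * k y ^ 2) ∂ϖ ≤
      ∫ y, (G 0 y + G (Real.pi / 2) y + (G Real.pi y + G (-(Real.pi / 2)) y)) ∂ϖ := by
    refine integral_mono (hint _ (by fun_prop)) (((hi _).add (hi _)).add ((hi _).add (hi _)))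
      fun y => ?_
    simp only [hG, add_zero, Real.sin_add_pi_div_two, Real.cos_add_pi_div_two, Real.sin_add_pi,
      Real.cos_add_pi, ← sub_eq_add_neg, Real.sin_sub_pi_div_two, Real.cos_sub_pi_div_two]
    have h2 := Real.sin_sq_add_cos_sq (ν * y)
    generalize Real.sin (ν * y) = s at *
    generalize Real.cos (ν * y) = c at *
    have h3 : 0 ≤ B ^ 2 * e y ^ 2 := by positivity
    have h4 : B ^ 2 * (e y ^ 2 + k y ^ 2) * (s ^ 2 + c ^ 2) = B ^ 2 * (e y ^ 2 + k y ^ 2) := by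
      rw [h2, mul_one]
    nlinarith
  have hi2 : ∀ a b, Integrable (fun y => G a y + G b y) ϖ := fun a b => (hi a).add (hi b)
  rw [integral_const_mul, integral_add (hi2 _ _) (hi2 _ _),
    integral_add (hi _) (hi _), integral_add (hi _) (hi _)] at h1
  have a1 := hc 0
  have a2 := hc (Real.pi / 2)
  have a3 := hc Real.pi
  have a4 := hc (-(Real.pi / 2))
  simp only [hG] at h1
  linarith

lemma hasDerivAt_sin_lin (ν φ y : ℝ) :
    HasDerivAt (fun y => Real.sin (ν * y + φ)) (Real.cos (ν * y + φ) * ν) y := by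
  simpa using (((hasDerivAt_id y).const_mul ν).add_const φ).sin

lemma hasDerivAt_cos_lin (ν φ y : ℝ) :
    HasDerivAt (fun y => Real.cos (ν * y + φ)) (-Real.sin (ν * y + φ) * ν) y := by
  simpa using (((hasDerivAt_id y).const_mul ν).add_const φ).cos

lemma abs_comb {a b c s₁ s₂ s₃ A B C : ℝ} (ha : |a| ≤ A) (hb : |b| ≤ B) (hc : |c| ≤ C)
    (h1 : |s₁| ≤ 1) (h2 : |s₂| ≤ 1) (h3 : |s₃| ≤ 1) : |a * s₁ + b * s₂ + c * s₃| ≤ A + B + C := by
  have k1 := abs_mul_le_mul ha h1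
  have k2 := abs_mul_le_mul hb h2
  have k3 := abs_mul_le_mul hc h3
  have := abs_add_three (a * s₁) (b * s₂) (c * s₃)
  linarith

/-- The pumping mode. -/
lemma exists_pump (hint : ∀ F : ℝ → ℝ, Continuous F → Integrable F ϖ) (hK : IsCompact K)
    {κ p : ℝ → ℝ} (hκ : Test K κ) (hκ1 : ∀ y, |κ y| ≤ 1) (hκa : ∀ᵐ y ∂ϖ, κ y = 1)
    (hp : ContDiff ℝ ∞ p) {m B ε : ℝ} (hm0 : 0 < m) (hm : ∀ y ∈ K, m ≤ p y) (hB : 0 ≤ B)
    (hB1 : B ≤ 1) (hε : 0 < ε) :
    ∃ d, Test K d ∧ (∀ y, |d y| ≤ ε) ∧ (∀ y ∈ K, |deriv d y| ≤ 2 * B * p y) ∧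
      (1 + B ^ 2 / 2) * ∫ y, p y ^ 2 ∂ϖ ≤ ∫ y, (p y + deriv d y) ^ 2 ∂ϖ := by
  obtain ⟨h, hh⟩ : ∃ h : ℝ → ℝ, h = fun y => κ y * p y := ⟨_, rfl⟩
  have ht : Test K h := hh ▸ test_mul hκ hp
  obtain ⟨M₀, hM₀, h0⟩ := ht.exists_bound hK
  obtain ⟨M₁, hM₁, h1⟩ := (test_deriv ht).exists_bound hK
  obtain ⟨ν, hν0, hν1, hν2⟩ : ∃ ν : ℝ, 0 < ν ∧ M₀ / ν ≤ ε ∧ M₁ / ν ≤ m := by
    refine ⟨1 + M₀ / ε + M₁ / m, by positivity, ?_, ?_⟩ <;>
      rw [div_le_iff₀ (by positivity)]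
    · nlinarith [mul_div_cancel₀ M₀ hε.ne', mul_nonneg hε.le (div_nonneg hM₁ hm0.le)]
    · nlinarith [mul_div_cancel₀ M₁ hm0.ne', mul_nonneg hm0.le (div_nonneg hM₀ hε.le)]
  obtain ⟨φ, hφ⟩ := exists_phase hint hp.continuous
    ((test_deriv ht).smooth.continuous.div_const ν) ht.smooth.continuous B ν
  have hd : ∀ y, deriv (fun y => h y * (B / ν * Real.sin (ν * y + φ))) y =
      B * (deriv h y / ν * Real.sin (ν * y + φ) + h y * Real.cos (ν * y + φ)) := fun y => by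
    rw [((test_hasDerivAt ht y).fun_mul ((hasDerivAt_sin_lin ν φ y).const_mul (B / ν))).deriv]
    field_simp
  refine ⟨fun y => h y * (B / ν * Real.sin (ν * y + φ)), test_mul ht (by fun_prop), fun y => ?_,
    fun y hy => ?_, ?_⟩
  · have : |B / ν * Real.sin (ν * y + φ)| ≤ 1 / ν * 1 :=
      abs_mul_le_mul (by rw [abs_of_nonneg (by positivity)]; gcongr) (Real.abs_sin_le_one _)
    refine (abs_mul_le_mul (h0 y) this).trans (le_trans (le_of_eq ?_) hν1)
    ring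
  · have k1 : |deriv h y / ν| ≤ p y := by
      rw [abs_div, abs_of_pos hν0]
      exact (div_le_div_of_nonneg_right (h1 y) hν0.le).trans (hν2.trans (hm y hy))
    have k2 : |h y| ≤ p y := by
      rw [hh]
      exact (abs_mul_le_mul (hκ1 y) (abs_of_pos (hm0.trans_le (hm y hy))).le).trans_eq (one_mul _)
    have k3 := abs_comb k1 k2 (abs_zero.le) (Real.abs_sin_le_one (ν * y + φ))
      (Real.abs_cos_le_one (ν * y + φ)) abs_one.le
    rw [hd, abs_mul, abs_of_nonneg hB]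
    simp only [zero_mul, add_zero] at k3
    nlinarith
  · simp only [hd]
    refine le_trans (le_of_eq ?_) hφ
    rw [← integral_const_mul]
    refine integral_congr_ae ?_
    filter_upwards [hκa] with y hy
    rw [hh]
    simp only [hy]
    ring

/-- The resonant mode. -/
lemma exists_bump (hint : ∀ F : ℝ → ℝ, Continuous F → Integrable F ϖ) (hK : IsCompact K)
    {κ p : ℝ → ℝ} (hκ : Test K κ) (hκ1 : ∀ y, |κ y| ≤ 1) (hκa : ∀ᵐ y ∂ϖ, κ y = 1)
    (hp : ContDiff ℝ ∞ p) {m : ℝ} (hm0 : 0 < m) (hm : ∀ y ∈ K, m ≤ p y) :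
    ∃ ν₀, ∀ ν, ν₀ ≤ ν → ∃ Z S, Test K Z ∧ Test K S ∧ (∀ y, |S y| ≤ 1) ∧
      (∀ y, S y * p y = ν ^ 2 * Z y) ∧ (∀ y ∈ K, |deriv Z y| ≤ 2 * p y) ∧
      (∀ y ∈ K, |deriv (deriv Z) y| ≤ 2 * p y) ∧
      ∫ y, p y ^ 2 ∂ϖ ≤ 2 * ν ^ 2 * ∫ y, deriv Z y ^ 2 ∂ϖ := by
  obtain ⟨h, hh⟩ : ∃ h : ℝ → ℝ, h = fun y => κ y * p y := ⟨_, rfl⟩
  have ht : Test K h := hh ▸ test_mul hκ hp
  obtain ⟨M₁, hM₁, h1⟩ := (test_deriv ht).exists_bound hK
  obtain ⟨M₂, hM₂, h2⟩ := (test_deriv (test_deriv ht)).exists_bound hK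
  refine ⟨1 + 3 * M₁ / m + 3 * M₂ / m, fun ν hν => ?_⟩
  have a1 : 0 ≤ 3 * M₁ / m := by positivity
  have a2 : 0 ≤ 3 * M₂ / m := by positivity
  have hν1 : 1 ≤ ν := by linarith
  have hν0 : 0 < ν := by linarith
  have hdiv : ∀ {z M : ℝ}, |z| ≤ M → 3 * M / m ≤ ν → |z / ν| ≤ m / 3 := fun {z M} k1 k2 => by
    rw [div_le_iff₀ hm0] at k2
    rw [abs_div, abs_of_pos hν0, div_le_iff₀ hν0]
    linarith
  have hdiv' : ∀ {z M : ℝ}, |z| ≤ M → |z / ν| ≤ M := fun {z M} k1 => by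
    rw [abs_div, abs_of_pos hν0]
    exact (div_le_self (abs_nonneg _) hν1).trans k1
  obtain ⟨φ, hφ⟩ := exists_phase hint (p := fun _ => 0) continuous_const
    ((test_deriv ht).smooth.continuous.div_const ν) ht.smooth.continuous (1 / ν) ν
  have hd : deriv (fun y => h y * (1 / ν ^ 2 * Real.sin (ν * y + φ))) = fun y =>
      deriv h y * (1 / ν ^ 2 * Real.sin (ν * y + φ)) + h y * (1 / ν * Real.cos (ν * y + φ)) := by
    funext y
    rw [((test_hasDerivAt ht y).fun_mul ((hasDerivAt_sin_lin ν φ y).const_mul (1 / ν ^ 2))).deriv]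
    field_simp
  have hk : ∀ y ∈ K, |h y| ≤ p y := fun y hy => by
    rw [hh]
    exact (abs_mul_le_mul (hκ1 y) (abs_of_pos (hm0.trans_le (hm y hy))).le).trans_eq (one_mul _)
  have hs := fun y => Real.abs_sin_le_one (ν * y + φ)
  have hc := fun y => Real.abs_cos_le_one (ν * y + φ)
  refine ⟨fun y => h y * (1 / ν ^ 2 * Real.sin (ν * y + φ)), fun y => κ y * Real.sin (ν * y + φ),
    test_mul ht (by fun_prop), test_mul hκ (by fun_prop),
    fun y => (abs_mul_le_mul (hκ1 y) (hs y)).trans_eq (one_mul _), fun y => ?_, fun y hy => ?_,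
    fun y hy => ?_, ?_⟩
  · rw [hh]
    field_simp
  · have := abs_comb (hdiv' (hdiv (h1 y) (by linarith))) (hdiv' (hk y hy)) abs_zero.le (hs y)
      (hc y) abs_one.le
    rw [hd]
    refine le_trans (le_of_eq ?_) (this.trans (by linarith [hm y hy]))
    congr 1
    ring
  · have k1 : |2 * (deriv h y / ν)| ≤ 2 * (m / 3) :=
      abs_mul_le_mul abs_two.le (hdiv (h1 y) (by linarith))
    have := abs_comb (hdiv' (hdiv (h2 y) (by linarith))) k1 ((abs_neg _).trans_le (hk y hy)) (hs y)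
      (hc y) (hs y)
    rw [hd, (((test_hasDerivAt (test_deriv ht) y).fun_mul
      ((hasDerivAt_sin_lin ν φ y).const_mul (1 / ν ^ 2))).fun_add ((test_hasDerivAt ht y).fun_mul
        ((hasDerivAt_cos_lin ν φ y).const_mul (1 / ν)))).deriv]
    refine le_trans (le_of_eq ?_) (this.trans (by linarith [hm y hy]))
    congr 1
    field_simp
    ring
  · rw [← div_le_iff₀' (by positivity), hd, ← integral_div]
    refine le_trans (le_of_eq (integral_congr_ae ?_)) (hφ.trans_eq ?_)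
    · filter_upwards [hκa] with y hy
      rw [hh]
      simp only [hy]
      field_simp
      ring
    · congr 1
      funext y
      ring

lemma exists_rel {p k : ℝ → ℝ} (hp : Continuous p) (hk : Test K k) {m c : ℝ} (hm0 : 0 < m)
    (hm : ∀ y ∈ K, m ≤ p y) (hc : 0 ≤ c) (h : ∀ y ∈ K, |k y| ≤ c * p y) :
    ∃ r : ℝ →ᵇ ℝ, ‖r‖ ≤ c ∧ ∀ y, r y * p y = k y := by
  have hpos : ∀ y, 0 < max (p y) m := fun y => lt_max_of_lt_right hm0
  have hb : ∀ y, |k y / max (p y) m| ≤ c := fun y => by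
    by_cases hy : y ∈ K
    · rw [abs_div, abs_of_pos (hpos y), div_le_iff₀ (hpos y), max_eq_left (hm y hy)]
      exact h y hy
    · simpa [hk.eq_zero hy] using hc
  refine ⟨BoundedContinuousFunction.ofNormedAddCommGroup (fun y => k y / max (p y) m)
    (hk.smooth.continuous.div (hp.max continuous_const) fun y => (hpos y).ne') c hb,
    (BoundedContinuousFunction.norm_le hc).2 hb, fun y => ?_⟩
  change k y / max (p y) m * p y = k y
  by_cases hy : y ∈ K
  · rw [max_eq_left (hm y hy), div_mul_cancel₀ _ (hm0.trans_le (hm y hy)).ne']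
  · simp [hk.eq_zero hy]

lemma exists_quot {N D : ℝ → ℝ →ᵇ ℝ} {ε : ℝ} (hε : ε ≤ 1 / 4) (hN : ∀ σ, ‖N σ‖ ≤ ε)
    (hD : ∀ σ, ‖D σ‖ ≤ ε) : ∃ A : ℝ → ℝ →ᵇ ℝ, (∀ σ y, A σ y * (1 + D σ y) = 1 + N σ y) ∧
      (∀ σ, ‖A σ - 1‖ ≤ 4 * ε) ∧ (∀ σ, N σ = D σ → A σ = 1) ∧
      ∀ σ τ, ‖A σ - A τ‖ ≤ 2 * ‖N σ - N τ‖ + 4 * ‖D σ - D τ‖ := by
  have hε0 : 0 ≤ ε := (norm_nonneg _).trans (hN 0)
  have bN : ∀ σ y, |N σ y| ≤ ε := fun σ y => ((N σ).norm_coe_le_norm y).trans (hN σ)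
  have bD : ∀ σ y, |D σ y| ≤ ε := fun σ y => ((D σ).norm_coe_le_norm y).trans (hD σ)
  have hpos : ∀ σ y, 1 / 2 ≤ 1 + D σ y := fun σ y => by linarith [(abs_le.1 (bD σ y)).1]
  have hne : ∀ σ y, 1 + D σ y ≠ 0 := fun σ y => by linarith [hpos σ y]
  have hb : ∀ σ y, |(1 + N σ y) / (1 + D σ y)| ≤ 2 := fun σ y => by
    have h1 := abs_le.1 (bN σ y)
    have h2 := abs_le.1 (bD σ y)
    rw [abs_div, abs_of_pos (by linarith), abs_of_pos (by linarith), div_le_iff₀ (by linarith)]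
    linarith
  obtain ⟨A, hA⟩ : ∃ A : ℝ → ℝ →ᵇ ℝ, ∀ σ y, A σ y = (1 + N σ y) / (1 + D σ y) :=
    ⟨fun σ => BoundedContinuousFunction.ofNormedAddCommGroup (fun y => (1 + N σ y) / (1 + D σ y))
      ((continuous_const.add (N σ).continuous).div (continuous_const.add (D σ).continuous) (hne σ))
      2 (hb σ), fun _ _ => rfl⟩
  have hid : ∀ σ y, A σ y * (1 + D σ y) = 1 + N σ y := fun σ y => by
    rw [hA, div_mul_cancel₀ _ (hne σ y)]
  refine ⟨A, hid, fun σ => (BoundedContinuousFunction.norm_le (by positivity)).2 fun y => ?_,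
    fun σ h => ?_, fun σ τ => (BoundedContinuousFunction.norm_le (by positivity)).2 fun y => ?_⟩
  · have := quot_one (a' := 1) (p' := D σ y) (q' := D σ y) ((bD σ y).trans (by linarith))
      (by norm_num) (hid σ y) (one_mul _)
    have h2 := abs_sub (N σ y) (D σ y)
    change |A σ y - 1| ≤ _
    rw [sub_self, abs_zero] at this
    linarith [bN σ y, bD σ y]
  · ext y
    rw [hA, h, div_self (hne σ y)]
    rfl
  · have := quot_one ((bD σ y).trans (by linarith)) ((hA τ y).symm ▸ hb τ y) (hid σ y) (hid τ y)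
    have h1 : |N σ y - N τ y| ≤ _ := (N σ - N τ).norm_coe_le_norm y
    have h2 : |D σ y - D τ y| ≤ _ := (D σ - D τ).norm_coe_le_norm y
    change |A σ y - A τ y| ≤ _
    linarith

/-- The time profiles: a ramp `s`, a bump `ψ` and `β = ψ' exp`. -/
structure Profile (Λ : ℝ) (s s' ψ ψ' : ℝ → ℝ) : Prop where
  one_le : 1 ≤ Λ
  ds : ∀ x, HasDerivAt s (s' x) x
  dψ : ∀ x, HasDerivAt ψ (ψ' x) x
  cs : Continuous s'
  cψ : Continuous ψ'
  bs : ∀ x, |s x| ≤ 1
  bs' : ∀ x, |s' x| ≤ Λ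
  bψ : ∀ x, |ψ x| ≤ 1
  bβ : ∀ x, |ψ' x * Real.exp x| ≤ Λ
  ls : ∀ x y, |s x - s y| ≤ Λ * |x - y|
  lψ : ∀ x y, |ψ x - ψ y| ≤ Λ * |x - y|
  lβ : ∀ x y, |ψ' x * Real.exp x - ψ' y * Real.exp y| ≤ Λ * |x - y|
  left : ∀ x ≤ 0, s x = 0 ∧ s' x = 0 ∧ ψ x = 0 ∧ ψ' x = 0
  right : ∀ x, 1 ≤ x → s x = 1 ∧ s' x = 0 ∧ ψ x = 0 ∧ ψ' x = 0
  half : ψ (1 / 2) = 1

lemma exists_profile : ∃ Λ s s' ψ ψ', Profile Λ s s' ψ ψ' := by
  let ψ : ContDiffBump (1 / 2 : ℝ) := ⟨1 / 8, 1 / 4, by norm_num, by norm_num⟩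
  have hK : IsCompact (Icc (1 / 4 : ℝ) (3 / 4)) := isCompact_Icc
  have hψ : Test (Icc (1 / 4 : ℝ) (3 / 4)) ψ := ⟨ψ.contDiff, by
    rw [ψ.tsupport_eq, Real.closedBall_eq_Icc]
    exact Icc_subset_Icc (by norm_num [ψ]) (by norm_num [ψ])⟩
  obtain ⟨s, hs, hs0, hs1, hsb⟩ : ∃ s : ℝ → ℝ, ContDiff ℝ ∞ s ∧ (∀ x < 1 / 4, s x = 0) ∧
      (∀ x, 3 / 4 < x → s x = 1) ∧ ∀ x, |s x| ≤ 1 :=
    ⟨fun x => Real.smoothTransition (2 * x - 1 / 2),
      Real.smoothTransition.contDiff.comp (by fun_prop),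
      fun x hx => Real.smoothTransition.zero_of_nonpos (by linarith),
      fun x hx => Real.smoothTransition.one_of_one_le (by linarith), fun x => by
        rw [abs_of_nonneg (Real.smoothTransition.nonneg _)]
        exact Real.smoothTransition.le_one _⟩
  have hs' : Test (Icc (1 / 4 : ℝ) (3 / 4)) (deriv s) := by
    refine ⟨(contDiff_infty_iff_deriv.1 hs).2, closure_minimal (fun x hx => ?_) isClosed_Icc⟩
    by_contra hc
    rw [mem_Icc, not_and_or, not_le, not_le] at hc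
    rcases hc with hc | hc
    · have : s =ᶠ[𝓝 x] fun _ => 0 := (gt_mem_nhds hc).mono hs0
      exact hx (by rw [this.deriv_eq, deriv_const])
    · have : s =ᶠ[𝓝 x] fun _ => 1 := (lt_mem_nhds hc).mono hs1
      exact hx (by rw [this.deriv_eq, deriv_const])
  have hβ := test_mul (test_deriv hψ) Real.contDiff_exp
  obtain ⟨C₁, h1, b1, l1⟩ := test_lip hK (hs.differentiable (by simp)) hs'
  obtain ⟨C₂, h2, -, l2⟩ := test_lip hK hψ.differentiable (test_deriv hψ)
  obtain ⟨C₃, h3, -, l3⟩ := test_lip hK hβ.differentiable (test_deriv hβ)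
  obtain ⟨C₄, h4, b4⟩ := hβ.exists_bound hK
  have hle : ∀ {C z : ℝ} (x : ℝ), C ≤ 1 + C₁ + C₂ + C₃ + C₄ → z ≤ C * |x| →
      z ≤ (1 + C₁ + C₂ + C₃ + C₄) * |x| := fun x k1 k2 =>
    k2.trans (mul_le_mul_of_nonneg_right k1 (abs_nonneg _))
  refine ⟨1 + C₁ + C₂ + C₃ + C₄, s, deriv s, ψ, deriv ψ, by linarith,
    fun x => (hs.differentiable (by simp) x).hasDerivAt, test_hasDerivAt hψ,
    hs'.smooth.continuous, (test_deriv hψ).smooth.continuous, hsb,
    fun x => (b1 x).trans (by linarith), fun x => ?_, fun x => (b4 x).trans (by linarith),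
    fun x y => hle _ (by linarith) (l1 x y), fun x y => hle _ (by linarith) (l2 x y),
    fun x y => hle _ (by linarith) (l3 x y), fun x hx => ?_, fun x hx => ?_,
    ψ.one_of_mem_closedBall (Metric.mem_closedBall_self ψ.rIn_pos.le)⟩
  · rw [abs_of_nonneg ψ.nonneg]
    exact ψ.le_one
  · have : x ∉ Icc (1 / 4 : ℝ) (3 / 4) := fun h => by linarith [h.1]
    exact ⟨hs0 x (by linarith), hs'.eq_zero this, hψ.eq_zero this, (test_deriv hψ).eq_zero this⟩
  · have : x ∉ Icc (1 / 4 : ℝ) (3 / 4) := fun h => by linarith [h.2]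
    exact ⟨hs1 x (by linarith), hs'.eq_zero this, hψ.eq_zero this, (test_deriv hψ).eq_zero this⟩

end Pool.Agent.MP_954c34_an.Sob

end
end

section

open MeasureTheory Set Filter Topology
open scoped ContDiff BoundedContinuousFunction

set_option linter.unusedSectionVars false

noncomputable section

namespace Pool.Agent.MP_954c34_an.Sob

open Sharp

variable {K I : Set ℝ} {ϖ : Measure ℝ} {Λ : ℝ} {s s' ψ ψ' : ℝ → ℝ}

lemma exists_ramp (h : Profile Λ s s' ψ ψ') (a : ℝ) {L : ℝ} (hL : 1 ≤ L) :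
    ∃ v v' : ℝ → ℝ, (∀ σ, HasDerivAt v (v' σ) σ) ∧ Continuous v' ∧ (∀ σ, |v σ| ≤ 1) ∧
      (∀ σ, |v' σ| ≤ Λ) ∧ (∀ σ ≤ a, v σ = 0 ∧ v' σ = 0) ∧ (∀ σ, a + L ≤ σ → v σ = 1 ∧ v' σ = 0) ∧
      ∀ σ τ, |v σ - v τ| ≤ mj (Λ / L) a L σ τ := by
  have hL0 : 0 < L := by linarith
  have h1 : ∀ σ ≤ a, (σ - a) / L ≤ 0 := fun σ hσ =>
    div_nonpos_of_nonpos_of_nonneg (by linarith) hL0.le
  have h2 : ∀ σ, a + L ≤ σ → 1 ≤ (σ - a) / L := fun σ hσ => by
    rw [le_div_iff₀ hL0]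
    linarith
  have hc := h.cs
  refine ⟨fun σ => s ((σ - a) / L), fun σ => s' ((σ - a) / L) / L, fun σ => ?_, by fun_prop,
    fun σ => h.bs _, fun σ => ?_, fun σ hσ => ?_, fun σ hσ => ?_,
    abs_sub_le_mj (fun σ τ => ?_) (fun σ hσ => (h.left _ (h1 σ hσ)).1)
      fun σ hσ => (h.right _ (h2 σ hσ)).1⟩
  · exact ((h.ds _).comp σ (((hasDerivAt_id' σ).sub_const a).div_const L)).congr_deriv (by ring)
  · rw [abs_div, abs_of_pos hL0]
    exact (div_le_self (abs_nonneg _) hL).trans (h.bs' _)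
  · simp [h.left _ (h1 σ hσ)]
  · simp [h.right _ (h2 σ hσ)]
  · refine (h.ls _ _).trans_eq ?_
    rw [← sub_div, sub_sub_sub_cancel_right, abs_div, abs_of_pos hL0]
    ring

lemma exists_pulse (h : Profile Λ s s' ψ ψ') (a : ℝ) {η : ℝ} (hη : 0 ≤ η) :
    ∃ α α' β : ℝ → ℝ, (∀ σ, HasDerivAt α (α' σ) σ) ∧
      (∀ σ, β σ * Real.exp a = Real.exp σ * α' σ) ∧ (∀ σ, |α σ| ≤ η) ∧ (∀ σ, |β σ| ≤ η * Λ) ∧
      (∀ σ, σ ≤ a ∨ a + 1 ≤ σ → α σ = 0 ∧ α' σ = 0 ∧ β σ = 0) ∧ α (a + 1 / 2) = η ∧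
      Continuous β ∧ (∀ σ τ, |α σ - α τ| ≤ mj (η * Λ) a 1 σ τ) ∧
      ∀ σ τ, |β σ - β τ| ≤ mj (η * Λ) a 1 σ τ := by
  have h0 : ∀ σ, σ ≤ a ∨ a + 1 ≤ σ → ψ (σ - a) = 0 ∧ ψ' (σ - a) = 0 := fun σ hσ =>
    hσ.elim (fun k => (h.left _ (by linarith)).2.2) fun k => (h.right _ (by linarith)).2.2
  have hl : ∀ {φ : ℝ → ℝ}, (∀ x y, |φ x - φ y| ≤ Λ * |x - y|) →
      (∀ σ, σ ≤ a ∨ a + 1 ≤ σ → φ (σ - a) = 0) →
      ∀ σ τ, |η * φ (σ - a) - η * φ (τ - a)| ≤ mj (η * Λ) a 1 σ τ := fun {φ} k1 k2 =>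
    abs_sub_le_mj (φ := fun σ => η * φ (σ - a)) (y := 0) (z := 0) (fun σ τ => by
      have := k1 (σ - a) (τ - a)
      rw [sub_sub_sub_cancel_right] at this
      rw [← mul_sub, mul_assoc]
      exact abs_mul_le_mul (abs_of_nonneg hη).le this)
      (fun σ hσ => by simp [k2 σ (Or.inl hσ)]) fun σ hσ => by simp [k2 σ (Or.inr hσ)]
  have hc := h.cψ
  refine ⟨fun σ => η * ψ (σ - a), fun σ => η * ψ' (σ - a),
    fun σ => η * (ψ' (σ - a) * Real.exp (σ - a)), fun σ => ?_, fun σ => ?_,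
    fun σ => (abs_mul_le_mul (abs_of_nonneg hη).le (h.bψ _)).trans_eq (mul_one _),
    fun σ => abs_mul_le_mul (abs_of_nonneg hη).le (h.bβ _), fun σ hσ => by simp [h0 σ hσ],
    by simp only [add_sub_cancel_left, h.half, mul_one], by fun_prop,
    hl h.lψ fun σ hσ => (h0 σ hσ).1,
    hl (φ := fun x => ψ' x * Real.exp x) h.lβ fun σ hσ => by simp [h0 σ hσ]⟩
  · exact (((h.dψ _).comp σ ((hasDerivAt_id' σ).sub_const a)).const_mul η).congr_deriv (by ring)
  · simp only [Real.exp_sub]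
    field_simp

/-- Solution, its space and time derivatives, right-hand side and coefficient at one time. -/
structure Q where
  U : ℝ →ᵇ ℝ
  P : ℝ →ᵇ ℝ
  W : ℝ →ᵇ ℝ
  F : ℝ →ᵇ ℝ
  A : ℝ →ᵇ ℝ

/-- The state at rest. -/
def rest (U : ℝ → ℝ) : Q := ⟨bcf U, bcf (deriv U), 0, -bcf (deriv (deriv U)), 1⟩

/-- The equation `e^τ ∂_τ U = (A U_y)_y + F` at time `τ`. -/
structure Good (I : Set ℝ) (x : ℝ → Q) (τ : ℝ) : Prop where
  test : Test I (x τ).U
  dU : ∀ y, HasDerivAt (x τ).U ((x τ).P y) y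
  dG : ∀ y, HasDerivAt (fun y => (x τ).A y * (x τ).P y)
    (Real.exp τ * (x τ).W y - (x τ).F y) y
  tU : HasDerivAt (fun σ => (x σ).U) (x τ).W τ
  cP : ContinuousAt (fun σ => (x σ).P) τ
  cF : ContinuousAt (fun σ => (x σ).F) τ
  cA : ContinuousAt (fun σ => (x σ).A) τ

lemma Good.congr {x x' : ℝ → Q} {τ : ℝ} (h : Good I x τ) (e : x' =ᶠ[𝓝 τ] x) : Good I x' τ := by
  have e0 : x' τ = x τ := e.eq_of_nhds
  exact ⟨e0 ▸ h.test, e0 ▸ h.dU, e0 ▸ h.dG, e0 ▸ h.tU.congr_of_eventuallyEq (e.fun_comp Q.U),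
    h.cP.congr (e.symm.fun_comp Q.P), h.cF.congr (e.symm.fun_comp Q.F),
    h.cA.congr (e.symm.fun_comp Q.A)⟩

/-- One stage of the construction. -/
structure Stage (ϖ : Measure ℝ) (I : Set ℝ) (Λ B η L : ℝ) (U U' : ℝ → ℝ) (e e' τ : ℝ)
    (x : ℝ → Q) : Prop where
  start : e + 1 ≤ τ
  stop : τ ≤ e'
  good : ∀ σ, Good I x σ
  before : ∀ σ ≤ τ, x σ = rest U
  after : ∀ σ, e' ≤ σ → x σ = rest U'
  bound : ∀ σ, τ ≤ σ → ‖(x σ).U‖ ≤ 4 * Real.exp (σ / 4) ∧ ‖(x σ).P‖ ≤ 4 * Real.exp (σ / 4) ∧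
    ‖(x σ).F‖ ≤ 4 * Real.exp (σ / 4)
  close : ∀ σ, ‖(x σ).A - 1‖ ≤ 4 * (2 * B + 2 * (η * Λ))
  ctl : ∃ a b, ∀ σ σ', ‖(x σ).A - (x σ').A‖ ≤
    mj (4 * (Λ / L)) a L σ σ' + mj (4 * (Λ / L)) b L σ σ' + mj (10 * (η * Λ)) τ 1 σ σ'
  grow : (1 + B ^ 2 / 2) * ∫ y, deriv U y ^ 2 ∂ϖ ≤ ∫ y, deriv U' y ^ 2 ∂ϖ
  blow : η ^ 2 / 2 * (∫ y, deriv U y ^ 2 ∂ϖ) * Real.exp (-τ) ≤
    ∫ y, ((x (τ + 1 / 2)).U y - (x τ).U y) ^ 2 ∂ϖ

lemma norm_two {X : Type} [NormedAddCommGroup X] [NormedSpace ℝ X] {a b : X} {c d A B C D : ℝ}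
    (ha : ‖a‖ ≤ A) (hb : ‖b‖ ≤ B) (hc : |c| ≤ C) (hd : |d| ≤ D) :
    ‖c • a + d • b‖ ≤ C * A + D * B := by
  refine (norm_add_le _ _).trans (add_le_add ?_ ?_) <;> rw [norm_smul]
  · exact mul_le_mul hc ha (norm_nonneg _) ((abs_nonneg _).trans hc)
  · exact mul_le_mul hd hb (norm_nonneg _) ((abs_nonneg _).trans hd)

lemma norm_three {X : Type} [NormedAddCommGroup X] [NormedSpace ℝ X] {a b z : X}
    {c d A B C D Z : ℝ} (hz : ‖z‖ ≤ Z) (ha : ‖a‖ ≤ A) (hb : ‖b‖ ≤ B) (hc : |c| ≤ C)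
    (hd : |d| ≤ D) : ‖z + (c • a + d • b)‖ ≤ Z + (C * A + D * B) :=
  (norm_add_le _ _).trans (add_le_add hz (norm_two ha hb hc hd))

lemma norm_bcf_rel (hK : IsCompact K) {p k : ℝ → ℝ} (hk : Test K k) {c M : ℝ} (hc : 0 ≤ c)
    (hp : ∀ y, |p y| ≤ M) (h : ∀ y ∈ K, |k y| ≤ c * p y) : ‖bcf k‖ ≤ c * M := by
  refine hk.norm_bcf_le hK fun y => ?_
  by_cases hy : y ∈ K
  · exact (h y hy).trans (mul_le_mul_of_nonneg_left ((le_abs_self _).trans (hp y)) hc)
  · rw [hk.eq_zero hy, abs_zero]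
    exact mul_nonneg hc ((abs_nonneg _).trans (hp y))

theorem exists_stage (hint : ∀ F : ℝ → ℝ, Continuous F → Integrable F ϖ) (hI : IsCompact I)
    (hK : IsCompact K) (hKI : K ⊆ I) {κ : ℝ → ℝ} (hκ : Test K κ) (hκ1 : ∀ y, |κ y| ≤ 1)
    (hκa : ∀ᵐ y ∂ϖ, κ y = 1) (hΛ : Profile Λ s s' ψ ψ') {B η L : ℝ} (hB : 0 ≤ B) (hη : 0 ≤ η)
    (hL : 1 ≤ L) (hs : 2 * B + 2 * (η * Λ) ≤ 1 / 4) {U : ℝ → ℝ} (hU : Test I U)
    (hpos : ∀ y ∈ K, 0 < deriv U y) (e : ℝ) :
    ∃ U' e' τ x, Test I U' ∧ (∀ y ∈ K, 0 < deriv U' y) ∧ Stage ϖ I Λ B η L U U' e e' τ x := by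
  have hΛ1 := hΛ.one_le
  have hηΛ : η ≤ η * Λ := le_mul_of_one_le_right hη hΛ1
  have hp := test_deriv hU
  have hp' := test_deriv hp
  obtain ⟨m, hm0, hm⟩ := hK.exists_forall_le' hp.smooth.continuous.continuousOn hpos
  obtain ⟨M₀, hM₀, b0⟩ := hU.exists_bound hI
  obtain ⟨M₁, hM₁, b1⟩ := hp.exists_bound hI
  obtain ⟨M₂, hM₂, b2⟩ := hp'.exists_bound hI
  obtain ⟨ν₀, hν₀⟩ := exists_bump hint hK hκ hκ1 hκa hp.smooth hm0 hm
  obtain ⟨τ, hτe, hτ0, hτM, hτν⟩ : ∃ τ, e + 1 ≤ τ ∧ 0 ≤ τ ∧ M₀ + M₁ + M₂ ≤ Real.exp (τ / 4) ∧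
      ν₀ ≤ Real.exp (τ / 2) := by
    have k1 := le_abs_self e
    have k2 := le_abs_self ν₀
    have k3 := abs_nonneg e
    have k4 := abs_nonneg ν₀
    exact ⟨|e| + 1 + 4 * (M₀ + M₁ + M₂) + 2 * |ν₀|, by linarith, by linarith,
      le_trans (by linarith) (Real.add_one_le_exp _),
      le_trans (by linarith) (Real.add_one_le_exp _)⟩
  obtain ⟨Z, S, hZ, hS, bS, hSZ, bZ1, bZ2, hlow⟩ := hν₀ _ hτν
  have hν2 : Real.exp (τ / 2) ^ 2 = Real.exp τ := by
    rw [← Real.exp_nat_mul]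
    congr 1
    push_cast
    ring
  rw [hν2] at hSZ hlow
  have hE1 : 1 ≤ Real.exp (τ + 1 + L) := Real.one_le_exp (by linarith)
  obtain ⟨d, hd, bd, bd1, hgrow⟩ := exists_pump hint hK hκ hκ1 hκa hp.smooth hm0 hm hB
    (by linarith) (ε := 1 / (Real.exp (τ + 1 + L) * Λ)) (by positivity)
  obtain ⟨M₃, hM₃, b3⟩ := (test_deriv (test_deriv hd)).exists_bound hK
  obtain ⟨r, br, hr⟩ := exists_rel hp.smooth.continuous (test_deriv hd) hm0 hm (by positivity) bd1
  obtain ⟨R, bR, hR⟩ := exists_rel hp.smooth.continuous (test_deriv (test_deriv hZ)) hm0 hm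
    (by positivity) bZ2
  obtain ⟨v, v', dv, cv, bv, bv', vl, vr, lv⟩ := exists_ramp hΛ (τ + 1) hL
  obtain ⟨w, w', dw, -, bw, -, wl, wr, lw⟩ := exists_ramp hΛ (τ + 4 * M₃) hL
  obtain ⟨α, α', β, dα, hβ, bα, bβ, hα0, hα1, cβ, lα, lβ⟩ := exists_pulse hΛ τ hη
  have bS' : ‖bcf S‖ ≤ 1 := hS.norm_bcf_le hK bS
  obtain ⟨A, hA, bA, hA1, lA⟩ := exists_quot (N := fun σ => w σ • r + β σ • bcf S)
    (D := fun σ => v σ • r + α σ • R) hs
    (fun σ => (norm_two br bS' (bw σ) (bβ σ)).trans (by nlinarith))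
    fun σ => (norm_two br bR (bv σ) (bα σ)).trans (by linarith)
  have cv0 : Continuous v := continuous_iff_continuousAt.2 fun σ => (dv σ).continuousAt
  have cw0 : Continuous w := continuous_iff_continuousAt.2 fun σ => (dw σ).continuousAt
  have cα0 : Continuous α := continuous_iff_continuousAt.2 fun σ => (dα σ).continuousAt
  have cA : Continuous A := by
    refine continuous_iff_continuousAt.2 fun σ => tendsto_iff_norm_sub_tendsto_zero.2 ?_
    refine squeeze_zero (fun _ => norm_nonneg _) (fun t => lA t σ) ?_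
    refine Continuous.tendsto' (by fun_prop) σ 0 (by simp)
  have hdI := hd.mono hKI
  have hZ1 := (test_deriv hZ).mono hKI
  have eU := hU.bcf_apply hI
  have ep := hp.bcf_apply hI
  have ep' := hp'.bcf_apply hI
  have ed := hdI.bcf_apply hI
  have ed1 := (test_deriv hdI).bcf_apply hI
  have ed2 := (test_deriv (test_deriv hdI)).bcf_apply hI
  have eZ1 := hZ1.bcf_apply hI
  have eZ2 := (test_deriv hZ1).bcf_apply hI
  have bd0 : ‖bcf d‖ ≤ 1 / (Real.exp (τ + 1 + L) * Λ) := hd.norm_bcf_le hK bd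
  have bd0' : ‖bcf d‖ ≤ 1 :=
    bd0.trans (div_le_one_of_le₀ (one_le_mul_of_one_le_of_one_le hE1 hΛ1) (by positivity))
  refine ⟨U + d, τ + 1 + L + 4 * M₃, τ, fun σ =>
    ⟨bcf U + (v σ • bcf d + α σ • bcf (deriv Z)),
      bcf (deriv U) + (v σ • bcf (deriv d) + α σ • bcf (deriv (deriv Z))),
      v' σ • bcf d + α' σ • bcf (deriv Z),
      -bcf (deriv (deriv U)) + ((Real.exp σ * v' σ) • bcf d + (-w σ) • bcf (deriv (deriv d))),
      A σ⟩, test_add' hU hdI, fun y hy => ?_, hτe, by linarith, fun σ => ?_, fun σ hσ => ?_,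
    fun σ hσ => ?_, fun σ hσ => ?_, bA, ⟨τ + 4 * M₃, τ + 1, fun σ σ' => ?_⟩, ?_, ?_⟩
  · rw [deriv_add_test hU hdI, Pi.add_apply]
    have k1 := (abs_le.1 (bd1 y hy)).1
    nlinarith [hpos y hy]
  · have e1 : ⇑(bcf U + (v σ • bcf d + α σ • bcf (deriv Z))) =
        fun y => U y + (v σ * d y + α σ * deriv Z y) := by
      funext y
      simp [eU, ed, eZ1]
    have e2 : (fun y => A σ y *
        (bcf (deriv U) + (v σ • bcf (deriv d) + α σ • bcf (deriv (deriv Z)))) y) =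
        fun y => deriv U y + (w σ * deriv d y + Real.exp σ * α' σ * Z y) := by
      funext y
      have k1 := hA σ y
      simp only [BoundedContinuousFunction.coe_add, BoundedContinuousFunction.coe_smul,
        Pi.add_apply, smul_eq_mul, hS.bcf_apply hK, ep, ed1, eZ2] at k1 ⊢
      rw [← hβ, ← hr, ← hR]
      linear_combination deriv U y * k1 + β σ * hSZ y
    refine ⟨?_, fun y => ?_, fun y => ?_, ?_, by fun_prop, by fun_prop, cA.continuousAt⟩
    · simp only [e1]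
      exact test_add hU (test_add (hdI.const_mul _) (hZ1.const_mul _))
    · simp only [e1]
      refine ((test_hasDerivAt hU y).fun_add (((test_hasDerivAt hd y).const_mul _).fun_add
        ((test_hasDerivAt hZ1 y).const_mul _))).congr_deriv ?_
      simp [ep, ed1, eZ2]
    · simp only [e2]
      refine ((test_hasDerivAt hp y).fun_add
        (((test_hasDerivAt (test_deriv hd) y).const_mul _).fun_add
          ((test_hasDerivAt hZ y).const_mul _))).congr_deriv ?_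
      simp [ep', ed, ed2, eZ1]
      ring
    · exact (((dv σ).smul_const _).fun_add ((dα σ).smul_const _)).const_add _
  · obtain ⟨k1, k2⟩ := vl σ (by linarith)
    obtain ⟨k3, k4, k5⟩ := hα0 σ (Or.inl hσ)
    have k6 := (wl σ (by linarith)).1
    rw [hA1 σ (by simp [k1, k3, k5, k6])]
    simp [rest, k1, k2, k3, k4, k6]
  · obtain ⟨k1, k2⟩ := vr σ (by linarith)
    obtain ⟨k3, k4, k5⟩ := hα0 σ (Or.inr (by linarith))
    have k6 := (wr σ (by linarith)).1
    rw [hA1 σ (by simp [k1, k3, k5, k6]), rest, deriv_add_test hU hdI,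
      deriv_add_test hp (test_deriv hdI), bcf_add hI hU hdI, bcf_add hI hp (test_deriv hdI),
      bcf_add hI hp' (test_deriv (test_deriv hdI))]
    have k7 : ∀ z : ℝ →ᵇ ℝ, (-1 : ℝ) • z = -z := fun z => neg_one_smul ℝ z
    simp [k1, k2, k3, k4, k6, k7, add_comm]
  · have k0 : Real.exp (τ / 4) ≤ Real.exp (σ / 4) := Real.exp_le_exp.2 (by linarith)
    have k1 : 1 ≤ Real.exp (σ / 4) := Real.one_le_exp (by linarith)
    have k2 : ∀ t, |α t| ≤ 1 := fun t => (bα t).trans (by linarith)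
    refine ⟨(norm_three (hU.norm_bcf_le hI b0) bd0'
      (norm_bcf_rel hK (test_deriv hZ) two_pos.le b1 bZ1) (bv σ) (k2 σ)).trans (by linarith),
      (norm_three (hp.norm_bcf_le hI b1) (norm_bcf_rel hK (test_deriv hd) (by positivity) b1 bd1)
        (norm_bcf_rel hK (test_deriv (test_deriv hZ)) two_pos.le b1 bZ2) (bv σ) (k2 σ)).trans
        (by nlinarith), ?_⟩
    have k3 : |Real.exp σ * v' σ| ≤ Real.exp (τ + 1 + L) * Λ := by
      rcases le_total σ (τ + 1 + L) with k | k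
      · exact abs_mul_le_mul ((abs_of_pos (Real.exp_pos σ)).le.trans (Real.exp_le_exp.2 k))
          (bv' σ)
      · rw [(vr σ k).2, mul_zero, abs_zero]
        positivity
    have k4 : |-w σ| * M₃ ≤ Real.exp (σ / 4) := by
      rcases le_total σ (τ + 4 * M₃) with k | k
      · rw [(wl σ k).1, neg_zero, abs_zero, zero_mul]
        positivity
      · rw [abs_neg]
        nlinarith [bw σ, Real.add_one_le_exp (σ / 4)]
    refine (norm_three ((norm_neg _).trans_le (hp'.norm_bcf_le hI b2)) bd0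
      ((test_deriv (test_deriv hd)).norm_bcf_le hK b3) k3 le_rfl).trans ?_
    rw [mul_one_div_cancel (by positivity)]
    linarith
  · have k1 := norm_two br bS' (lw σ σ') (lβ σ σ')
    have k2 := norm_two br bR (lv σ σ') (lα σ σ')
    have k3 := lA σ σ'
    have k4 := mj_nonneg (c := Λ / L) (by positivity) (τ + 4 * M₃) L σ σ'
    have k5 := mj_nonneg (c := Λ / L) (by positivity) (τ + 1) L σ σ'
    rw [sub_smul, sub_smul, ← add_sub_add_comm] at k1 k2
    rw [← mul_mj 4, ← mul_mj 4, ← mul_mj 10]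
    nlinarith [mul_nonneg (by linarith : 0 ≤ 1 - 2 * B) k4,
      mul_nonneg (by linarith : 0 ≤ 1 / 2 - 2 * B) k5]
  · rw [deriv_add_test hU hdI]
    exact hgrow
  · have k1 := (vl τ (by linarith)).1
    have k2 := (vl (τ + 1 / 2) (by linarith)).1
    have k3 := (hα0 τ (Or.inl le_rfl)).1
    simp only [k1, k2, k3, hα1, zero_smul, zero_add, add_zero, BoundedContinuousFunction.coe_add,
      BoundedContinuousFunction.coe_smul, Pi.add_apply, smul_eq_mul, eZ1, add_sub_cancel_left,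
      mul_pow, integral_const_mul]
    calc _ ≤ η ^ 2 / 2 * (2 * Real.exp τ * ∫ y, deriv Z y ^ 2 ∂ϖ) * Real.exp (-τ) := by gcongr
      _ = _ := by
        rw [Real.exp_neg]
        field_simp

end Pool.Agent.MP_954c34_an.Sob

end
end

section

open MeasureTheory Set Filter Topology
open scoped ContDiff BoundedContinuousFunction

set_option linter.unusedSectionVars false

noncomputable section

namespace Pool.Agent.MP_954c34_an.Sob

open Sharp

lemma exists_idx {τ : ℕ → ℝ} (hτ : ∀ i, τ i + 1 ≤ τ (i + 1)) :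
    ∃ idx : ℝ → ℕ, (∀ σ, σ < τ (idx σ + 1)) ∧ (∀ σ, idx σ = 0 ∨ τ (idx σ) ≤ σ) ∧
      (∀ i σ, i = 0 ∨ τ i ≤ σ → σ < τ (i + 1) → idx σ = i) ∧ Tendsto idx atTop atTop ∧
      ∀ σ, ∃ i, σ ≤ τ i := by
  classical
  have hm : Monotone τ := monotone_nat_of_le_succ fun i => by linarith [hτ i]
  have hge : ∀ i : ℕ, τ 0 + i ≤ τ i := fun i => by
    induction i with
    | zero => simp
    | succ i ih =>
      push_cast
      linarith [hτ i]
  have hex : ∀ σ, ∃ i, σ < τ (i + 1) := fun σ => by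
    obtain ⟨i, hi⟩ := exists_nat_ge (σ - τ 0)
    exact ⟨i, by linarith [hge i, hτ i]⟩
  refine ⟨fun σ => Nat.find (hex σ), fun σ => Nat.find_spec (hex σ), fun σ => ?_,
    fun i σ h1 h2 => ?_, tendsto_atTop_atTop.2 fun N => ⟨τ N, fun σ hσ => ?_⟩,
    fun σ => (hex σ).elim fun i hi => ⟨i + 1, hi.le⟩⟩
  · rcases h : Nat.find (hex σ) with _ | j
    · exact Or.inl h
    · have := Nat.find_min (hex σ) (m := j) (by omega)
      simp only [h]
      exact Or.inr (not_lt.1 this)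
  · refine (Nat.find_eq_iff _).2 ⟨h2, fun j hj => ?_⟩
    rcases h1 with h1 | h1
    · omega
    · exact not_lt.2 ((hm hj).trans h1)
  · refine (Nat.le_find_iff _ _).2 fun j hj => not_lt.2 ((hm hj).trans hσ)

lemma summable_ramp {c q : ℝ} (hc : 0 ≤ c) (hq : 1 < q) :
    Summable fun i : ℕ => (c / 2 ^ i) ^ q * (2 ^ i + 1) := by
  have h1 : (2 : ℝ) / 2 ^ q < 1 := by
    rw [div_lt_one (by positivity)]
    simpa using Real.rpow_lt_rpow_of_exponent_lt one_lt_two hq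
  refine Summable.of_nonneg_of_le (fun i => by positivity) (fun i => ?_)
    ((summable_geometric_of_lt_one (by positivity) h1).mul_left (2 * c ^ q))
  have h2 : (1 : ℝ) ≤ 2 ^ i := one_le_pow₀ one_le_two
  rw [Real.div_rpow hc (by positivity), ← Real.rpow_natCast, ← Real.rpow_mul two_pos.le,
    mul_comm (i : ℝ), Real.rpow_mul two_pos.le, Real.rpow_natCast, Real.rpow_natCast, div_pow]
  calc _ ≤ c ^ q / (2 ^ q) ^ i * (2 ^ i + 2 ^ i) := by gcongr
    _ = _ := by ring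

lemma summable_pulse {c q J : ℝ} (hc : 0 ≤ c) (hq : 1 < q) (hJ : 0 < J) :
    Summable fun i : ℕ => (c / (i + J)) ^ q * (1 + 1) := by
  refine (((Real.summable_one_div_nat_add_rpow J q).2 hq).mul_left (2 * c ^ q)).congr fun i => ?_
  rw [Real.div_rpow hc (by positivity), abs_of_pos (by positivity)]
  ring

variable {K I : Set ℝ} {ϖ : Measure ℝ}

theorem exists_oneD (hint : ∀ F : ℝ → ℝ, Continuous F → Integrable F ϖ) (hI : IsCompact I)
    (hK : IsCompact K) (hKI : K ⊆ I) {κ : ℝ → ℝ} (hκ : Test K κ) (hκ1 : ∀ y, |κ y| ≤ 1)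
    (hκa : ∀ᵐ y ∂ϖ, κ y = 1) {g : ℝ → ℝ} (hg : Test I g) (hpos : ∀ y ∈ K, 0 < deriv g y)
    (hρ : 0 < ∫ y, deriv g y ^ 2 ∂ϖ) {δ : ℝ} (hδ : 0 < δ) (hδ1 : δ ≤ 1) :
    ∃ (x : ℝ → Q) (C c : ℝ), 0 < c ∧ (∀ τ, Good I x τ) ∧
      (∀ τ, ‖(x τ).U‖ ≤ C + C * Real.exp (τ / 4) ∧ ‖(x τ).P‖ ≤ C + C * Real.exp (τ / 4) ∧
        ‖(x τ).F‖ ≤ C + C * Real.exp (τ / 4)) ∧ (∀ τ, ‖(x τ).A - 1‖ ≤ δ) ∧
      Tendsto (fun τ => (x τ).A) atTop (𝓝 1) ∧
      (∀ q, 1 < q → ∀ T, FiniteSeminorm T q fun t => (x (-Real.log (T - t))).A) ∧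
      ∀ τ₀, ∃ τ, τ₀ ≤ τ ∧
        c * Real.exp (-τ) ≤ ∫ y, ((x (τ + 1 / 2)).U y - (x τ).U y) ^ 2 ∂ϖ := by
  obtain ⟨Λ, s, s', ψ, ψ', hΛ⟩ := exists_profile
  have hΛ1 := hΛ.one_le
  obtain ⟨k, hk1, hk⟩ : ∃ k : ℝ, 1 ≤ k ∧ (4 + 2 * Λ) / k ≤ δ / 4 := by
    refine ⟨(4 + 2 * Λ) / (δ / 4), ?_, le_of_eq (by field_simp)⟩
    rw [le_div_iff₀ (by positivity)]
    linarith
  obtain ⟨J, hJ⟩ : ∃ J, J = k ^ 2 := ⟨_, rfl⟩
  have hJ1 : 1 ≤ J := hJ ▸ one_le_pow₀ hk1
  have hn : ∀ i : ℕ, 1 ≤ (i : ℝ) + J := fun i => by linarith [i.cast_nonneg (α := ℝ)]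
  obtain ⟨B, hB⟩ : ∃ B : ℕ → ℝ, ∀ i, B i = 2 / √(i + J) := ⟨_, fun _ => rfl⟩
  obtain ⟨η, hη⟩ : ∃ η : ℕ → ℝ, ∀ i, η i = 1 / (i + J) := ⟨_, fun _ => rfl⟩
  have hε : ∀ i, 2 * B i + 2 * (η i * Λ) ≤ (4 + 2 * Λ) / √(i + J) := fun i => by
    have k1 : 1 ≤ √(i + J) := Real.one_le_sqrt.2 (hn i)
    have k2 : √(i + J) ≤ i + J := by nlinarith [Real.mul_self_sqrt (zero_le_one.trans (hn i))]
    have k3 : η i ≤ 1 / √(i + J) := by
      rw [hη]
      gcongr
    calc _ ≤ 2 * B i + 2 * (1 / √(i + J) * Λ) := by gcongr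
      _ = _ := by
        rw [hB]
        ring
  have hε' : ∀ i, 2 * B i + 2 * (η i * Λ) ≤ δ / 4 := fun i => by
    refine (hε i).trans (le_trans ?_ hk)
    gcongr
    exact Real.le_sqrt_of_sq_le (by linarith [i.cast_nonneg (α := ℝ)])
  have hB0 : ∀ i, 0 ≤ B i := fun i => by
    rw [hB]
    positivity
  have hη0 : ∀ i, 0 ≤ η i := fun i => by
    have := hn i
    rw [hη]
    positivity
  have hst : ∀ (i : ℕ) (z : {z : (ℝ → ℝ) × ℝ // Test I z.1 ∧ ∀ y ∈ K, 0 < deriv z.1 y}),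
      ∃ (z' : {z : (ℝ → ℝ) × ℝ // Test I z.1 ∧ ∀ y ∈ K, 0 < deriv z.1 y}) (τ : ℝ) (x : ℝ → Q),
        Stage ϖ I Λ (B i) (η i) (2 ^ i) z.1.1 z'.1.1 z.1.2 z'.1.2 τ x := fun i z => by
    obtain ⟨U', e', τ, x, h1, h2, h3⟩ := exists_stage hint hI hK hKI hκ hκ1 hκa hΛ (hB0 i) (hη0 i)
      (one_le_pow₀ one_le_two (n := i)) ((hε' i).trans (by linarith)) z.2.1 z.2.2 z.1.2
    exact ⟨⟨(U', e'), h1, h2⟩, τ, x, h3⟩
  choose nx τf xf hnx using hst
  obtain ⟨U, e, τ, X, hU0, hS⟩ : ∃ (U : ℕ → ℝ → ℝ) (e τ : ℕ → ℝ) (X : ℕ → ℝ → Q), U 0 = g ∧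
      ∀ i, Stage ϖ I Λ (B i) (η i) (2 ^ i) (U i) (U (i + 1)) (e i) (e (i + 1)) (τ i) (X i) := by
    let z : ℕ → {z : (ℝ → ℝ) × ℝ // Test I z.1 ∧ ∀ y ∈ K, 0 < deriv z.1 y} :=
      fun i => Nat.rec ⟨(g, 0), hg, hpos⟩ nx i
    exact ⟨fun i => (z i).1.1, fun i => (z i).1.2, fun i => τf i (z i), fun i => xf i (z i), rfl,
      fun i => hnx i (z i)⟩
  have hτ : ∀ i, τ i + 1 ≤ τ (i + 1) := fun i => by linarith [(hS i).stop, (hS (i + 1)).start]
  have hm : Monotone τ := monotone_nat_of_le_succ fun i => by linarith [hτ i]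
  obtain ⟨idx, i1, i2, i3, i4, i5⟩ := exists_idx hτ
  have hloc : ∀ σ, (fun σ' => X (idx σ') σ') =ᶠ[𝓝 σ] X (idx σ) := fun σ => by
    rcases h : idx σ with _ | j
    · have k1 := i1 σ
      rw [h] at k1
      filter_upwards [gt_mem_nhds k1] with σ' k2
      rw [i3 0 σ' (Or.inl rfl) k2]
    · have k1 := i1 σ
      have k2 := (i2 σ).resolve_left (by omega)
      rw [h] at k1 k2
      filter_upwards [gt_mem_nhds k1, lt_mem_nhds (by linarith : τ (j + 1) - 1 < σ)] with σ' k3 k4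
      rcases le_or_gt (τ (j + 1)) σ' with k5 | k5
      · rw [i3 _ σ' (Or.inr k5) k3]
      · rw [i3 j σ' (Or.inr (by linarith [hτ j])) k5, (hS (j + 1)).before σ' k5.le,
          (hS j).after σ' (by linarith [(hS (j + 1)).start])]
  have hone : ∀ σ i, i ≠ idx σ → (X i σ).A = 1 := fun σ i h => by
    rcases lt_or_gt_of_ne h with k | k
    · have k1 := (i2 σ).resolve_left (by omega)
      rw [(hS i).after σ (by linarith [(hS (i + 1)).start, hm (Nat.succ_le_of_lt k)])]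
      rfl
    · rw [(hS i).before σ ((i1 σ).le.trans (hm (Nat.succ_le_of_lt k)))]
      rfl
  obtain ⟨c, hc0, hc⟩ : ∃ c, 0 < c ∧ ∀ i : ℕ,
      c * ((i + J) * (i + J + 1)) ≤ ∫ y, deriv (U i) y ^ 2 ∂ϖ := by
    have k0 : 0 < (∫ y, deriv g y ^ 2 ∂ϖ) / (J * (J + 1)) := by positivity
    refine ⟨_, k0, fun i => ?_⟩
    induction i with
    | zero =>
      rw [hU0, Nat.cast_zero, zero_add, div_mul_cancel₀ _ (by positivity)]
    | succ i ih =>
      refine le_trans ?_ (hS i).grow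
      refine le_trans (le_of_eq ?_) (mul_le_mul_of_nonneg_left ih (by positivity))
      have := hn i
      rw [hB, div_pow, Real.sq_sqrt (by positivity)]
      push_cast
      field_simp
      ring
  choose a b hab using fun i => (hS i).ctl
  refine ⟨fun σ => X (idx σ) σ, 4 + 4 * Real.exp (τ 0 / 4), c / 2, by positivity,
    fun σ => ((hS _).good σ).congr (hloc σ), fun σ => ?_,
    fun σ => ((hS _).close σ).trans (by linarith [hε' (idx σ)]), ?_, fun q hq T => ?_,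
    fun τ₀ => ?_⟩
  · have k0 := Real.exp_pos (σ / 4)
    have k1 := Real.exp_pos (τ 0 / 4)
    have k2 := mul_pos k1 k0
    rcases le_total (τ (idx σ)) σ with h | h
    · obtain ⟨k3, k4, k5⟩ := (hS _).bound σ h
      exact ⟨by linarith, by linarith, by linarith⟩
    · rcases i2 σ with h' | h'
      · obtain ⟨k3, k4, k5⟩ := (hS 0).bound _ le_rfl
        rw [h'] at h
        simp only [h', (hS 0).before σ h]
        rw [(hS 0).before _ le_rfl] at k3 k4 k5
        exact ⟨by linarith, by linarith, by linarith⟩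
      · obtain ⟨k3, k4, k5⟩ := (hS _).bound σ h'
        exact ⟨by linarith, by linarith, by linarith⟩
  · refine tendsto_iff_norm_sub_tendsto_zero.2 (squeeze_zero (fun _ => norm_nonneg _)
      (fun σ => ((hS _).close σ).trans (mul_le_mul_of_nonneg_left (hε _) (by norm_num))) ?_)
    have k1 : Tendsto (fun i : ℕ => (4 + 2 * Λ) / √(i + J)) atTop (𝓝 0) :=
      (Real.tendsto_sqrt_atTop.comp
        (tendsto_atTop_add_const_right _ J tendsto_natCast_atTop_atTop)).const_div_atTop _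
    simpa using (k1.comp i4).const_mul 4
  · refine finiteSeminorm_of_mj (ι := Fin 3 × ℕ) (fun σ => (X (idx σ) σ).A)
      (fun p => ![6 * (4 * (Λ / 2 ^ p.2)), 6 * (4 * (Λ / 2 ^ p.2)), 6 * (10 * (η p.2 * Λ))] p.1)
      (fun p => ![a p.2, b p.2, τ p.2] p.1) (fun p => ![2 ^ p.2, 2 ^ p.2, 1] p.1) ?_ ?_
      (fun σ σ' => ?_) hq ?_ T
    · rintro ⟨j, i⟩
      have := hη0 i
      fin_cases j <;> simp <;> positivity
    · rintro ⟨j, i⟩
      fin_cases j <;> simp
    · by_contra hcon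
      push Not at hcon
      have k1 : ∀ i, ‖(X i σ).A - (X i σ').A‖ < ‖(X (idx σ) σ).A - (X (idx σ') σ').A‖ / 2 :=
        fun i => by
          have a0 := hcon (0, i)
          have a1 := hcon (1, i)
          have a2 := hcon (2, i)
          simp only [Matrix.cons_val_zero, Matrix.cons_val_one, Matrix.cons_val_two,
            Matrix.tail_cons, Matrix.head_cons] at a0 a1 a2
          rw [← mul_mj 6] at a0 a1 a2
          linarith [hab i σ σ']
      by_cases h : idx σ = idx σ'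
      · have := k1 (idx σ)
        rw [← h] at this
        linarith [norm_nonneg ((X (idx σ) σ).A - (X (idx σ) σ').A)]
      · have k2 := k1 (idx σ)
        have k3 := k1 (idx σ')
        rw [hone σ' _ h] at k2
        rw [hone σ _ (Ne.symm h)] at k3
        linarith [norm_sub_le_norm_sub_add_norm_sub (X (idx σ) σ).A 1 (X (idx σ') σ').A]
    · refine (summable_prod_of_nonneg ?_).2 ⟨fun j => ?_, Summable.of_finite⟩
      · rintro ⟨j, i⟩
        have := hη0 i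
        fin_cases j <;> simp <;> positivity
      · have k1 := summable_ramp (c := 24 * Λ) (by positivity) hq
        have k2 := summable_pulse (c := 60 * Λ) (J := J) (by positivity) hq (by positivity)
        fin_cases j
        · exact k1.congr fun i => by
            change _ = (6 * (4 * (Λ / 2 ^ i))) ^ q * (2 ^ i + 1)
            ring_nf
        · exact k1.congr fun i => by
            change _ = (6 * (4 * (Λ / 2 ^ i))) ^ q * (2 ^ i + 1)
            ring_nf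
        · exact k2.congr fun i => by
            change _ = (6 * (10 * (η i * Λ))) ^ q * (1 + 1)
            rw [hη]
            ring_nf
  · obtain ⟨i, hi⟩ := i5 τ₀
    refine ⟨τ i, hi, ?_⟩
    simp only [i3 i (τ i) (Or.inr le_rfl) (by linarith [hτ i]),
      i3 i (τ i + 1 / 2) (Or.inr (by linarith)) (by linarith [hτ i])]
    refine le_trans (mul_le_mul_of_nonneg_right ?_ (Real.exp_pos _).le) (hS i).blow
    refine le_trans ?_ (mul_le_mul_of_nonneg_left (hc i) (by positivity))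
    have := hn i
    rw [hη]
    calc c / 2 = (1 / (i + J)) ^ 2 / 2 * (c * ((i + J) * (i + J))) := by field_simp
      _ ≤ (1 / (i + J)) ^ 2 / 2 * (c * ((i + J) * (i + J + 1))) := by
        have k : (i + J) * (i + J) ≤ (i + J) * (i + J + 1) := by nlinarith
        exact mul_le_mul_of_nonneg_left (mul_le_mul_of_nonneg_left k hc0.le) (by positivity)

end Pool.Agent.MP_954c34_an.Sob

end
end
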